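import Mathlib

/-! Polyhedra with integer rows: vertices, normal cones, edges with an integer direction. -/

namespace Pool.Agent.Simplex.SD

open Matrix

/-- real version of an integer vector -/
def rv {n : ℕ} (h : Fin n → ℤ) : Fin n → ℝ := fun k => (h k : ℝ)

variable {n M : ℕ}

/-- the polyhedron -/
def Pol (a : Fin M → Fin n → ℤ) (b : Fin M → ℝ) : Set (Fin n → ℝ) :=
  {x | ∀ l, rv (a l) ⬝ᵥ x ≤ b l}

/-- vertices: feasible, and the tight rows have full rank -/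
def Vtx (a : Fin M → Fin n → ℤ) (b : Fin M → ℝ) (x : Fin n → ℝ) : Prop :=
  x ∈ Pol a b ∧ ∀ q : Fin n → ℝ, (∀ l, rv (a l) ⬝ᵥ x = b l → rv (a l) ⬝ᵥ q = 0) → q = 0

/-- normal cones -/
def NC (a : Fin M → Fin n → ℤ) (b : Fin M → ℝ) (x : Fin n → ℝ) : Set (Fin n → ℝ) :=
  {y | ∀ z ∈ Pol a b, y ⬝ᵥ z ≤ y ⬝ᵥ x}

/-- all maximal minors are bounded by `D` -/
def Minors (a : Fin M → Fin n → ℤ) (D : ℤ) : Prop :=
  ∀ f : Fin n → Fin M, |(Matrix.of fun i => a (f i)).det| ≤ D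

/-- an edge from `v` to `v'` with integer direction `h`, and a row `i` that is left -/
structure Edg (a : Fin M → Fin n → ℤ) (b : Fin M → ℝ) (D : ℤ) (v v' : Fin n → ℝ)
    (h : Fin n → ℤ) (i : Fin M) : Prop where
  vtx : Vtx a b v
  vtx' : Vtx a b v'
  len : ∃ t : ℝ, 0 < t ∧ v' = v + t • rv h
  bd : ∀ l, |h ⬝ᵥ a l| ≤ D
  tight : rv (a i) ⬝ᵥ v = b i
  neg : h ⬝ᵥ a i < 0
  one : ∀ q : Fin n → ℝ, (∀ l, rv (a l) ⬝ᵥ v = b l → h ⬝ᵥ a l = 0 → rv (a l) ⬝ᵥ q = 0) →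
    ∃ t : ℝ, q = t • rv h

/-- span of some rows and the objective -/
def Sp (a : Fin M → Fin n → ℤ) (c : Fin n → ℝ) (S : Finset (Fin M)) :
    Submodule ℝ (Fin n → ℝ) :=
  Submodule.span ℝ (insert c ((fun l => rv (a l)) '' (S : Set (Fin M))))

/-- general position of the anchor -/
def Gen (a : Fin M → Fin n → ℤ) (c X : Fin n → ℝ) : Prop :=
  ∀ S : Finset (Fin M), Sp a c S ≠ ⊤ → X ∉ Sp a c S

theorem rv_dot (h g : Fin n → ℤ) : rv h ⬝ᵥ rv g = ((h ⬝ᵥ g : ℤ) : ℝ) := by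
  simp [rv, dotProduct]

end Pool.Agent.Simplex.SD
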