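import Mathlib
import Pool.Agent.Lib.MP_4d246d_lc.SD.Defs

/-! Bases of tight rows and the coordinates of the rows in a basis (Cramer). -/

namespace Pool.Agent.Simplex.SD

open Matrix

variable {n M : ℕ}

/-- vectors with trivial orthogonal complement span -/
theorem span_top_of_orth (s : Set (Fin n → ℝ))
    (hs : ∀ q : Fin n → ℝ, (∀ v ∈ s, v ⬝ᵥ q = 0) → q = 0) : Submodule.span ℝ s = ⊤ := by
  by_contra hne
  have hlt : Submodule.span ℝ s < ⊤ := lt_top_iff_ne_top.mpr hne
  obtain ⟨φ, hφ, hle⟩ := Submodule.exists_le_ker_of_lt_top _ hlt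
  have hval : ∀ v : Fin n → ℝ, φ v = v ⬝ᵥ (fun i => φ (Pi.single i 1)) := by
    intro v
    conv_lhs => rw [← Finset.univ_sum_single v]
    rw [map_sum]
    simp only [dotProduct]
    refine Finset.sum_congr rfl fun i _ => ?_
    have : (Pi.single i (v i) : Fin n → ℝ) = v i • (Pi.single i 1) := by
      rw [← Pi.single_smul]
      simp
    rw [this, map_smul, smul_eq_mul]
  have h0 := hs (fun i => φ (Pi.single i 1)) (by
    intro v hv
    rw [← hval]
    exact hle (Submodule.subset_span hv))
  apply hφ
  ext i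
  simpa using congrFun h0 i

theorem rv_inj {h g : Fin n → ℤ} (hhg : rv h = rv g) : h = g := by
  funext k
  have := congrFun hhg k
  simpa [rv] using this

theorem det_cast (a : Fin M → Fin n → ℤ) (f : Fin n → Fin M) :
    (Matrix.of fun i => rv (a (f i))).det = (((Matrix.of fun i => a (f i)).det : ℤ) : ℝ) := by
  have : (Matrix.of fun i => rv (a (f i))) =
      (Matrix.of fun i => a (f i)).map (Int.castRingHom ℝ) := by
    ext i j
    simp [rv]
  rw [this, ← RingHom.mapMatrix_apply, ← RingHom.map_det]
  simp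

/-- a vertex has a basis of tight rows -/
theorem exists_basis (a : Fin M → Fin n → ℤ) (T : Set (Fin M))
    (hT : ∀ q : Fin n → ℝ, (∀ l ∈ T, rv (a l) ⬝ᵥ q = 0) → q = 0) :
    ∃ f : Fin n → Fin M, (∀ k, f k ∈ T) ∧ (Matrix.of fun i => a (f i)).det ≠ 0 := by
  classical
  set s : Set (Fin n → ℝ) := (fun l => rv (a l)) '' T with hs
  have hspan : Submodule.span ℝ s = ⊤ := span_top_of_orth s (by
    intro q hq
    exact hT q fun l hl => hq _ ⟨l, hl, rfl⟩)
  obtain ⟨b, hbs, hbspan, hbli⟩ := exists_linearIndependent ℝ s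
  rw [hspan] at hbspan
  set B : Module.Basis b ℝ (Fin n → ℝ) := Module.Basis.mk hbli (by
    rw [Subtype.range_coe, hbspan]) with hB
  have hfin : Fintype b := FiniteDimensional.fintypeBasisIndex B
  have hcard : Fintype.card b = n := by
    have := Module.finrank_eq_card_basis B
    rw [Module.finrank_fin_fun] at this
    exact this.symm
  let e : Fin n ≃ b := (Fintype.equivFinOfCardEq hcard).symm
  have hex : ∀ k, ∃ l ∈ T, rv (a l) = (e k : Fin n → ℝ) := by
    intro k
    obtain ⟨l, hl, hl2⟩ := hbs (e k).2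
    exact ⟨l, hl, hl2⟩
  choose f hf1 hf2 using hex
  refine ⟨f, hf1, ?_⟩
  have hli : LinearIndependent ℝ (fun k => rv (a (f k))) := by
    have : (fun k => rv (a (f k))) = (fun x : b => (x : Fin n → ℝ)) ∘ e := by
      funext k
      exact hf2 k
    rw [this]
    exact hbli.comp _ e.injective
  have hu : IsUnit (Matrix.of fun i => rv (a (f i))) :=
    Matrix.linearIndependent_rows_iff_isUnit.mp hli
  have hdet := (Matrix.isUnit_iff_isUnit_det _).mp hu
  rw [det_cast] at hdet
  intro h0
  rw [h0] at hdet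
  simp at hdet

theorem updateRow_eq (a : Fin M → Fin n → ℤ) (f : Fin n → Fin M) (k : Fin n) (i : Fin M) :
    (Matrix.of fun j => a (f j)).updateRow k (a i) =
      Matrix.of fun j => a (Function.update f k i j) := by
  ext j l
  by_cases h : j = k
  · subst h; simp
  · simp [Matrix.updateRow_ne h, Function.update_of_ne h]

/-- Cramer's rule for a row in a basis of rows, over the integers -/
theorem cramer_int (a : Fin M → Fin n → ℤ) (f : Fin n → Fin M) (i : Fin M) (j : Fin n) :
    ∑ k, (Matrix.of fun j => a (Function.update f k i j)).det * a (f k) j =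
      (Matrix.of fun j => a (f j)).det * a i j := by
  have h := Matrix.mulVec_cramer (Matrix.of fun j => a (f j))ᵀ (a i)
  have h2 := congrFun h j
  rw [Matrix.det_transpose] at h2
  simp only [Matrix.mulVec, dotProduct, Matrix.transpose_apply, Matrix.of_apply,
    Matrix.cramer_transpose_apply, updateRow_eq, Pi.smul_apply, smul_eq_mul] at h2
  rw [← h2]
  exact Finset.sum_congr rfl fun k _ => mul_comm _ _

theorem cramer_bound (a : Fin M → Fin n → ℤ) (D : ℤ) (hI : Minors a D) (f : Fin n → Fin M)
    (hf : (Matrix.of fun i => a (f i)).det ≠ 0) :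
    ∃ α : Fin M → Fin n → ℝ, (∀ i, ∑ k, α i k • rv (a (f k)) = rv (a i)) ∧
      ∀ i k, |α i k| ≤ (D : ℝ) := by
  set d : ℤ := (Matrix.of fun i => a (f i)).det with hd
  have hd1 : (1 : ℝ) ≤ |(d : ℝ)| := by
    have : (1 : ℤ) ≤ |d| := Int.one_le_abs hf
    exact_mod_cast this
  have hd0 : (d : ℝ) ≠ 0 := by exact_mod_cast hf
  refine ⟨fun i k => (((Matrix.of fun j => a (Function.update f k i j)).det : ℤ) : ℝ) / d,
    ?_, ?_⟩
  · intro i
    funext j
    have h := cramer_int a f i j
    have h' : (∑ k, (((Matrix.of fun j => a (Function.update f k i j)).det : ℤ) : ℝ) *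
        (a (f k) j : ℝ)) = (d : ℝ) * (a i j : ℝ) := by
      exact_mod_cast h
    simp only [Finset.sum_apply, Pi.smul_apply, smul_eq_mul, rv]
    rw [eq_comm, ← mul_right_inj' hd0, ← h', Finset.mul_sum]
    refine Finset.sum_congr rfl fun k _ => ?_
    field_simp
  · intro i k
    have h1 : |(((Matrix.of fun j => a (Function.update f k i j)).det : ℤ) : ℝ)| ≤ (D : ℝ) := by
      exact_mod_cast hI (Function.update f k i)
    rw [abs_div]
    calc |(((Matrix.of fun j => a (Function.update f k i j)).det : ℤ) : ℝ)| / |(d : ℝ)|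
        ≤ |(((Matrix.of fun j => a (Function.update f k i j)).det : ℤ) : ℝ)| / 1 := by
          exact div_le_div_of_nonneg_left (abs_nonneg _) one_pos hd1
      _ ≤ D := by simpa using h1

end Pool.Agent.Simplex.SD
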