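import Mathlib
import Pool.Agent.Lib.MP_4d246d_lc.SD.Cramer

/-! The integer direction of an edge is a column of the adjugate of a basis. -/

namespace Pool.Agent.Simplex.SD

open Matrix

variable {n M : ℕ}

theorem cofactor (a : Fin M → Fin n → ℤ) (D : ℤ) (hI : Minors a D)
    (hspan : ∀ q : Fin n → ℝ, (∀ l, rv (a l) ⬝ᵥ q = 0) → q = 0)
    (T : Set (Fin M)) (g : Fin n → ℝ) (hg : g ≠ 0) (hT : ∀ l ∈ T, rv (a l) ⬝ᵥ g = 0)
    (hone : ∀ q : Fin n → ℝ, (∀ l ∈ T, rv (a l) ⬝ᵥ q = 0) → ∃ t : ℝ, q = t • g) :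
    ∃ (h : Fin n → ℤ) (t : ℝ), 0 < t ∧ rv h = t • g ∧ ∀ l, |h ⬝ᵥ a l| ≤ D := by
  classical
  -- a row that does not vanish at `g`
  obtain ⟨i, hi⟩ : ∃ i, rv (a i) ⬝ᵥ g ≠ 0 := by
    by_contra hcon
    push Not at hcon
    exact hg (hspan g hcon)
  have hiT : i ∉ T := fun h => hi (hT i h)
  obtain ⟨f, hf, hdet⟩ := exists_basis a (insert i T) (by
    intro q hq
    obtain ⟨t, rfl⟩ := hone q fun l hl => hq l (Set.mem_insert_of_mem _ hl)
    have := hq i (Set.mem_insert _ _)
    rw [dotProduct_smul, smul_eq_mul] at this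
    rcases mul_eq_zero.mp this with h | h
    · simp [h]
    · exact absurd h hi)
  set B : Matrix (Fin n) (Fin n) ℤ := Matrix.of fun i => a (f i) with hB
  have hdetR : (Matrix.of fun i => rv (a (f i))).det ≠ 0 := by
    rw [det_cast]
    exact_mod_cast hdet
  -- some index of the basis is `i`
  obtain ⟨k0, hk0⟩ : ∃ k, f k = i := by
    by_contra hcon
    push Not at hcon
    have hmem : ∀ k, f k ∈ T := fun k => (hf k).resolve_left (hcon k)
    have : (Matrix.of fun i => rv (a (f i))) *ᵥ g = 0 := by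
      funext k
      exact hT _ (hmem k)
    exact hg (Matrix.eq_zero_of_mulVec_eq_zero hdetR this)
  have hother : ∀ k, k ≠ k0 → f k ∈ T := by
    intro k hk
    refine (hf k).resolve_left ?_
    intro h
    apply hdet
    apply Matrix.det_zero_of_row_eq hk
    funext j
    simp [hB, h, hk0]
  -- the column of the adjugate
  set h0 : Fin n → ℤ := fun j => B.adjugate j k0 with hh0
  have hdotl : ∀ l, h0 ⬝ᵥ a l = (Matrix.of fun j => a (Function.update f k0 l j)).det := by
    intro l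
    rw [← updateRow_eq, ← Matrix.cramer_transpose_apply, Matrix.cramer_eq_adjugate_mulVec,
      ← Matrix.adjugate_transpose]
    simp only [Matrix.mulVec, dotProduct, Matrix.transpose_apply, hh0]
    rfl
  have hdot : ∀ k, B k ⬝ᵥ h0 = if k = k0 then B.det else 0 := by
    intro k
    have := congrFun (congrFun (Matrix.mul_adjugate B) k) k0
    rw [Matrix.mul_apply] at this
    simp only [dotProduct, hh0]
    rw [this]
    simp [Matrix.smul_apply, Matrix.one_apply]
  have hreal : rv h0 = ((B.det : ℝ) / (rv (a i) ⬝ᵥ g)) • g := by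
    rw [← sub_eq_zero]
    apply Matrix.eq_zero_of_mulVec_eq_zero hdetR
    rw [Matrix.mulVec_sub, Matrix.mulVec_smul]
    funext k
    simp only [Pi.sub_apply, Pi.smul_apply, smul_eq_mul, Pi.zero_apply, Matrix.mulVec,
      Matrix.of_apply]
    have e1 : rv (a (f k)) ⬝ᵥ rv h0 = ((B k ⬝ᵥ h0 : ℤ) : ℝ) := rv_dot _ _
    rw [show ((fun j => rv (a (f k)) j) ⬝ᵥ rv h0) = rv (a (f k)) ⬝ᵥ rv h0 from rfl, e1, hdot k]
    by_cases hk : k = k0
    · subst hk
      rw [if_pos rfl]
      have : (fun j => rv (a (f k)) j) ⬝ᵥ g = rv (a i) ⬝ᵥ g := by rw [hk0]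
      rw [this]
      field_simp
      ring
    · rw [if_neg hk]
      have : (fun j => rv (a (f k)) j) ⬝ᵥ g = 0 := hT _ (hother k hk)
      rw [this]
      simp
  have hdetR' : (B.det : ℝ) ≠ 0 := by exact_mod_cast hdet
  set t0 : ℝ := (B.det : ℝ) / (rv (a i) ⬝ᵥ g) with ht0
  have ht0' : t0 ≠ 0 := div_ne_zero hdetR' hi
  have hbd : ∀ l, |h0 ⬝ᵥ a l| ≤ D := by
    intro l
    rw [hdotl]
    exact hI _
  rcases lt_or_gt_of_ne ht0' with hneg | hpos
  · refine ⟨-h0, -t0, by linarith, ?_, ?_⟩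
    · rw [neg_smul, ← hreal]
      funext k
      simp [rv]
    · intro l
      rw [neg_dotProduct, abs_neg]
      exact hbd l
  · exact ⟨h0, t0, hpos, hreal, hbd⟩

end Pool.Agent.Simplex.SD
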