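import Mathlib
import Pool.Agent.Lib.MP_4d246d_lc.SD.Defs

/-! Dyadic classes of the values of an objective on short integer vectors (Siegel's lemma). -/

namespace Pool.Agent.Simplex.SD

open Matrix

attribute [local instance] Matrix.seminormedAddCommGroup

/-- an integer solution of `n` equations in `n + 1` unknowns with entries bounded by `D` -/
theorem siegel_int {n : ℕ} (hn : 0 < n) (A : Matrix (Fin n) (Fin (n + 1)) ℤ) (D : ℕ) (hD : 1 ≤ D)
    (hA : ∀ i j, |A i j| ≤ D) :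
    ∃ t : Fin (n + 1) → ℤ, t ≠ 0 ∧ A *ᵥ t = 0 ∧
      ∀ j, (|t j| : ℝ) ≤ (((n + 1) * D : ℕ) : ℝ) ^ n := by
  obtain ⟨t, ht, hAt, hb⟩ := Int.Matrix.exists_ne_zero_int_vec_norm_le A
    (by simp) (by simpa using hn)
  refine ⟨t, ht, hAt, fun j => ?_⟩
  have hnorm : ‖A‖ ≤ (D : ℝ) := by
    rw [Matrix.norm_le_iff (by positivity)]
    intro i k
    rw [Int.norm_eq_abs, ← Int.cast_abs]
    exact_mod_cast hA i k
  have h1 : ‖t j‖ ≤ ‖t‖ := norm_le_pi_norm t j
  rw [Int.norm_eq_abs] at h1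
  have h2 : ‖t‖ ≤ (((n + 1) * D : ℕ) : ℝ) ^ n := by
    refine hb.trans ?_
    have he : ((Fintype.card (Fin n) : ℕ) : ℝ) /
        ((Fintype.card (Fin (n + 1)) : ℕ) - (Fintype.card (Fin n) : ℕ)) = (n : ℝ) := by
      simp
    rw [he, Real.rpow_natCast]
    apply pow_le_pow_left₀ (by positivity)
    simp only [Fintype.card_fin]
    push_cast
    have hD' : (1 : ℝ) ≤ D := by exact_mod_cast hD
    have : max 1 ‖A‖ ≤ (D : ℝ) := max_le hD' hnorm
    gcongr
  exact h1.trans h2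

theorem dyadic_card {n : ℕ} {ι : Type} [Fintype ι] (h : ι → Fin n → ℤ) (D : ℕ) (hD : 1 ≤ D)
    (hh : ∀ e k, |h e k| ≤ D) (c : Fin n → ℝ) (hpos : ∀ e, 0 < rv (h e) ⬝ᵥ c) :
    (Finset.univ.image fun e => Int.log 2 (rv (h e) ⬝ᵥ c)).card ≤
      n * ((n + 1) * Nat.size ((n + 1) * D) + 1) := by
  classical
  rcases Nat.eq_zero_or_pos n with rfl | hn
  · have : IsEmpty ι := ⟨fun e => by simpa using hpos e⟩
    simp
  set ρ : ℕ := (n + 1) * Nat.size ((n + 1) * D) + 1 with hρ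
  set S := Finset.univ.image fun e => Int.log 2 (rv (h e) ⬝ᵥ c) with hS
  by_contra hcon
  push Not at hcon
  have hρ0 : (0 : ℤ) < ρ := by rw [hρ]; positivity
  obtain ⟨y, hy, hF⟩ := Finset.exists_lt_card_fiber_of_mul_lt_card_of_maps_to
    (s := S) (t := Finset.Ico (0 : ℤ) ρ) (f := fun x => x % (ρ : ℤ)) (n := n)
    (fun x _ => Finset.mem_Ico.2 ⟨Int.emod_nonneg _ hρ0.ne', Int.emod_lt_of_pos _ hρ0⟩)
    (by rw [Int.card_Ico]; simpa [mul_comm] using hcon)
  set F := S.filter fun x => x % (ρ : ℤ) = y with hFdef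
  let ℓ := F.orderEmbOfCardLe (k := n + 1) hF
  have hℓ : ∀ j, ℓ j ∈ F := fun j => Finset.orderEmbOfCardLe_mem F hF j
  have hex : ∀ j, ∃ e, Int.log 2 (rv (h e) ⬝ᵥ c) = ℓ j := by
    intro j
    have := (Finset.mem_filter.1 (hℓ j)).1
    rw [hS, Finset.mem_image] at this
    obtain ⟨e, _, he⟩ := this
    exact ⟨e, he⟩
  choose e he using hex
  have hgap : ∀ i j, i < j → ℓ i + ρ ≤ ℓ j := by
    intro i j hij
    have hlt : ℓ i < ℓ j := ℓ.lt_iff_lt.2 hij
    have hi := (Finset.mem_filter.1 (hℓ i)).2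
    have hj := (Finset.mem_filter.1 (hℓ j)).2
    have hd : (ρ : ℤ) ∣ ℓ j - ℓ i := by
      apply Int.dvd_of_emod_eq_zero
      rw [← Int.emod_eq_emod_iff_emod_sub_eq_zero]
      exact hj.trans hi.symm
    have := Int.le_of_dvd (by linarith) hd
    linarith
  obtain ⟨t, ht, hAt, hb⟩ := siegel_int hn (Matrix.of fun k j => h (e j) k) D hD
    (fun i j => hh _ _)
  set u : Fin (n + 1) → ℝ := fun j => rv (h (e j)) ⬝ᵥ c with hu
  have hsum : ∑ j, (t j : ℝ) * u j = 0 := by
    have h1 : ∀ k, ∑ j, (h (e j) k : ℝ) * (t j : ℝ) = 0 := by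
      intro k
      have := congrFun hAt k
      simp only [Matrix.mulVec, dotProduct, Matrix.of_apply, Pi.zero_apply] at this
      exact_mod_cast this
    calc ∑ j, (t j : ℝ) * u j = ∑ j, ∑ k, (t j : ℝ) * ((h (e j) k : ℝ) * c k) := by
          simp only [hu, dotProduct, rv, Finset.mul_sum]
      _ = ∑ k, (∑ j, (h (e j) k : ℝ) * (t j : ℝ)) * c k := by
          rw [Finset.sum_comm]
          refine Finset.sum_congr rfl fun k _ => ?_
          rw [Finset.sum_mul]
          refine Finset.sum_congr rfl fun j _ => ?_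
          ring
      _ = 0 := by simp [h1]
  obtain ⟨J, hJ, hmax⟩ := Finset.exists_max_image (Finset.univ.filter fun j => t j ≠ 0) id
    (by
      obtain ⟨j, hj⟩ := Function.ne_iff.1 ht
      exact ⟨j, by simpa using hj⟩)
  have hJ0 : t J ≠ 0 := (Finset.mem_filter.1 hJ).2
  have hzero : ∀ j, J < j → t j = 0 := by
    intro j hj
    by_contra hne
    exact absurd (hmax j (by simpa using hne)) (not_le.2 hj)
  set K : ℝ := (((n + 1) * D : ℕ) : ℝ) ^ n with hK
  have hK0 : 0 ≤ K := by positivity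
  have hupos : ∀ j, 0 < u j := fun j => hpos _
  have hlow : (2 : ℝ) ^ ℓ J ≤ u J := by
    have := Int.zpow_log_le_self (b := 2) (by norm_num) (hupos J)
    simp only [hu] at this ⊢
    rw [he J] at this
    exact_mod_cast this
  have hup : ∀ j, j < J → u j ≤ (2 : ℝ) ^ (ℓ J - ρ + 1) := by
    intro j hj
    have := Int.lt_zpow_succ_log_self (b := 2) (by norm_num) (u j)
    simp only [hu] at this ⊢
    rw [he j] at this
    refine le_trans this.le ?_
    have h2 : ((2 : ℕ) : ℝ) = 2 := by norm_num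
    rw [h2]
    apply zpow_le_zpow_right₀ (by norm_num)
    have := hgap j J hj
    linarith
  have hmain : u J ≤ n * (K * (2 : ℝ) ^ (ℓ J - ρ + 1)) := by
    have h1 : (t J : ℝ) * u J = - ∑ j ∈ Finset.univ.erase J, (t j : ℝ) * u j := by
      rw [← Finset.add_sum_erase _ _ (Finset.mem_univ J)] at hsum
      linarith
    have h2 : (1 : ℝ) ≤ |(t J : ℝ)| := by
      have := Int.one_le_abs hJ0
      exact_mod_cast this
    have h3 : u J ≤ |(t J : ℝ) * u J| := by
      rw [abs_mul, abs_of_pos (hupos J)]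
      nlinarith [hupos J]
    refine h3.trans ?_
    rw [h1, abs_neg]
    refine (Finset.abs_sum_le_sum_abs _ _).trans ?_
    have h4 : ∀ j ∈ Finset.univ.erase J, |(t j : ℝ) * u j| ≤ K * (2 : ℝ) ^ (ℓ J - ρ + 1) := by
      intro j hj
      rcases lt_trichotomy j J with hlt | heq | hgt
      · rw [abs_mul, abs_of_pos (hupos j)]
        exact mul_le_mul (hb j) (hup j hlt) (hupos j).le hK0
      · exact absurd heq (Finset.ne_of_mem_erase hj)
      · rw [hzero j hgt]
        simp only [Int.cast_zero, zero_mul, abs_zero]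
        positivity
    refine (Finset.sum_le_sum h4).trans ?_
    rw [Finset.sum_const, Finset.card_erase_of_mem (Finset.mem_univ J)]
    simp
  have hfin : (2 : ℝ) ^ ((n + 1) * Nat.size ((n + 1) * D)) ≤ n * K := by
    have h1 : (2 : ℝ) ^ ℓ J ≤ n * (K * (2 : ℝ) ^ (ℓ J - ρ + 1)) := hlow.trans hmain
    have h2 : (2 : ℝ) ^ (ℓ J) = (2 : ℝ) ^ (ℓ J - ρ + 1) *
        (2 : ℝ) ^ ((n + 1) * Nat.size ((n + 1) * D)) := by
      rw [← zpow_natCast, ← zpow_add₀ (by norm_num)]
      congr 1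
      rw [hρ]
      push_cast
      ring
    have h3 : (0 : ℝ) < (2 : ℝ) ^ (ℓ J - ρ + 1) := by positivity
    rw [h2] at h1
    have h4 : (2 : ℝ) ^ (ℓ J - ρ + 1) * (2 : ℝ) ^ ((n + 1) * Nat.size ((n + 1) * D)) ≤
        (2 : ℝ) ^ (ℓ J - ρ + 1) * (n * K) := by
      calc _ ≤ _ := h1
        _ = _ := by ring
    exact le_of_mul_le_mul_left h4 h3
  have hN : (n + 1) * D < 2 ^ Nat.size ((n + 1) * D) := Nat.lt_size_self _
  have hfin' : 2 ^ ((n + 1) * Nat.size ((n + 1) * D)) ≤ n * ((n + 1) * D) ^ n := by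
    rw [hK] at hfin
    exact_mod_cast hfin
  have hlast : n * ((n + 1) * D) ^ n < 2 ^ ((n + 1) * Nat.size ((n + 1) * D)) := by
    calc n * ((n + 1) * D) ^ n ≤ ((n + 1) * D) * ((n + 1) * D) ^ n := by
          apply Nat.mul_le_mul_right
          nlinarith
      _ = ((n + 1) * D) ^ (n + 1) := by ring
      _ < (2 ^ Nat.size ((n + 1) * D)) ^ (n + 1) := Nat.pow_lt_pow_left hN (by omega)
      _ = 2 ^ ((n + 1) * Nat.size ((n + 1) * D)) := by rw [← pow_mul, mul_comm]
  omega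

end Pool.Agent.Simplex.SD
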