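import Mathlib
import Pool.Agent.Lib.MP_4d246d_lc.SD.Defs
import Pool.Agent.Lib.MP_4d246d_lc.SD.Cof
import Pool.Agent.Lib.MP_4d246d_lc.QP.Duality

/-!
# One pivot of the shadow path
-/

namespace Pool.Agent.Simplex.SD

open Matrix

variable {n M : ℕ}

/-- a direction which decreases all tight rows weakly is feasible for a short time -/
lemma short_step {a : Fin M → Fin n → ℤ} {b : Fin M → ℝ} {v z : Fin n → ℝ} (hv : v ∈ Pol a b)
    (hz : ∀ l, rv (a l) ⬝ᵥ v = b l → rv (a l) ⬝ᵥ z ≤ 0) :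
    ∃ ε : ℝ, 0 < ε ∧ v + ε • z ∈ Pol a b := by
  have h : ∀ l, ∃ ε : ℝ, 0 < ε ∧ ∀ δ : ℝ, 0 < δ → δ ≤ ε → rv (a l) ⬝ᵥ (v + δ • z) ≤ b l := by
    intro l
    by_cases hl : rv (a l) ⬝ᵥ v = b l
    · refine ⟨1, one_pos, fun δ hδ _ => ?_⟩
      rw [dotProduct_add, dotProduct_smul, smul_eq_mul, hl]
      have := mul_nonneg hδ.le (neg_nonneg.mpr (hz l hl))
      linarith
    · have hlt : rv (a l) ⬝ᵥ v < b l := lt_of_le_of_ne (hv l) hl
      refine ⟨(b l - rv (a l) ⬝ᵥ v) / (|rv (a l) ⬝ᵥ z| + 1), by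
        apply div_pos (by linarith); positivity, fun δ hδ hδ' => ?_⟩
      rw [le_div_iff₀ (by positivity)] at hδ'
      rw [dotProduct_add, dotProduct_smul, smul_eq_mul]
      have h1 : δ * (rv (a l) ⬝ᵥ z) ≤ δ * |rv (a l) ⬝ᵥ z| :=
        mul_le_mul_of_nonneg_left (le_abs_self _) hδ.le
      nlinarith
  choose ε hε hε' using h
  obtain ⟨δ, hδ, hδ'⟩ : ∃ δ : ℝ, 0 < δ ∧ ∀ l, δ ≤ ε l := by
    rcases isEmpty_or_nonempty (Fin M) with hM | hM
    · exact ⟨1, one_pos, fun l => hM.elim l⟩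
    · obtain ⟨l0, hl0⟩ := Finite.exists_min ε
      exact ⟨ε l0, hε l0, hl0⟩
  exact ⟨δ, hδ, fun l => hε' l δ hδ (hδ' l)⟩

/-- Farkas: objectives in the normal cone are nonnegative combinations of tight rows -/
theorem nc_rep {a : Fin M → Fin n → ℤ} {b : Fin M → ℝ} {v y : Fin n → ℝ} (hv : v ∈ Pol a b)
    (hy : y ∈ NC a b v) : ∃ μ : Fin M → ℝ, (∀ l, 0 ≤ μ l) ∧
      (∀ l, rv (a l) ⬝ᵥ v ≠ b l → μ l = 0) ∧ y = ∑ l, μ l • rv (a l) := by
  classical
  obtain ⟨u, hu, hu'⟩ := QP.farkas (J := {l : Fin M // rv (a l) ⬝ᵥ v = b l})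
    (fun l => rv (a l.1)) y (fun z hz => by
      obtain ⟨ε, hε, hP⟩ := short_step hv (z := z) (fun l hl => hz ⟨l, hl⟩)
      have h1 := hy _ hP
      rw [dotProduct_add, dotProduct_smul, smul_eq_mul] at h1
      have h2 : ε * (y ⬝ᵥ z) ≤ 0 := by linarith
      by_contra h3
      push Not at h3
      have h4 : 0 < ε * (y ⬝ᵥ z) := mul_pos hε h3
      linarith)
  refine ⟨fun l => if h : rv (a l) ⬝ᵥ v = b l then u ⟨l, h⟩ else 0, fun l => ?_, fun l hl => ?_, ?_⟩
  · dsimp only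
    split_ifs with h
    · exact hu _
    · exact le_rfl
  · dsimp only
    rw [dif_neg hl]
  · funext t
    rw [← hu' t, Finset.sum_apply]
    simp only [Pi.smul_apply, smul_eq_mul]
    rw [← Finset.sum_filter_add_sum_filter_not Finset.univ (fun l => rv (a l) ⬝ᵥ v = b l)
      (fun l => (if h : rv (a l) ⬝ᵥ v = b l then u ⟨l, h⟩ else 0) * rv (a l) t)]
    have h2 : ∑ l ∈ Finset.univ.filter (fun l => ¬ rv (a l) ⬝ᵥ v = b l),
        (if h : rv (a l) ⬝ᵥ v = b l then u ⟨l, h⟩ else 0) * rv (a l) t = 0 := by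
      apply Finset.sum_eq_zero
      intro l hl
      rw [dif_neg (Finset.mem_filter.mp hl).2, zero_mul]
    rw [h2, add_zero]
    rw [Finset.sum_subtype (p := fun l => rv (a l) ⬝ᵥ v = b l)
      (Finset.univ.filter fun l => rv (a l) ⬝ᵥ v = b l) (fun l => by simp)]
    apply Finset.sum_congr rfl
    intro l _
    rw [dif_pos l.2]

/-- nonnegative combinations of tight rows are in the normal cone -/
lemma nc_of_rep {a : Fin M → Fin n → ℤ} {b : Fin M → ℝ} {v y : Fin n → ℝ} (μ : Fin M → ℝ)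
    (h0 : ∀ l, 0 ≤ μ l) (h1 : ∀ l, rv (a l) ⬝ᵥ v ≠ b l → μ l = 0)
    (h2 : y = ∑ l, μ l • rv (a l)) : y ∈ NC a b v := by
  intro z hz
  rw [h2, sum_dotProduct, sum_dotProduct]
  apply Finset.sum_le_sum
  intro l _
  rw [smul_dotProduct, smul_dotProduct, smul_eq_mul, smul_eq_mul]
  by_cases hl : rv (a l) ⬝ᵥ v = b l
  · rw [hl]
    exact mul_le_mul_of_nonneg_left (hz l) (h0 l)
  · rw [h1 l hl, zero_mul, zero_mul]

/-- the support of a representation of a point of a generic line spans, together with the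
direction of the line, the whole space -/
lemma gen_orth {a : Fin M → Fin n → ℤ} {c X : Fin n → ℝ} (hX : Gen a c X) {τ : ℝ}
    {μ : Fin M → ℝ} (h : X + τ • c = ∑ l, μ l • rv (a l)) {w : Fin n → ℝ}
    (hw : ∀ l, μ l ≠ 0 → rv (a l) ⬝ᵥ w = 0) (hcw : c ⬝ᵥ w = 0) : w = 0 := by
  classical
  let S : Finset (Fin M) := Finset.univ.filter fun l => μ l ≠ 0
  have hS : Sp a c S = ⊤ := by
    by_contra hne
    apply hX S hne
    have e : X = (∑ l, μ l • rv (a l)) - τ • c := by rw [← h]; abel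
    rw [e]
    apply Submodule.sub_mem
    · apply Submodule.sum_mem
      intro l _
      by_cases hl : μ l = 0
      · rw [hl, zero_smul]; exact Submodule.zero_mem _
      · apply Submodule.smul_mem
        apply Submodule.subset_span
        right
        exact ⟨l, by simp [S, hl], rfl⟩
    · apply Submodule.smul_mem
      apply Submodule.subset_span
      left; rfl
  have hmem : w ∈ Sp a c S := by rw [hS]; trivial
  have hall : ∀ y ∈ Sp a c S, y ⬝ᵥ w = 0 := by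
    intro y hy
    refine Submodule.span_induction ?_ ?_ ?_ ?_ hy
    · rintro y (rfl | ⟨l, hl, rfl⟩)
      · exact hcw
      · exact hw l (by simpa [S] using hl)
    · exact zero_dotProduct _
    · intro x y _ _ hx hy
      rw [add_dotProduct, hx, hy, add_zero]
    · intro r x _ hx
      rw [smul_dotProduct, hx, smul_zero]
  exact dotProduct_self_eq_zero.mp (hall w hmem)

/-- On an edge crossed by a generic ray the objective is optimal exactly on the edge. -/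
theorem face_eq {a : Fin M → Fin n → ℤ} {b : Fin M → ℝ} {D : ℤ} {c X v v' : Fin n → ℝ}
    {h : Fin n → ℤ} {i : Fin M} {τ : ℝ} (hE : Edg a b D v v' h i) (hX : Gen a c X)
    (hc : 0 < rv h ⬝ᵥ c) (hp : X + τ • c ∈ NC a b v) (h0 : rv h ⬝ᵥ (X + τ • c) = 0) :
    ∀ z ∈ Pol a b, (X + τ • c) ⬝ᵥ z = (X + τ • c) ⬝ᵥ v → z ∈ segment ℝ v v' := by
  intro z hz hzv
  obtain ⟨t, ht, hv'⟩ := hE.len
  obtain ⟨μ, hμ0, hμ1, hμ2⟩ := nc_rep hE.vtx.1 hp
  have hle : ∀ l, rv (a l) ⬝ᵥ v = b l → rv (a l) ⬝ᵥ rv h ≤ 0 := by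
    intro l hl
    have h1 := hE.vtx'.1 l
    rw [hv', dotProduct_add, dotProduct_smul, smul_eq_mul, hl] at h1
    by_contra h2
    push Not at h2
    have := mul_pos ht h2
    linarith
  -- the rows of the support vanish on h
  have hsum : ∑ l, μ l * (rv (a l) ⬝ᵥ rv h) = 0 := by
    rw [hμ2, dotProduct_comm, sum_dotProduct] at h0
    simpa [smul_dotProduct] using h0
  have hzero : ∀ l, μ l * (rv (a l) ⬝ᵥ rv h) = 0 := by
    have h1 : ∀ l ∈ Finset.univ, μ l * (rv (a l) ⬝ᵥ rv h) ≤ 0 := by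
      intro l _
      by_cases hl : rv (a l) ⬝ᵥ v = b l
      · exact mul_nonpos_of_nonneg_of_nonpos (hμ0 l) (hle l hl)
      · rw [hμ1 l hl, zero_mul]
    intro l
    exact (Finset.sum_eq_zero_iff_of_nonpos h1).mp hsum l (Finset.mem_univ l)
  -- the rows of the support vanish on z - v
  have hsum' : ∑ l, μ l * (rv (a l) ⬝ᵥ (z - v)) = 0 := by
    have h1 : (X + τ • c) ⬝ᵥ (z - v) = 0 := by rw [dotProduct_sub, hzv, sub_self]
    rw [hμ2, sum_dotProduct] at h1
    simpa only [smul_dotProduct, smul_eq_mul] using h1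
  have hzero' : ∀ l, μ l * (rv (a l) ⬝ᵥ (z - v)) = 0 := by
    have h1 : ∀ l ∈ Finset.univ, μ l * (rv (a l) ⬝ᵥ (z - v)) ≤ 0 := by
      intro l _
      by_cases hl : rv (a l) ⬝ᵥ v = b l
      · apply mul_nonpos_of_nonneg_of_nonpos (hμ0 l)
        rw [dotProduct_sub, hl]
        have := hz l
        linarith
      · rw [hμ1 l hl, zero_mul]
    intro l
    exact (Finset.sum_eq_zero_iff_of_nonpos h1).mp hsum' l (Finset.mem_univ l)
  have hch : c ⬝ᵥ rv h ≠ 0 := by rw [dotProduct_comm]; exact hc.ne'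
  set r : ℝ := (c ⬝ᵥ (z - v)) / (c ⬝ᵥ rv h) with hr
  have hw : z - v - r • rv h = 0 := by
    apply gen_orth hX hμ2
    · intro l hl
      have h1 := (mul_eq_zero.mp (hzero l)).resolve_left hl
      have h2 := (mul_eq_zero.mp (hzero' l)).resolve_left hl
      rw [dotProduct_sub, dotProduct_smul, h1, h2, smul_zero, sub_zero]
    · rw [dotProduct_sub (u := c), dotProduct_smul, smul_eq_mul, hr, div_mul_cancel₀ _ hch, sub_self]
  have hzr : z = v + r • rv h := by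
    have : z = (z - v - r • rv h) + (v + r • rv h) := by abel
    rw [this, hw, zero_add]
  have hr0 : 0 ≤ r := by
    have h1 := hz i
    rw [hzr, dotProduct_add, dotProduct_smul, smul_eq_mul, hE.tight, rv_dot,
      dotProduct_comm] at h1
    by_contra h2
    push Not at h2
    have h3 : ((h ⬝ᵥ a i : ℤ) : ℝ) < 0 := by exact_mod_cast hE.neg
    have := mul_pos_of_neg_of_neg h2 h3
    linarith
  have hrt : r ≤ t := by
    by_contra h2
    push Not at h2
    have h3 : rv h = 0 := by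
      apply hE.vtx'.2
      intro l hl
      rw [hv', dotProduct_add, dotProduct_smul, smul_eq_mul] at hl
      have h4 := hz l
      rw [hzr, dotProduct_add, dotProduct_smul, smul_eq_mul] at h4
      have h5 := hE.vtx.1 l
      have h6 : (r - t) * (rv (a l) ⬝ᵥ rv h) ≤ 0 := by nlinarith
      have h7 : 0 ≤ t * (rv (a l) ⬝ᵥ rv h) := by linarith
      have h8 : 0 ≤ rv (a l) ⬝ᵥ rv h := by
        by_contra h9
        push Not at h9
        have := mul_neg_of_pos_of_neg ht h9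
        linarith
      by_contra h9
      have h10 : 0 < rv (a l) ⬝ᵥ rv h := lt_of_le_of_ne h8 (Ne.symm h9)
      have := mul_pos (sub_pos.mpr h2) h10
      linarith
    apply hch
    rw [h3, dotProduct_zero]
  rw [segment_eq_image']
  refine ⟨r / t, ⟨div_nonneg hr0 ht.le, (div_le_one ht).mpr hrt⟩, ?_⟩
  rw [hzr, hv']
  simp only [add_sub_cancel_left, smul_smul]
  rw [div_mul_cancel₀ _ ht.ne']

/-- the pivot -/
theorem pstep {a : Fin M → Fin n → ℤ} {b : Fin M → ℝ} {D : ℤ} (hI : Minors a D)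
    {c X v : Fin n → ℝ} {s : ℝ} (hv : Vtx a b v) (hX : Gen a c X)
    (hp : X + s • c ∈ NC a b v) :
    c ∈ NC a b v ∨
    (∃ z : Fin n → ℝ, 0 < c ⬝ᵥ z ∧ (∀ l, rv (a l) ⬝ᵥ z ≤ 0) ∧
      ∀ q : Fin n → ℝ, (∀ l, rv (a l) ⬝ᵥ v = b l → rv (a l) ⬝ᵥ z = 0 → rv (a l) ⬝ᵥ q = 0) →
        ∃ t : ℝ, q = t • z) ∨
    ∃ (v' : Fin n → ℝ) (h : Fin n → ℤ) (i : Fin M) (τ : ℝ), Edg a b D v v' h i ∧
      0 < rv h ⬝ᵥ c ∧ s ≤ τ ∧ X + τ • c ∈ NC a b v ∧ rv h ⬝ᵥ (X + τ • c) = 0 := by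
  classical
  set S : Set ℝ := {s' | s ≤ s' ∧ X + s' • c ∈ NC a b v} with hS
  have hsS : s ∈ S := ⟨le_rfl, hp⟩
  by_cases hbdd : BddAbove S
  swap
  · left
    intro z hz
    by_contra hcon
    push Not at hcon
    have hpos : 0 < c ⬝ᵥ (z - v) := by rw [dotProduct_sub]; linarith
    apply hbdd
    refine ⟨(X ⬝ᵥ (v - z)) / (c ⬝ᵥ (z - v)), ?_⟩
    rintro s' ⟨_, hs'⟩
    rw [le_div_iff₀ hpos]
    have h1 := hs' z hz
    rw [add_dotProduct, add_dotProduct, smul_dotProduct, smul_dotProduct, smul_eq_mul,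
      smul_eq_mul] at h1
    rw [dotProduct_sub, dotProduct_sub]
    nlinarith
  set τ := sSup S with hτ
  have hsτ : s ≤ τ := le_csSup hbdd hsS
  have hpτ : X + τ • c ∈ NC a b v := by
    intro z hz
    rw [add_dotProduct, add_dotProduct, smul_dotProduct, smul_dotProduct, smul_eq_mul,
      smul_eq_mul]
    by_cases hcz : c ⬝ᵥ z ≤ c ⬝ᵥ v
    · have h1 := hp z hz
      rw [add_dotProduct, add_dotProduct, smul_dotProduct, smul_dotProduct, smul_eq_mul,
        smul_eq_mul] at h1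
      have h2 := mul_nonneg (sub_nonneg.mpr hsτ) (sub_nonneg.mpr hcz)
      nlinarith
    · push Not at hcz
      have hpos : 0 < c ⬝ᵥ z - c ⬝ᵥ v := by linarith
      have hle : τ ≤ (X ⬝ᵥ v - X ⬝ᵥ z) / (c ⬝ᵥ z - c ⬝ᵥ v) := by
        apply csSup_le ⟨s, hsS⟩
        rintro s' ⟨_, hs'⟩
        rw [le_div_iff₀ hpos]
        have h1 := hs' z hz
        rw [add_dotProduct, add_dotProduct, smul_dotProduct, smul_dotProduct, smul_eq_mul,
          smul_eq_mul] at h1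
        nlinarith
      rw [le_div_iff₀ hpos] at hle
      nlinarith
  obtain ⟨μ, hμ0, hμ1, hμ2⟩ := nc_rep hv.1 hpτ
  -- the direction
  obtain ⟨g, hg1, hg2, hg3⟩ : ∃ g : Fin n → ℝ, (∀ l, rv (a l) ⬝ᵥ v = b l → rv (a l) ⬝ᵥ g ≤ 0) ∧
      (∀ l, μ l ≠ 0 → rv (a l) ⬝ᵥ g = 0) ∧ 0 < c ⬝ᵥ g := by
    by_contra hcon
    push Not at hcon
    obtain ⟨u, hu, hu'⟩ := QP.farkas
      (J := {l : Fin M // rv (a l) ⬝ᵥ v = b l} ⊕ {l : Fin M // μ l ≠ 0})
      (Sum.elim (fun l => rv (a l.1)) (fun l => - rv (a l.1))) c (fun z hz => by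
        apply hcon z
        · intro l hl
          exact hz (Sum.inl ⟨l, hl⟩)
        · intro l hl
          have hl' : rv (a l) ⬝ᵥ v = b l := by
            by_contra h1
            exact hl (hμ1 l h1)
          have h1 : rv (a l) ⬝ᵥ z ≤ 0 := hz (Sum.inl ⟨l, hl'⟩)
          have h2 : (- rv (a l)) ⬝ᵥ z ≤ 0 := hz (Sum.inr ⟨l, hl⟩)
          rw [neg_dotProduct] at h2
          linarith)
    -- coefficients of c
    let ν : Fin M → ℝ := fun l => (if h : rv (a l) ⬝ᵥ v = b l then u (Sum.inl ⟨l, h⟩) else 0) -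
      (if h : μ l ≠ 0 then u (Sum.inr ⟨l, h⟩) else 0)
    have hν : c = ∑ l, ν l • rv (a l) := by
      funext t
      rw [← hu' t, Finset.sum_apply, Fintype.sum_sum_type]
      simp only [Pi.smul_apply, smul_eq_mul, ν, sub_mul, Finset.sum_sub_distrib, Sum.elim_inl,
        Sum.elim_inr, Pi.neg_apply, mul_neg, Finset.sum_neg_distrib]
      rw [sub_eq_add_neg]
      congr 1
      · rw [← Finset.sum_filter_add_sum_filter_not Finset.univ (fun l => rv (a l) ⬝ᵥ v = b l)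
          (fun l => (if h : rv (a l) ⬝ᵥ v = b l then u (Sum.inl ⟨l, h⟩) else 0) * rv (a l) t)]
        have h2 : ∑ l ∈ Finset.univ.filter (fun l => ¬ rv (a l) ⬝ᵥ v = b l),
            (if h : rv (a l) ⬝ᵥ v = b l then u (Sum.inl ⟨l, h⟩) else 0) * rv (a l) t = 0 := by
          apply Finset.sum_eq_zero
          intro l hl
          rw [dif_neg (Finset.mem_filter.mp hl).2, zero_mul]
        rw [h2, add_zero]
        rw [Finset.sum_subtype (p := fun l => rv (a l) ⬝ᵥ v = b l)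
          (Finset.univ.filter fun l => rv (a l) ⬝ᵥ v = b l) (fun l => by simp)]
        apply Finset.sum_congr rfl
        intro l _
        rw [dif_pos l.2]
      · congr 1
        rw [← Finset.sum_filter_add_sum_filter_not Finset.univ (fun l => μ l ≠ 0)
          (fun l => (if h : μ l ≠ 0 then u (Sum.inr ⟨l, h⟩) else 0) * rv (a l) t)]
        have h2 : ∑ l ∈ Finset.univ.filter (fun l => ¬ μ l ≠ 0),
            (if h : μ l ≠ 0 then u (Sum.inr ⟨l, h⟩) else 0) * rv (a l) t = 0 := by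
          apply Finset.sum_eq_zero
          intro l hl
          rw [dif_neg (Finset.mem_filter.mp hl).2, zero_mul]
        rw [h2, add_zero]
        rw [Finset.sum_subtype (p := fun l => μ l ≠ 0)
          (Finset.univ.filter fun l => μ l ≠ 0) (fun l => by simp)]
        apply Finset.sum_congr rfl
        intro l _
        rw [dif_pos l.2]
    have hν0 : ∀ l, μ l = 0 → 0 ≤ ν l := by
      intro l hl
      have h1 : ¬ (μ l ≠ 0) := not_not.mpr hl
      simp only [ν]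
      rw [dif_neg h1, sub_zero]
      split_ifs
      · exact hu _
      · exact le_rfl
    have hν1 : ∀ l, rv (a l) ⬝ᵥ v ≠ b l → ν l = 0 := by
      intro l hl
      have h1 : ¬ (μ l ≠ 0) := not_not.mpr (hμ1 l hl)
      simp only [ν]
      rw [dif_neg hl, dif_neg h1, sub_zero]
    -- a small step keeps the coefficients nonnegative
    have hε : ∀ l, ∃ ε : ℝ, 0 < ε ∧ ∀ δ : ℝ, 0 < δ → δ ≤ ε → 0 ≤ μ l + δ * ν l := by
      intro l
      by_cases hl : μ l = 0
      · refine ⟨1, one_pos, fun δ hδ _ => ?_⟩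
        rw [hl, zero_add]
        exact mul_nonneg hδ.le (hν0 l hl)
      · have hpos : 0 < μ l := lt_of_le_of_ne (hμ0 l) (Ne.symm hl)
        refine ⟨μ l / (|ν l| + 1), by positivity, fun δ hδ hδ' => ?_⟩
        rw [le_div_iff₀ (by positivity)] at hδ'
        have h1 : δ * (-ν l) ≤ δ * |ν l| :=
          mul_le_mul_of_nonneg_left (neg_le_abs _) hδ.le
        nlinarith
    choose ε hε1 hε2 using hε
    obtain ⟨δ, hδ, hδ'⟩ : ∃ δ : ℝ, 0 < δ ∧ ∀ l, δ ≤ ε l := by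
      rcases isEmpty_or_nonempty (Fin M) with hM | hM
      · exact ⟨1, one_pos, fun l => hM.elim l⟩
      · obtain ⟨l0, hl0⟩ := Finite.exists_min ε
        exact ⟨ε l0, hε1 l0, hl0⟩
    have hmem : X + (τ + δ) • c ∈ NC a b v := by
      apply nc_of_rep (fun l => μ l + δ * ν l) (fun l => hε2 l δ hδ (hδ' l))
      · intro l hl
        rw [hμ1 l hl, hν1 l hl, mul_zero, add_zero]
      · rw [add_smul, ← add_assoc, hμ2]
        nth_rw 1 [hν]
        rw [Finset.smul_sum, ← Finset.sum_add_distrib]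
        apply Finset.sum_congr rfl
        intro l _
        rw [add_smul, mul_smul]
    have h1 : τ + δ ≤ τ := le_csSup hbdd ⟨by linarith, hmem⟩
    linarith
  have hg0 : g ≠ 0 := by
    rintro rfl
    rw [dotProduct_zero] at hg3
    exact lt_irrefl _ hg3
  -- the tight rows orthogonal to g determine g up to a factor
  have hone : ∀ q : Fin n → ℝ,
      (∀ l, rv (a l) ⬝ᵥ v = b l → rv (a l) ⬝ᵥ g = 0 → rv (a l) ⬝ᵥ q = 0) →
        ∃ t : ℝ, q = t • g := by
    intro q hq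
    refine ⟨(c ⬝ᵥ q) / (c ⬝ᵥ g), ?_⟩
    rw [← sub_eq_zero]
    apply gen_orth hX hμ2
    · intro l hl
      have hl' : rv (a l) ⬝ᵥ v = b l := by
        by_contra h1
        exact hl (hμ1 l h1)
      rw [dotProduct_sub, dotProduct_smul, hg2 l hl, hq l hl' (hg2 l hl), smul_zero, sub_zero]
    · rw [dotProduct_sub, dotProduct_smul, smul_eq_mul, div_mul_cancel₀ _ hg3.ne', sub_self]
  by_cases hall : ∀ l, rv (a l) ⬝ᵥ g ≤ 0
  · right; left
    exact ⟨g, hg3, hall, hone⟩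
  right; right
  push Not at hall
  -- the length of the step
  obtain ⟨l0, hl0, hmin⟩ : ∃ l0 : Fin M, 0 < rv (a l0) ⬝ᵥ g ∧ ∀ l, 0 < rv (a l) ⬝ᵥ g →
      (b l0 - rv (a l0) ⬝ᵥ v) / (rv (a l0) ⬝ᵥ g) ≤ (b l - rv (a l) ⬝ᵥ v) / (rv (a l) ⬝ᵥ g) := by
    have hne : (Finset.univ.filter fun l => 0 < rv (a l) ⬝ᵥ g).Nonempty := by
      obtain ⟨l, hl⟩ := hall
      exact ⟨l, Finset.mem_filter.mpr ⟨Finset.mem_univ _, hl⟩⟩
    obtain ⟨l0, hl0, hmin⟩ := Finset.exists_min_image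
      (Finset.univ.filter fun l => 0 < rv (a l) ⬝ᵥ g)
      (fun l => (b l - rv (a l) ⬝ᵥ v) / (rv (a l) ⬝ᵥ g)) hne
    exact ⟨l0, (Finset.mem_filter.mp hl0).2,
      fun l hl => hmin l (Finset.mem_filter.mpr ⟨Finset.mem_univ _, hl⟩)⟩
  set t0 : ℝ := (b l0 - rv (a l0) ⬝ᵥ v) / (rv (a l0) ⬝ᵥ g) with ht0
  have hl0' : rv (a l0) ⬝ᵥ v < b l0 := by
    refine lt_of_le_of_ne (hv.1 l0) (fun h1 => ?_)
    have := hg1 l0 h1
    linarith
  have ht0pos : 0 < t0 := div_pos (by linarith) hl0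
  have hP' : v + t0 • g ∈ Pol a b := by
    intro l
    rw [dotProduct_add, dotProduct_smul, smul_eq_mul]
    by_cases hl : 0 < rv (a l) ⬝ᵥ g
    · have h1 := hmin l hl
      rw [le_div_iff₀ hl] at h1
      linarith
    · push Not at hl
      have h1 := mul_nonneg ht0pos.le (neg_nonneg.mpr hl)
      have h2 := hv.1 l
      linarith
  have hV' : Vtx a b (v + t0 • g) := by
    refine ⟨hP', fun q hq => ?_⟩
    obtain ⟨t, ht⟩ := hone q (fun l hl hlg => by
      apply hq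
      rw [dotProduct_add, dotProduct_smul, hlg, smul_zero, add_zero, hl])
    have h1 := hq l0 (by
      rw [dotProduct_add, dotProduct_smul, smul_eq_mul, ht0, div_mul_cancel₀ _ hl0.ne']
      ring)
    rw [ht, dotProduct_smul, smul_eq_mul] at h1
    rcases mul_eq_zero.mp h1 with h2 | h2
    · rw [ht, h2, zero_smul]
    · exact absurd h2 hl0.ne'
  obtain ⟨h, th, hth, hh, hhD⟩ := cofactor a D hI
    (fun q hq => hv.2 q (fun l _ => hq l))
    {l | rv (a l) ⬝ᵥ v = b l ∧ rv (a l) ⬝ᵥ g = 0} g hg0 (fun l hl => hl.2)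
    (fun q hq => hone q (fun l h1 h2 => hq l ⟨h1, h2⟩))
  -- a tight row that is left
  obtain ⟨i, hi1, hi2⟩ : ∃ i, rv (a i) ⬝ᵥ v = b i ∧ rv (a i) ⬝ᵥ g < 0 := by
    by_contra hcon
    push Not at hcon
    apply hg0
    apply hv.2
    intro l hl
    exact le_antisymm (hg1 l hl) (hcon l hl)
  have hdot : ∀ l, ((h ⬝ᵥ a l : ℤ) : ℝ) = th * (rv (a l) ⬝ᵥ g) := by
    intro l
    rw [← rv_dot, hh, smul_dotProduct, smul_eq_mul, dotProduct_comm]
  refine ⟨v + t0 • g, h, i, τ, ?_, ?_, hsτ, hpτ, ?_⟩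
  · refine ⟨hv, hV', ⟨t0 / th, div_pos ht0pos hth, ?_⟩, hhD, hi1, ?_, ?_⟩
    · rw [hh, smul_smul, div_mul_cancel₀ _ hth.ne']
    · have h1 : ((h ⬝ᵥ a i : ℤ) : ℝ) < 0 := by
        rw [hdot]
        exact mul_neg_of_pos_of_neg hth hi2
      exact_mod_cast h1
    · intro q hq
      obtain ⟨t, ht⟩ := hone q (fun l h1 h2 => hq l h1 (by
        have h3 : ((h ⬝ᵥ a l : ℤ) : ℝ) = 0 := by rw [hdot, h2, mul_zero]
        exact_mod_cast h3))
      refine ⟨t / th, ?_⟩
      rw [hh, smul_smul, div_mul_cancel₀ _ hth.ne', ht]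
  · rw [hh, smul_dotProduct, smul_eq_mul, dotProduct_comm]
    exact mul_pos hth hg3
  · rw [hh, smul_dotProduct, hμ2, dotProduct_comm, sum_dotProduct]
    have h1 : ∑ l, (μ l • rv (a l)) ⬝ᵥ g = 0 := by
      apply Finset.sum_eq_zero
      intro l _
      rw [smul_dotProduct]
      by_cases hl : μ l = 0
      · rw [hl, zero_smul]
      · rw [hg2 l hl, smul_zero]
    rw [h1, smul_zero]

/-- Every improving step of a shadow path is a step along an edge with an integer direction. -/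
theorem shadow_edge {a : Fin M → Fin n → ℤ} {b : Fin M → ℝ} {D : ℤ} (hI : Minors a D)
    {c X v v' : Fin n → ℝ} {s : ℝ} (hv : Vtx a b v) (hv' : Vtx a b v') (hX : Gen a c X)
    (hp : X + s • c ∈ NC a b v) (hp' : X + s • c ∈ NC a b v') (hc : c ⬝ᵥ v < c ⬝ᵥ v') :
    ∃ (h : Fin n → ℤ) (i : Fin M), Edg a b D v v' h i ∧ 0 < rv h ⬝ᵥ c := by
  obtain ⟨μ, hμ0, hμ1, hμ2⟩ := nc_rep hv.1 hp
  set g : Fin n → ℝ := v' - v with hg
  have hcg : 0 < c ⬝ᵥ g := by rw [hg, dotProduct_sub]; linarith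
  have hg0 : g ≠ 0 := by
    intro h0
    rw [h0, dotProduct_zero] at hcg
    exact lt_irrefl _ hcg
  have hle : ∀ l, rv (a l) ⬝ᵥ v = b l → rv (a l) ⬝ᵥ g ≤ 0 := by
    intro l hl
    have h1 := hv'.1 l
    rw [hg, dotProduct_sub, hl]
    linarith
  have hpg : (X + s • c) ⬝ᵥ g = 0 := by
    rw [hg, dotProduct_sub]
    have h1 := hp v' hv'.1
    have h2 := hp' v hv.1
    linarith
  have hsum : ∑ l, μ l * (rv (a l) ⬝ᵥ g) = 0 := by
    rw [hμ2, sum_dotProduct] at hpg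
    simpa only [smul_dotProduct, smul_eq_mul] using hpg
  have hzero : ∀ l, μ l ≠ 0 → rv (a l) ⬝ᵥ g = 0 := by
    have h1 : ∀ l ∈ Finset.univ, μ l * (rv (a l) ⬝ᵥ g) ≤ 0 := by
      intro l _
      by_cases hl : rv (a l) ⬝ᵥ v = b l
      · exact mul_nonpos_of_nonneg_of_nonpos (hμ0 l) (hle l hl)
      · rw [hμ1 l hl, zero_mul]
    intro l hl
    exact (mul_eq_zero.mp ((Finset.sum_eq_zero_iff_of_nonpos h1).mp hsum l
      (Finset.mem_univ l))).resolve_left hl
  have hone : ∀ q : Fin n → ℝ,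
      (∀ l, rv (a l) ⬝ᵥ v = b l → rv (a l) ⬝ᵥ g = 0 → rv (a l) ⬝ᵥ q = 0) →
        ∃ t : ℝ, q = t • g := by
    intro q hq
    refine ⟨(c ⬝ᵥ q) / (c ⬝ᵥ g), ?_⟩
    rw [← sub_eq_zero]
    apply gen_orth hX hμ2
    · intro l hl
      have hl' : rv (a l) ⬝ᵥ v = b l := by
        by_contra h1
        exact hl (hμ1 l h1)
      rw [dotProduct_sub, dotProduct_smul, hzero l hl, hq l hl' (hzero l hl), smul_zero, sub_zero]
    · rw [dotProduct_sub, dotProduct_smul, smul_eq_mul, div_mul_cancel₀ _ hcg.ne', sub_self]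
  obtain ⟨h, th, hth, hh, hhD⟩ := cofactor a D hI
    (fun q hq => hv.2 q (fun l _ => hq l))
    {l | rv (a l) ⬝ᵥ v = b l ∧ rv (a l) ⬝ᵥ g = 0} g hg0 (fun l hl => hl.2)
    (fun q hq => hone q (fun l h1 h2 => hq l ⟨h1, h2⟩))
  obtain ⟨i, hi1, hi2⟩ : ∃ i, rv (a i) ⬝ᵥ v = b i ∧ rv (a i) ⬝ᵥ g < 0 := by
    by_contra hcon
    push Not at hcon
    apply hg0
    apply hv.2
    intro l hl
    exact le_antisymm (hle l hl) (hcon l hl)
  have hdot : ∀ l, ((h ⬝ᵥ a l : ℤ) : ℝ) = th * (rv (a l) ⬝ᵥ g) := by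
    intro l
    rw [← rv_dot, hh, smul_dotProduct, smul_eq_mul, dotProduct_comm]
  refine ⟨h, i, ⟨hv, hv', ⟨th⁻¹, inv_pos.mpr hth, ?_⟩, hhD, hi1, ?_, ?_⟩, ?_⟩
  · rw [hh, smul_smul, inv_mul_cancel₀ hth.ne', one_smul, hg]
    abel
  · have h1 : ((h ⬝ᵥ a i : ℤ) : ℝ) < 0 := by
      rw [hdot]
      exact mul_neg_of_pos_of_neg hth hi2
    exact_mod_cast h1
  · intro q hq
    obtain ⟨t, ht⟩ := hone q (fun l h1 h2 => hq l h1 (by
      have h3 : ((h ⬝ᵥ a l : ℤ) : ℝ) = 0 := by rw [hdot, h2, mul_zero]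
      exact_mod_cast h3))
    refine ⟨t / th, ?_⟩
    rw [hh, smul_smul, div_mul_cancel₀ _ hth.ne', ht]
  · rw [hh, smul_dotProduct, smul_eq_mul, dotProduct_comm]
    exact mul_pos hth hcg

end Pool.Agent.Simplex.SD
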