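import Mathlib
import Pool.Agent.Lib.MP_4d246d_lc.SD.Dyadic
import Pool.Agent.Lib.MP_4d246d_lc.SD.Cof

/-! Circuit imbalance. -/

namespace Pool.Agent.Simplex.SD

open Matrix

attribute [local instance] Matrix.seminormedAddCommGroup

variable {n M : ℕ}

/-- elementary vectors of the system of rows -/
def Elem (a : Fin M → Fin n → ℤ) (z : Fin n → ℝ) : Prop :=
  z ≠ 0 ∧ ∀ q : Fin n → ℝ, (∀ l, rv (a l) ⬝ᵥ z = 0 → rv (a l) ⬝ᵥ q = 0) → ∃ t : ℝ, q = t • z

/-- imbalance at most `K` -/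
def Imb (a : Fin M → Fin n → ℤ) (K : ℝ) : Prop :=
  ∀ z, Elem a z → ∀ l i, rv (a i) ⬝ᵥ z ≠ 0 → |rv (a l) ⬝ᵥ z| ≤ K * |rv (a i) ⬝ᵥ z|

theorem cramer_imb (a : Fin M → Fin n → ℤ) (K : ℝ) (hI : Imb a K) (f : Fin n → Fin M)
    (hf : (Matrix.of fun i => a (f i)).det ≠ 0) :
    ∃ α : Fin M → Fin n → ℝ, (∀ i, ∑ k, α i k • rv (a (f k)) = rv (a i)) ∧
      ∀ i k, |α i k| ≤ K := by
  obtain ⟨α, hα, -⟩ := cramer_bound a (∑ g : Fin n → Fin M, |(Matrix.of fun i => a (g i)).det|)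
    (fun g => Finset.single_le_sum (f := fun g : Fin n → Fin M => |(Matrix.of fun i => a (g i)).det|)
      (fun _ _ => abs_nonneg _) (Finset.mem_univ g)) f hf
  refine ⟨α, hα, fun i k => ?_⟩
  -- the dual basis vector
  set B : Matrix (Fin n) (Fin n) ℝ := Matrix.of fun i => rv (a (f i)) with hB
  have hdet : IsUnit B.det := by
    rw [hB, det_cast, isUnit_iff_ne_zero]
    exact_mod_cast hf
  have hsurj : Function.Surjective B.mulVec :=
    Matrix.mulVec_surjective_iff_isUnit.2 ((Matrix.isUnit_iff_isUnit_det _).2 hdet)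
  have hinj : Function.Injective B.mulVec :=
    Matrix.mulVec_injective_iff_isUnit.2 ((Matrix.isUnit_iff_isUnit_det _).2 hdet)
  obtain ⟨z, hz⟩ := hsurj (Pi.single k 1)
  have hrow : ∀ j, rv (a (f j)) ⬝ᵥ z = (Pi.single k 1 : Fin n → ℝ) j := fun j => congrFun hz j
  have hk : rv (a (f k)) ⬝ᵥ z = 1 := by rw [hrow]; simp
  have hE : Elem a z := by
    refine ⟨?_, fun q hq => ⟨rv (a (f k)) ⬝ᵥ q, ?_⟩⟩
    · rintro rfl
      rw [dotProduct_zero] at hk
      exact zero_ne_one hk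
    · apply hinj
      funext j
      show rv (a (f j)) ⬝ᵥ q = rv (a (f j)) ⬝ᵥ ((rv (a (f k)) ⬝ᵥ q) • z)
      rw [dotProduct_smul, smul_eq_mul]
      by_cases hj : j = k
      · subst hj; rw [hk, mul_one]
      · have h0 : rv (a (f j)) ⬝ᵥ z = 0 := by rw [hrow]; simp [hj]
        rw [h0, mul_zero]
        exact hq _ h0
  have h1 : rv (a i) ⬝ᵥ z = α i k := by
    rw [← hα i, sum_dotProduct]
    rw [Finset.sum_eq_single k]
    · rw [smul_dotProduct, hk, smul_eq_mul, mul_one]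
    · intro j _ hj
      rw [smul_dotProduct, hrow]
      simp [hj]
    · intro h; exact absurd (Finset.mem_univ k) h
  have h2 := hI z hE i (f k) (by rw [hk]; exact one_ne_zero)
  rw [h1, hk, abs_one, mul_one] at h2
  exact h2

theorem one_le_imb (hn : 0 < n) (a : Fin M → Fin n → ℤ) (K : ℕ) (hI : Imb a K)
    (f : Fin n → Fin M) (hf : (Matrix.of fun i => a (f i)).det ≠ 0) : 1 ≤ K := by
  rcases Nat.eq_zero_or_pos K with rfl | h
  · exfalso
    obtain ⟨α, h1, h2⟩ := cramer_imb a _ hI f hf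
    apply hf
    refine Matrix.det_eq_zero_of_row_eq_zero ⟨0, hn⟩ fun j => ?_
    have h3 := congrFun (h1 (f ⟨0, hn⟩)) j
    rw [Finset.sum_apply] at h3
    have h4 : ∀ k, (α (f ⟨0, hn⟩) k • rv (a (f k))) j = 0 := by
      intro k
      have := h2 (f ⟨0, hn⟩) k
      rw [Nat.cast_zero, abs_nonpos_iff] at this
      simp [this]
    simp only [h4, Finset.sum_const_zero, rv] at h3
    exact_mod_cast h3.symm
  · exact h

/-- small subdeterminants give a small imbalance -/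
theorem imb_of_minors (a : Fin M → Fin n → ℤ) (D : ℤ) (hI : Minors a D)
    (hspan : ∀ q : Fin n → ℝ, (∀ l, rv (a l) ⬝ᵥ q = 0) → q = 0) : Imb a D := by
  intro z hz l i hi
  obtain ⟨h, t, ht, hh, hb⟩ := cofactor a D hI hspan {l | rv (a l) ⬝ᵥ z = 0} z hz.1
    (fun l hl => hl) (fun q hq => hz.2 q hq)
  have key : ∀ l, |((h ⬝ᵥ a l : ℤ) : ℝ)| = t * |rv (a l) ⬝ᵥ z| := by
    intro l
    rw [← rv_dot, hh, smul_dotProduct, smul_eq_mul, abs_mul, abs_of_pos ht, dotProduct_comm]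
  have h1 : |((h ⬝ᵥ a l : ℤ) : ℝ)| ≤ (D : ℝ) := by exact_mod_cast hb l
  have h2 : (1 : ℝ) ≤ |((h ⬝ᵥ a i : ℤ) : ℝ)| := by
    have h3 : (h ⬝ᵥ a i : ℤ) ≠ 0 := by
      intro h0
      have := key i
      rw [h0, Int.cast_zero, abs_zero] at this
      rcases mul_eq_zero.1 this.symm with h4 | h4
      · exact ht.ne' h4
      · exact hi (abs_eq_zero.1 h4)
    have := Int.one_le_abs h3
    exact_mod_cast this
  have hD : (0 : ℝ) ≤ D := le_trans (abs_nonneg _) h1
  rw [key] at h1 h2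
  have h5 : t * |rv (a l) ⬝ᵥ z| ≤ t * ((D : ℝ) * |rv (a i) ⬝ᵥ z|) := by nlinarith
  exact le_of_mul_le_mul_left h5 ht

/-- dyadic classes, with weights -/
theorem dyadic_card_mu {n : ℕ} {ι : Type} [Fintype ι] (h : ι → Fin n → ℤ) (μ : ι → ℝ) (D : ℕ)
    (hD : 1 ≤ D) (hμ1 : ∀ e, 1 ≤ μ e) (hμD : ∀ e, μ e ≤ D)
    (hh : ∀ e k, |h e k| ≤ D) (c : Fin n → ℝ) (hpos : ∀ e, 0 < rv (h e) ⬝ᵥ c) :
    (Finset.univ.image fun e => Int.log 2 ((rv (h e) ⬝ᵥ c) / μ e)).card ≤
      n * ((n + 1) * Nat.size ((n + 1) * D) + 1) := by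
  classical
  rcases Nat.eq_zero_or_pos n with rfl | hn
  · have : IsEmpty ι := ⟨fun e => by simpa using hpos e⟩
    simp
  set ρ : ℕ := (n + 1) * Nat.size ((n + 1) * D) + 1 with hρ
  have hμ0 : ∀ e, 0 < μ e := fun e => lt_of_lt_of_le one_pos (hμ1 e)
  set S := Finset.univ.image fun e => Int.log 2 ((rv (h e) ⬝ᵥ c) / μ e) with hS
  by_contra hcon
  push Not at hcon
  have hρ0 : (0 : ℤ) < ρ := by rw [hρ]; positivity
  obtain ⟨y, hy, hF⟩ := Finset.exists_lt_card_fiber_of_mul_lt_card_of_maps_to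
    (s := S) (t := Finset.Ico (0 : ℤ) ρ) (f := fun x => x % (ρ : ℤ)) (n := n)
    (fun x _ => Finset.mem_Ico.2 ⟨Int.emod_nonneg _ hρ0.ne', Int.emod_lt_of_pos _ hρ0⟩)
    (by rw [Int.card_Ico]; simpa [mul_comm] using hcon)
  set F := S.filter fun x => x % (ρ : ℤ) = y with hFdef
  let ℓ := F.orderEmbOfCardLe (k := n + 1) hF
  have hℓ : ∀ j, ℓ j ∈ F := fun j => Finset.orderEmbOfCardLe_mem F hF j
  have hex : ∀ j, ∃ e, Int.log 2 ((rv (h e) ⬝ᵥ c) / μ e) = ℓ j := by
    intro j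
    have := (Finset.mem_filter.1 (hℓ j)).1
    rw [hS, Finset.mem_image] at this
    obtain ⟨e, _, he⟩ := this
    exact ⟨e, he⟩
  choose e he using hex
  have hgap : ∀ i j, i < j → ℓ i + ρ ≤ ℓ j := by
    intro i j hij
    have hlt : ℓ i < ℓ j := ℓ.lt_iff_lt.2 hij
    have hi := (Finset.mem_filter.1 (hℓ i)).2
    have hj := (Finset.mem_filter.1 (hℓ j)).2
    have hd : (ρ : ℤ) ∣ ℓ j - ℓ i := by
      apply Int.dvd_of_emod_eq_zero
      rw [← Int.emod_eq_emod_iff_emod_sub_eq_zero]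
      exact hj.trans hi.symm
    have := Int.le_of_dvd (by linarith) hd
    linarith
  obtain ⟨t, ht, hAt, hb⟩ := siegel_int hn (Matrix.of fun k j => h (e j) k) D hD
    (fun i j => hh _ _)
  set u : Fin (n + 1) → ℝ := fun j => (rv (h (e j)) ⬝ᵥ c) / μ (e j) with hu
  have hsum : ∑ j, ((t j : ℝ) * μ (e j)) * u j = 0 := by
    have h1 : ∀ k, ∑ j, (h (e j) k : ℝ) * (t j : ℝ) = 0 := by
      intro k
      have := congrFun hAt k
      simp only [Matrix.mulVec, dotProduct, Matrix.of_apply, Pi.zero_apply] at this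
      exact_mod_cast this
    calc ∑ j, ((t j : ℝ) * μ (e j)) * u j = ∑ j, (t j : ℝ) * (rv (h (e j)) ⬝ᵥ c) := by
          refine Finset.sum_congr rfl fun j _ => ?_
          simp only [hu]
          have := (hμ0 (e j)).ne'
          field_simp
      _ = ∑ j, ∑ k, (t j : ℝ) * ((h (e j) k : ℝ) * c k) := by
          simp only [dotProduct, rv, Finset.mul_sum]
      _ = ∑ k, (∑ j, (h (e j) k : ℝ) * (t j : ℝ)) * c k := by
          rw [Finset.sum_comm]
          refine Finset.sum_congr rfl fun k _ => ?_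
          rw [Finset.sum_mul]
          refine Finset.sum_congr rfl fun j _ => ?_
          ring
      _ = 0 := by simp [h1]
  obtain ⟨J, hJ, hmax⟩ := Finset.exists_max_image (Finset.univ.filter fun j => t j ≠ 0) id
    (by
      obtain ⟨j, hj⟩ := Function.ne_iff.1 ht
      exact ⟨j, by simpa using hj⟩)
  have hJ0 : t J ≠ 0 := (Finset.mem_filter.1 hJ).2
  have hzero : ∀ j, J < j → t j = 0 := by
    intro j hj
    by_contra hne
    exact absurd (hmax j (by simpa using hne)) (not_le.2 hj)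
  set K : ℝ := (((n + 1) * D : ℕ) : ℝ) ^ n with hK
  have hK0 : 0 ≤ K := by positivity
  have hupos : ∀ j, 0 < u j := fun j => div_pos (hpos _) (hμ0 _)
  have hlow : (2 : ℝ) ^ ℓ J ≤ u J := by
    have := Int.zpow_log_le_self (b := 2) (by norm_num) (hupos J)
    simp only [hu] at this ⊢
    rw [he J] at this
    exact_mod_cast this
  have hup : ∀ j, j < J → u j ≤ (2 : ℝ) ^ (ℓ J - ρ + 1) := by
    intro j hj
    have := Int.lt_zpow_succ_log_self (b := 2) (by norm_num) (u j)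
    simp only [hu] at this ⊢
    rw [he j] at this
    refine le_trans this.le ?_
    have h2 : ((2 : ℕ) : ℝ) = 2 := by norm_num
    rw [h2]
    apply zpow_le_zpow_right₀ (by norm_num)
    have := hgap j J hj
    linarith
  have hmain : u J ≤ n * ((K * D) * (2 : ℝ) ^ (ℓ J - ρ + 1)) := by
    have h1 : ((t J : ℝ) * μ (e J)) * u J =
        - ∑ j ∈ Finset.univ.erase J, ((t j : ℝ) * μ (e j)) * u j := by
      rw [← Finset.add_sum_erase _ _ (Finset.mem_univ J)] at hsum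
      linarith
    have h2 : (1 : ℝ) ≤ |(t J : ℝ)| := by
      have := Int.one_le_abs hJ0
      exact_mod_cast this
    have h2' : (1 : ℝ) ≤ |(t J : ℝ)| * μ (e J) := by nlinarith [hμ1 (e J)]
    have h3 : u J ≤ |((t J : ℝ) * μ (e J)) * u J| := by
      rw [abs_mul, abs_of_pos (hupos J), abs_mul, abs_of_pos (hμ0 _)]
      nlinarith [hupos J]
    refine h3.trans ?_
    rw [h1, abs_neg]
    refine (Finset.abs_sum_le_sum_abs _ _).trans ?_
    have h4 : ∀ j ∈ Finset.univ.erase J,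
        |((t j : ℝ) * μ (e j)) * u j| ≤ (K * D) * (2 : ℝ) ^ (ℓ J - ρ + 1) := by
      intro j hj
      rcases lt_trichotomy j J with hlt | heq | hgt
      · rw [abs_mul, abs_of_pos (hupos j), abs_mul, abs_of_pos (hμ0 _)]
        exact mul_le_mul (mul_le_mul (hb j) (hμD _) (hμ0 _).le hK0) (hup j hlt) (hupos j).le
          (by positivity)
      · exact absurd heq (Finset.ne_of_mem_erase hj)
      · rw [hzero j hgt]
        simp only [Int.cast_zero, zero_mul, abs_zero]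
        positivity
    refine (Finset.sum_le_sum h4).trans ?_
    rw [Finset.sum_const, Finset.card_erase_of_mem (Finset.mem_univ J)]
    simp
  have hfin : (2 : ℝ) ^ ((n + 1) * Nat.size ((n + 1) * D)) ≤ n * (K * D) := by
    have h1 : (2 : ℝ) ^ ℓ J ≤ n * ((K * D) * (2 : ℝ) ^ (ℓ J - ρ + 1)) := hlow.trans hmain
    have h2 : (2 : ℝ) ^ (ℓ J) = (2 : ℝ) ^ (ℓ J - ρ + 1) *
        (2 : ℝ) ^ ((n + 1) * Nat.size ((n + 1) * D)) := by
      rw [← zpow_natCast, ← zpow_add₀ (by norm_num)]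
      congr 1
      rw [hρ]
      push_cast
      ring
    have h3 : (0 : ℝ) < (2 : ℝ) ^ (ℓ J - ρ + 1) := by positivity
    rw [h2] at h1
    have h4 : (2 : ℝ) ^ (ℓ J - ρ + 1) * (2 : ℝ) ^ ((n + 1) * Nat.size ((n + 1) * D)) ≤
        (2 : ℝ) ^ (ℓ J - ρ + 1) * (n * (K * D)) := by
      calc _ ≤ _ := h1
        _ = _ := by ring
    exact le_of_mul_le_mul_left h4 h3
  have hN : (n + 1) * D < 2 ^ Nat.size ((n + 1) * D) := Nat.lt_size_self _
  have hfin' : 2 ^ ((n + 1) * Nat.size ((n + 1) * D)) ≤ n * (((n + 1) * D) ^ n * D) := by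
    rw [hK] at hfin
    exact_mod_cast hfin
  have hlast : n * (((n + 1) * D) ^ n * D) < 2 ^ ((n + 1) * Nat.size ((n + 1) * D)) := by
    calc n * (((n + 1) * D) ^ n * D) = (n * D) * ((n + 1) * D) ^ n := by ring
      _ ≤ ((n + 1) * D) * ((n + 1) * D) ^ n := by
          apply Nat.mul_le_mul_right
          nlinarith
      _ = ((n + 1) * D) ^ (n + 1) := by ring
      _ < (2 ^ Nat.size ((n + 1) * D)) ^ (n + 1) := Nat.pow_lt_pow_left hN (by omega)
      _ = 2 ^ ((n + 1) * Nat.size ((n + 1) * D)) := by rw [← pow_mul, mul_comm]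
  omega

end Pool.Agent.Simplex.SD
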