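import Mathlib

/-!
Linear programs `max c x`, `A x ≤ b`, `x ≥ 0` with real data, vertices and edges, integer matrices
with bounded subdeterminants, and the runs of the shadow vertex rule with a given auxiliary
objective.
-/

namespace Pool.Agent.Simplex.Subdet

open Matrix

/-- Data of a linear program: maximise `c x` subject to `A x ≤ b`, `x ≥ 0`. -/
structure LP (m n : ℕ) where
  /-- the constraint matrix -/
  A : Matrix (Fin m) (Fin n) ℝ
  /-- the right hand side -/
  b : Fin m → ℝ
  /-- the objective -/
  c : Fin n → ℝ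

/-- The matrix `A` has integer entries, and all its square submatrices have determinant at most
`D` in absolute value. -/
def SubdetLE {m n : ℕ} (A : Matrix (Fin m) (Fin n) ℝ) (D : ℕ) : Prop :=
  (∀ i j, ∃ z : ℤ, A i j = z) ∧
    ∀ (k : ℕ) (I : Fin k → Fin m) (J : Fin k → Fin n), |(A.submatrix I J).det| ≤ D

namespace LP

variable {m n : ℕ} (P : LP m n)

/-- The feasible polyhedron `{x | A x ≤ b, x ≥ 0}`. -/
def feasible : Set (Fin n → ℝ) := {x | (∀ i, ∑ j, P.A i j * x j ≤ P.b i) ∧ ∀ j, 0 ≤ x j}

/-- The objective function. -/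
def obj (x : Fin n → ℝ) : ℝ := ∑ j, P.c j * x j

/-- `x` is a vertex (extreme point) of the feasible polyhedron. -/
def Vertex (x : Fin n → ℝ) : Prop := x ∈ Set.extremePoints ℝ P.feasible

/-- `x` and `y` are the two ends of an edge of the feasible polyhedron. -/
def Edge (x y : Fin n → ℝ) : Prop :=
  P.Vertex x ∧ P.Vertex y ∧ x ≠ y ∧ IsExtreme ℝ P.feasible (segment ℝ x y)

/-- The edge from `x` to `y` strictly increases the objective: `x → y` is a simplex pivot. -/
def Improving (x y : Fin n → ℝ) : Prop := P.Edge x y ∧ P.obj x < P.obj y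

/-- `x` is an optimal feasible point. -/
def Optimal (x : Fin n → ℝ) : Prop := x ∈ P.feasible ∧ ∀ y ∈ P.feasible, P.obj y ≤ P.obj x

/-- The vertex `x` has an unbounded edge, with direction `z`, along which the objective
increases. -/
def Unbounded (x : Fin n → ℝ) : Prop :=
  P.Vertex x ∧ ∃ z : Fin n → ℝ, 0 < P.obj z ∧
    IsExtreme ℝ P.feasible {w | ∃ s : ℝ, 0 ≤ s ∧ w = x + s • z}

/-- The simplex method stops at the vertex `x`. -/
def Final (x : Fin n → ℝ) : Prop := P.Vertex x ∧ (P.Optimal x ∨ P.Unbounded x)

/-- The constraints are `normal l · x ≤ rhs l`: first the rows of `A`, then `-x j ≤ 0`. -/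
def normal : Fin m ⊕ Fin n → Fin n → ℝ
  | .inl i => fun j => P.A i j
  | .inr k => fun j => if j = k then -1 else 0

/-- Right hand sides of the constraints. -/
def rhs : Fin m ⊕ Fin n → ℝ
  | .inl i => P.b i
  | .inr _ => 0

/-- `r` lists `n` linearly independent constraints which are tight at `x`. -/
def TightBasis (x : Fin n → ℝ) (r : Fin n → Fin m ⊕ Fin n) : Prop :=
  LinearIndependent ℝ (fun k => P.normal (r k)) ∧
    ∀ k, ∑ j, P.normal (r k) j * x j = P.rhs (r k)

/-- `z` is an elementary vector (circuit) of the program: it is not zero, and it is determined up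
to a factor by the constraints whose left hand side does not change in the direction `z`. -/
def Elementary (z : Fin n → ℝ) : Prop :=
  z ≠ 0 ∧ ∀ q : Fin n → ℝ,
    (∀ l, ∑ j, P.normal l j * z j = 0 → ∑ j, P.normal l j * q j = 0) → ∃ t : ℝ, q = t • z

/-- The circuit imbalance is at most `K`: the non-zero changes of the left hand sides of the
constraints in the direction of an elementary vector differ at most by the factor `K`. -/
def ImbalanceLE (K : ℕ) : Prop :=
  ∀ z, P.Elementary z → ∀ l i, ∑ j, P.normal i j * z j ≠ 0 →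
    |∑ j, P.normal l j * z j| ≤ K * |∑ j, P.normal i j * z j|

/-- The auxiliary objective with coefficients `κ` over the constraints `r`. -/
def auxiliary (r : Fin n → Fin m ⊕ Fin n) (κ : Fin n → ℝ) : Fin n → ℝ :=
  fun j => ∑ k, κ k * P.normal (r k) j

/-- `x` maximises `w` plus `s` times the objective over the feasible polyhedron. -/
def Shadow (w : Fin n → ℝ) (s : ℝ) (x : Fin n → ℝ) : Prop :=
  x ∈ P.feasible ∧ ∀ y ∈ P.feasible,
    ∑ j, w j * y j + s * P.obj y ≤ ∑ j, w j * x j + s * P.obj x

/-- `p 0, …, p k` are visited by the simplex method with the shadow vertex rule for the auxiliary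
objective `w`: each step moves along an edge which strictly increases the objective, both ends of
the edge maximise `w + s c` for some `s ≥ 0`, and no step is made from a vertex where the method
stops. -/
structure ShadowRun (w : Fin n → ℝ) (k : ℕ) (p : ℕ → Fin n → ℝ) : Prop where
  /-- each step is a pivot -/
  pivot : ∀ i < k, P.Improving (p i) (p (i + 1))
  /-- each pivot follows the shadow -/
  shadow : ∀ i < k, ∃ s : ℝ, 0 ≤ s ∧ P.Shadow w s (p i) ∧ P.Shadow w s (p (i + 1))
  /-- the method has not stopped before -/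
  go : ∀ i < k, ¬ P.Final (p i)

end LP

/-- Each row of `A` has at most two non-zero entries, which are `1` or `-1`. -/
def TwoUnit {m n : ℕ} (A : Matrix (Fin m) (Fin n) ℝ) : Prop :=
  ∀ i, (∀ j, A i j = 0 ∨ A i j = 1 ∨ A i j = -1) ∧ {j | A i j ≠ 0}.ncard ≤ 2

/-- The bound `165 (m + n) n³ K² ((n + 1) size((n + 1) D) + 1)`, where `size` is the number of
binary digits. -/
def pivotBound (m n D K : ℕ) : ℕ :=
  165 * (m + n) * n ^ 3 * K ^ 2 * ((n + 1) * Nat.size ((n + 1) * D) + 1)

end Pool.Agent.Simplex.Subdet
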