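import Mathlib

/-!
# The measure lemma

`measure_walls` bounds the total volume of a family of walls `W e` in the unit cube; the proof
cuts every wall into thin slices and shears every slice into a small box; for a fixed slice,
the images are disjoint.  `exists_good` is the first moment method.
-/

namespace Pool.Agent.Simplex.SD

open MeasureTheory

theorem box_le {n : ℕ} (hn : 0 < n) : (1 + 4 / (n : ℝ)) ^ n ≤ 55 := by
  have hn' : (0 : ℝ) < n := by exact_mod_cast hn
  have h1 : (1 + 4 / (n : ℝ)) ^ n ≤ (Real.exp (4 / n)) ^ n := by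
    apply pow_le_pow_left₀ (by positivity)
    have := Real.add_one_le_exp (4 / (n : ℝ))
    linarith
  have h2 : (Real.exp (4 / (n : ℝ))) ^ n = Real.exp 4 := by
    rw [← Real.exp_nat_mul]
    congr 1
    field_simp
  have h3 : Real.exp 4 = Real.exp 1 ^ 4 := by
    rw [← Real.exp_nat_mul]; norm_num
  have h4 := Real.exp_one_lt_d9
  have h5 : Real.exp 1 ^ 4 ≤ 2.7182818286 ^ 4 :=
    pow_le_pow_left₀ (Real.exp_pos 1).le h4.le 4
  have h6 : (2.7182818286 : ℝ) ^ 4 ≤ 55 := by norm_num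
  linarith [h1, h2 ▸ h1, h3]

/-- one slice -/
theorem slice_bound {n : ℕ} (hn : 0 < n) {ι : Type} (S : Finset ι) (γ α : Fin n → ℝ)
    (s : ι → ((Fin n → ℝ) →ₗ[ℝ] ℝ)) (W : ι → Set (Fin n → ℝ)) (D η r : ℝ) (hD : 1 ≤ D)
    (hη : 0 < η) (hr : 0 < r)
    (hsγ : ∀ e ∈ S, s e γ = -1) (hsα : ∀ e ∈ S, 1 / r ≤ s e α)
    (hW : ∀ e ∈ S, MeasurableSet (W e)) (hbox : ∀ e ∈ S, W e ⊆ Set.Icc 0 1)
    (hγ : ∀ k, η * |γ k| ≤ 1 / n) (hα : ∀ k, |α k| ≤ D) (a : ℝ)
    (hWs : ∀ e ∈ S, ∀ κ ∈ W e, a ≤ s e κ ∧ s e κ ≤ a + η)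
    (hdisj : ∀ e ∈ S, ∀ e' ∈ S, e ≠ e' → ∀ κ ∈ W e, ∀ κ' ∈ W e', ∀ t t' : ℝ, 0 ≤ t →
      0 ≤ t' → κ + s e κ • γ + t • α ≠ κ' + s e' κ' • γ + t' • α) :
    ∑ e ∈ S, volume (W e) ≤ ENNReal.ofReal (55 * (n * D) * (η * r)) := by
  have hn' : (0 : ℝ) < n := by exact_mod_cast hn
  have hD0 : (0 : ℝ) < D := by linarith
  set T : ℝ := 1 / (n * D) with hT
  have hTpos : 0 < T := by positivity
  set w : Fin n → ℝ := γ + (T / η) • α with hw
  set f : ι → ((Fin n → ℝ) →ₗ[ℝ] (Fin n → ℝ)) := fun e => LinearMap.transvection (s e) w with hf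
  have hfa : ∀ e κ, f e κ = κ + s e κ • w := fun e κ => rfl
  have hdet : ∀ e ∈ S, LinearMap.det (f e) = (T / η) * s e α := by
    intro e he
    rw [hf]
    show LinearMap.det (LinearMap.transvection (s e) w) = _
    rw [LinearMap.transvection.det, hw, map_add, map_smul, hsγ e he, smul_eq_mul]
    ring
  have hc : 0 < T / (η * r) := by positivity
  have hdet' : ∀ e ∈ S, T / (η * r) ≤ |LinearMap.det (f e)| := by
    intro e he
    rw [hdet e he]
    have h1 := hsα e he
    have h2 : (T / η) * (1 / r) ≤ (T / η) * s e α :=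
      mul_le_mul_of_nonneg_left h1 (by positivity)
    have h3 : T / (η * r) = (T / η) * (1 / r) := by field_simp
    rw [h3]
    exact h2.trans (le_abs_self _)
  have hvol : ∀ e ∈ S, ENNReal.ofReal (T / (η * r)) * volume (W e) ≤ volume (f e '' W e) := by
    intro e he
    rw [Measure.addHaar_image_linearMap]
    exact mul_le_mul_left (ENNReal.ofReal_le_ofReal (hdet' e he)) _
  have hmeas : ∀ e ∈ S, MeasurableSet (f e '' W e) := by
    intro e he
    have hu : IsUnit (LinearMap.det (f e)) := by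
      rw [isUnit_iff_ne_zero]
      intro h0
      have := hdet' e he
      rw [h0, abs_zero] at this
      linarith
    have hcont : Continuous (f e) := LinearMap.continuous_of_finiteDimensional _
    have hinj : Function.Injective (f e) := by
      have := LinearEquiv.injective (LinearEquiv.ofIsUnitDet
        (v := Pi.basisFun ℝ (Fin n)) (v' := Pi.basisFun ℝ (Fin n)) (f := f e)
        (by rwa [← LinearMap.det_toLin (Pi.basisFun ℝ (Fin n)) (LinearMap.toMatrix _ _ (f e)),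
          Matrix.toLin_toMatrix]))
      exact this
    exact (hW e he).image_of_continuousOn_injOn hcont.continuousOn hinj.injOn
  have hpd : Set.PairwiseDisjoint (S : Set ι) (fun e => f e '' W e) := by
    intro e he e' he' hee'
    rw [Function.onFun, Set.disjoint_left]
    rintro x ⟨κ, hκ, rfl⟩ ⟨κ', hκ', h⟩
    have he : e ∈ S := he
    have he' : e' ∈ S := he'
    have h1 := hWs e he κ hκ
    have h2 := hWs e' he' κ' hκ'
    refine hdisj e he e' he' hee' κ hκ κ' hκ' ((s e κ - a) * (T / η)) ((s e' κ' - a) * (T / η))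
      (mul_nonneg (by linarith) (by positivity)) (mul_nonneg (by linarith) (by positivity)) ?_
    rw [hfa, hfa, hw] at h
    ext k
    have hk := congrFun h k
    simp only [Pi.add_apply, Pi.smul_apply, smul_eq_mul] at hk ⊢
    linarith
  have hsub : (⋃ e ∈ S, f e '' W e) ⊆
      Set.Icc (fun k => a * w k - 2 / n) (fun k => a * w k + (1 + 2 / n)) := by
    intro x hx
    simp only [Set.mem_iUnion] at hx
    obtain ⟨e, he, κ, hκ, rfl⟩ := hx
    have h1 := hWs e he κ hκ
    have hb := hbox e he hκ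
    rw [Set.mem_Icc, Pi.le_def, Pi.le_def] at hb
    have key : ∀ k, |(s e κ - a) * w k| ≤ 2 / n := by
      intro k
      have e1 : (s e κ - a) * w k = (s e κ - a) * γ k + ((s e κ - a) / η * T) * α k := by
        simp only [hw, Pi.add_apply, Pi.smul_apply, smul_eq_mul]
        field_simp
      rw [e1]
      refine (abs_add_le _ _).trans ?_
      rw [abs_mul, abs_mul]
      have e2 : |s e κ - a| ≤ η := by rw [abs_le]; constructor <;> linarith
      have e3 : |s e κ - a| * |γ k| ≤ 1 / n :=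
        (mul_le_mul_of_nonneg_right e2 (abs_nonneg _)).trans (hγ k)
      have e4 : |(s e κ - a) / η * T| ≤ T := by
        rw [abs_mul, abs_div, abs_of_pos hη, abs_of_pos hTpos]
        have : |s e κ - a| / η ≤ 1 := by rw [div_le_one hη]; exact e2
        nlinarith
      have e5 : |(s e κ - a) / η * T| * |α k| ≤ T * D :=
        mul_le_mul e4 (hα k) (abs_nonneg _) hTpos.le
      have e6 : T * D = 1 / n := by rw [hT]; field_simp
      have e7 : (2 : ℝ) / n = 1 / n + 1 / n := by ring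
      rw [e7]
      linarith
    rw [Set.mem_Icc, Pi.le_def, Pi.le_def]
    constructor
    · intro k
      have k1 := abs_le.1 (key k)
      have k2 := hb.1 k
      simp only [hfa, Pi.add_apply, Pi.smul_apply, smul_eq_mul, Pi.zero_apply] at k2 ⊢
      nlinarith [k1.1]
    · intro k
      have k1 := abs_le.1 (key k)
      have k2 := hb.2 k
      simp only [hfa, Pi.add_apply, Pi.smul_apply, smul_eq_mul, Pi.one_apply] at k2 ⊢
      nlinarith [k1.2]
  have hboxvol : volume (Set.Icc (fun k => a * w k - 2 / (n : ℝ))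
      (fun k => a * w k + (1 + 2 / (n : ℝ)))) ≤ ENNReal.ofReal 55 := by
    rw [Real.volume_Icc_pi]
    have : ∀ k : Fin n, ENNReal.ofReal (a * w k + (1 + 2 / (n : ℝ)) - (a * w k - 2 / (n : ℝ)))
        = ENNReal.ofReal (1 + 4 / (n : ℝ)) := by
      intro k; congr 1; ring
    rw [Finset.prod_congr rfl (fun k _ => this k), Finset.prod_const, Finset.card_univ,
      Fintype.card_fin, ← ENNReal.ofReal_pow (by positivity)]
    exact ENNReal.ofReal_le_ofReal (box_le hn)
  have hsum : ENNReal.ofReal (T / (η * r)) * ∑ e ∈ S, volume (W e) ≤ ENNReal.ofReal 55 := by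
    rw [Finset.mul_sum]
    calc ∑ e ∈ S, ENNReal.ofReal (T / (η * r)) * volume (W e)
        ≤ ∑ e ∈ S, volume (f e '' W e) := Finset.sum_le_sum hvol
      _ = volume (⋃ e ∈ S, f e '' W e) := (measure_biUnion_finset hpd hmeas).symm
      _ ≤ _ := (measure_mono hsub).trans hboxvol
  have hfin : ENNReal.ofReal (55 * (n * D) * (η * r)) =
      ENNReal.ofReal 55 / ENNReal.ofReal (T / (η * r)) := by
    rw [← ENNReal.ofReal_div_of_pos hc]
    congr 1
    rw [hT]
    field_simp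
  rw [hfin, ENNReal.le_div_iff_mul_le (Or.inl (by simpa using hc)) (Or.inl ENNReal.ofReal_ne_top),
    mul_comm]
  exact hsum

/-- one dyadic class and one row -/
theorem class_bound {n : ℕ} (hn : 0 < n) {ι : Type} (S : Finset ι) (γ α : Fin n → ℝ)
    (s : ι → ((Fin n → ℝ) →ₗ[ℝ] ℝ)) (u : ι → ℝ) (W : ι → Set (Fin n → ℝ)) (D r : ℝ) (hD : 1 ≤ D)
    (hr : 0 < r) (hu : ∀ e ∈ S, r / 2 ≤ u e ∧ u e ≤ r)
    (hsγ : ∀ e ∈ S, s e γ = -1) (hsα : ∀ e ∈ S, 1 / u e ≤ s e α)
    (hW : ∀ e ∈ S, MeasurableSet (W e)) (hbox : ∀ e ∈ S, W e ⊆ Set.Icc 0 1)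
    (hWs : ∀ e ∈ S, ∀ κ ∈ W e, 0 ≤ s e κ ∧ s e κ ≤ n * D / u e)
    (hα : ∀ k, |α k| ≤ D)
    (hdisj : ∀ e ∈ S, ∀ e' ∈ S, e ≠ e' → ∀ κ ∈ W e, ∀ κ' ∈ W e', ∀ t t' : ℝ, 0 ≤ t →
      0 ≤ t' → κ + s e κ • γ + t • α ≠ κ' + s e' κ' • γ + t' • α) :
    ∑ e ∈ S, volume (W e) ≤ ENNReal.ofReal (165 * n ^ 2 * D ^ 2) := by
  have hn' : (0 : ℝ) < n := by exact_mod_cast hn
  have hn1 : (1 : ℝ) ≤ n := by exact_mod_cast hn
  have hD0 : (0 : ℝ) < D := by linarith
  -- choose the width of the slices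
  obtain ⟨η, hη, hηγ, hηr⟩ : ∃ η : ℝ, 0 < η ∧ (∀ k, η * |γ k| ≤ 1 / n) ∧ η * r ≤ n * D := by
    set G : ℝ := ∑ k, |γ k| with hG
    have hG0 : 0 ≤ G := Finset.sum_nonneg fun k _ => abs_nonneg _
    refine ⟨1 / (n * (1 + G) + r), by positivity, ?_, ?_⟩
    · intro k
      have h1 : |γ k| ≤ G := Finset.single_le_sum (f := fun k => |γ k|)
        (fun k _ => abs_nonneg _) (Finset.mem_univ k)
      rw [one_div_mul_eq_div, div_le_div_iff₀ (by positivity) hn']
      nlinarith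
    · rw [one_div_mul_eq_div, div_le_iff₀ (by positivity)]
      have h2 : (1 : ℝ) ≤ n * D := by nlinarith
      have h3 : (0 : ℝ) ≤ n * (1 + G) := by positivity
      nlinarith [mul_nonneg h3 (by positivity : (0 : ℝ) ≤ n * D)]
  have hur : ∀ e ∈ S, 0 < u e := fun e he => by linarith [(hu e he).1]
  set J : ℕ := ⌊2 * n * D / (r * η)⌋₊ + 1 with hJ
  have hJle : (J : ℝ) ≤ 2 * n * D / (r * η) + 1 := by
    rw [hJ]; push_cast
    have := Nat.floor_le (show 0 ≤ 2 * n * D / (r * η) by positivity)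
    linarith
  -- slices
  set V : ι → ℕ → Set (Fin n → ℝ) := fun e j =>
    W e ∩ {κ | (j : ℝ) * η ≤ s e κ ∧ s e κ ≤ j * η + η} with hV
  have hcover : ∀ e ∈ S, W e ⊆ ⋃ j ∈ Finset.range J, V e j := by
    intro e he κ hκ
    have h1 := hWs e he κ hκ
    have h2 : s e κ ≤ 2 * n * D / r := by
      refine h1.2.trans ?_
      rw [div_le_div_iff₀ (hur e he) hr]
      have := (hu e he).1
      have hnD : (0 : ℝ) ≤ n * D := by positivity
      nlinarith
    simp only [Set.mem_iUnion, Finset.mem_range]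
    refine ⟨⌊s e κ / η⌋₊, ?_, hκ, ?_, ?_⟩
    · rw [hJ, Nat.lt_succ_iff]
      apply Nat.floor_le_floor
      rw [div_le_div_iff₀ hη (by positivity)]
      rw [le_div_iff₀ hr] at h2
      nlinarith
    · have := Nat.floor_le (show 0 ≤ s e κ / η from div_nonneg h1.1 hη.le)
      rwa [le_div_iff₀ hη] at this
    · have := (Nat.lt_floor_add_one (s e κ / η)).le
      rw [div_le_iff₀ hη] at this
      linarith
  have hslice : ∀ j ∈ Finset.range J, ∑ e ∈ S, volume (V e j) ≤
      ENNReal.ofReal (55 * (n * D) * (η * r)) := by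
    intro j _
    refine slice_bound hn S γ α s (fun e => V e j) D η r hD hη hr hsγ ?_ ?_ ?_ hηγ hα (j * η)
      ?_ ?_
    · intro e he
      refine le_trans ?_ (hsα e he)
      exact one_div_le_one_div_of_le (hur e he) (hu e he).2
    · intro e he
      refine (hW e he).inter ?_
      have hc : Continuous (s e) := LinearMap.continuous_of_finiteDimensional _
      exact (measurableSet_le measurable_const hc.measurable).inter
        (measurableSet_le hc.measurable measurable_const)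
    · intro e he
      exact Set.inter_subset_left.trans (hbox e he)
    · intro e _ κ hκ
      exact hκ.2
    · intro e he e' he' hne κ hκ κ' hκ'
      exact hdisj e he e' he' hne κ hκ.1 κ' hκ'.1
  calc ∑ e ∈ S, volume (W e)
      ≤ ∑ e ∈ S, ∑ j ∈ Finset.range J, volume (V e j) := by
        refine Finset.sum_le_sum fun e he => ?_
        exact (measure_mono (hcover e he)).trans (measure_biUnion_finset_le _ _)
    _ = ∑ j ∈ Finset.range J, ∑ e ∈ S, volume (V e j) := Finset.sum_comm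
    _ ≤ ∑ _j ∈ Finset.range J, ENNReal.ofReal (55 * (n * D) * (η * r)) :=
        Finset.sum_le_sum hslice
    _ = ENNReal.ofReal (J * (55 * (n * D) * (η * r))) := by
        rw [Finset.sum_const, Finset.card_range, nsmul_eq_mul,
          ENNReal.ofReal_mul (Nat.cast_nonneg J), ENNReal.ofReal_natCast]
    _ ≤ ENNReal.ofReal (165 * n ^ 2 * D ^ 2) := by
        apply ENNReal.ofReal_le_ofReal
        have h1 : (J : ℝ) * (η * r) ≤ 3 * (n * D) := by
          have : (J : ℝ) * (η * r) ≤ (2 * n * D / (r * η) + 1) * (η * r) :=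
            mul_le_mul_of_nonneg_right hJle (by positivity)
          have h2 : (2 * n * D / (r * η) + 1) * (η * r) = 2 * n * D + η * r := by
            field_simp
          rw [h2] at this
          linarith
        have hnD : (0 : ℝ) ≤ n * D := by positivity
        nlinarith

theorem measure_walls_enn {n M : ℕ} (hn : 0 < n) {ι : Type} [Fintype ι] (γ : Fin n → ℝ)
    (α : Fin M → Fin n → ℝ) (idx : ι → Fin M) (s : ι → ((Fin n → ℝ) →ₗ[ℝ] ℝ)) (u : ι → ℝ)
    (W : ι → Set (Fin n → ℝ)) (D : ℝ) (hD : 1 ≤ D) (hu : ∀ e, 0 < u e)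
    (hsγ : ∀ e, s e γ = -1) (hsα : ∀ e, 1 / u e ≤ s e (α (idx e)))
    (hW : ∀ e, MeasurableSet (W e)) (hbox : ∀ e, W e ⊆ Set.Icc 0 1)
    (hWs : ∀ e, ∀ κ ∈ W e, 0 ≤ s e κ ∧ s e κ ≤ n * D / u e)
    (hα : ∀ i k, |α i k| ≤ D)
    (hdisj : ∀ e e', e ≠ e' → idx e = idx e' → ∀ κ ∈ W e, ∀ κ' ∈ W e', ∀ t t' : ℝ, 0 ≤ t →
      0 ≤ t' → κ + s e κ • γ + t • α (idx e) ≠ κ' + s e' κ' • γ + t' • α (idx e))
    (q : ℕ) (hq : (Finset.univ.image fun e => Int.log 2 (u e)).card ≤ q) :
    ∑ e, volume (W e) ≤ ENNReal.ofReal (165 * M * n ^ 2 * D ^ 2 * q) := by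
  classical
  set K : Finset ℤ := Finset.univ.image fun e => Int.log 2 (u e) with hK
  have hmaps : ∀ e ∈ (Finset.univ : Finset ι),
      ((idx e, Int.log 2 (u e)) : Fin M × ℤ) ∈ (Finset.univ : Finset (Fin M)) ×ˢ K := by
    intro e _
    rw [Finset.mem_product]
    exact ⟨Finset.mem_univ _, Finset.mem_image_of_mem _ (Finset.mem_univ e)⟩
  rw [← Finset.sum_fiberwise_of_maps_to hmaps]
  have hcl : ∀ p ∈ (Finset.univ : Finset (Fin M)) ×ˢ K,
      ∑ e ∈ Finset.univ.filter (fun e => ((idx e, Int.log 2 (u e)) : Fin M × ℤ) = p),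
        volume (W e) ≤ ENNReal.ofReal (165 * n ^ 2 * D ^ 2) := by
    rintro ⟨i, k⟩ _
    refine class_bound hn _ γ (α i) s u W D ((2 : ℝ) ^ (k + 1)) hD (by positivity) ?_ ?_ ?_ ?_ ?_
      ?_ (hα i) ?_
    · intro e he
      have he' := (Finset.mem_filter.1 he).2
      have hk : Int.log 2 (u e) = k := congrArg Prod.snd he'
      have h1 := Int.zpow_log_le_self (b := 2) (by norm_num) (hu e)
      have h2 := Int.lt_zpow_succ_log_self (b := 2) (by norm_num) (u e)
      rw [hk] at h1 h2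
      have h3 : (2 : ℝ) ^ (k + 1) = 2 ^ k * 2 := zpow_add_one₀ (by norm_num) k
      constructor
      · rw [h3]; push_cast at h1; linarith
      · push_cast at h2; linarith
    · intro e _; exact hsγ e
    · intro e he
      have hi : idx e = i := congrArg Prod.fst (Finset.mem_filter.1 he).2
      rw [← hi]; exact hsα e
    · intro e _; exact hW e
    · intro e _; exact hbox e
    · intro e _; exact hWs e
    · intro e he e' he' hne κ hκ κ' hκ' t t' ht ht'
      have hi : idx e = i := congrArg Prod.fst (Finset.mem_filter.1 he).2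
      have hi' : idx e' = i := congrArg Prod.fst (Finset.mem_filter.1 he').2
      have := hdisj e e' hne (hi.trans hi'.symm) κ hκ κ' hκ' t t' ht ht'
      rwa [hi] at this
  refine (Finset.sum_le_sum hcl).trans ?_
  rw [Finset.sum_const, Finset.card_product, Finset.card_univ, Fintype.card_fin, nsmul_eq_mul,
    ← ENNReal.ofReal_natCast, ← ENNReal.ofReal_mul (Nat.cast_nonneg _)]
  apply ENNReal.ofReal_le_ofReal
  push_cast
  have h1 : ((K.card : ℕ) : ℝ) ≤ q := by exact_mod_cast hq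
  have h2 : (0 : ℝ) ≤ 165 * M * n ^ 2 * D ^ 2 := by positivity
  nlinarith [mul_le_mul_of_nonneg_left h1 h2]

theorem measure_walls {n M : ℕ} (hn : 0 < n) {ι : Type} [Fintype ι] (γ : Fin n → ℝ)
    (α : Fin M → Fin n → ℝ) (idx : ι → Fin M) (s : ι → ((Fin n → ℝ) →ₗ[ℝ] ℝ)) (u : ι → ℝ)
    (W : ι → Set (Fin n → ℝ)) (D : ℝ) (hD : 1 ≤ D) (hu : ∀ e, 0 < u e)
    (hsγ : ∀ e, s e γ = -1) (hsα : ∀ e, 1 / u e ≤ s e (α (idx e)))
    (hW : ∀ e, MeasurableSet (W e)) (hbox : ∀ e, W e ⊆ Set.Icc 0 1)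
    (hWs : ∀ e, ∀ κ ∈ W e, 0 ≤ s e κ ∧ s e κ ≤ n * D / u e)
    (hα : ∀ i k, |α i k| ≤ D)
    (hdisj : ∀ e e', e ≠ e' → idx e = idx e' → ∀ κ ∈ W e, ∀ κ' ∈ W e', ∀ t t' : ℝ, 0 ≤ t →
      0 ≤ t' → κ + s e κ • γ + t • α (idx e) ≠ κ' + s e' κ' • γ + t' • α (idx e))
    (q : ℕ) (hq : (Finset.univ.image fun e => Int.log 2 (u e)).card ≤ q) :
    ∑ e, (volume (W e)).toReal ≤ 165 * M * n ^ 2 * D ^ 2 * q := by
  have h := measure_walls_enn hn γ α idx s u W D hD hu hsγ hsα hW hbox hWs hα hdisj q hq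
  have hfin : ∀ e ∈ (Finset.univ : Finset ι), volume (W e) ≠ ⊤ := by
    intro e he h0
    have h1 : volume (W e) ≤ ∑ e, volume (W e) :=
      Finset.single_le_sum (f := fun e => volume (W e)) (fun _ _ => zero_le) he
    rw [h0] at h1
    exact absurd (h1.trans h) (by simp)
  rw [← ENNReal.toReal_sum hfin]
  have hD0 : (0 : ℝ) < D := by linarith
  exact ENNReal.toReal_le_of_le_ofReal (by positivity) h

/-- the first moment method: a good anchor outside a null set -/
theorem exists_good {n M : ℕ} (hn : 0 < n) {ι : Type} [Fintype ι] (γ : Fin n → ℝ)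
    (α : Fin M → Fin n → ℝ) (idx : ι → Fin M) (s : ι → ((Fin n → ℝ) →ₗ[ℝ] ℝ)) (u : ι → ℝ)
    (W : ι → Set (Fin n → ℝ)) (D : ℝ) (hD : 1 ≤ D) (hu : ∀ e, 0 < u e)
    (hsγ : ∀ e, s e γ = -1) (hsα : ∀ e, 1 / u e ≤ s e (α (idx e)))
    (hW : ∀ e, MeasurableSet (W e)) (hbox : ∀ e, W e ⊆ Set.Icc 0 1)
    (hWs : ∀ e, ∀ κ ∈ W e, 0 ≤ s e κ ∧ s e κ ≤ n * D / u e)
    (hα : ∀ i k, |α i k| ≤ D) (Z : Set (Fin n → ℝ)) (hZ : volume Z = 0)
    (hdisj : ∀ e e', e ≠ e' → idx e = idx e' → ∀ κ ∈ W e \ Z, ∀ κ' ∈ W e' \ Z, ∀ t t' : ℝ,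
      0 ≤ t → 0 ≤ t' → κ + s e κ • γ + t • α (idx e) ≠ κ' + s e' κ' • γ + t' • α (idx e))
    (q : ℕ) (hq : (Finset.univ.image fun e => Int.log 2 (u e)).card ≤ q) :
    ∃ κ ∈ Set.Icc (0 : Fin n → ℝ) 1 \ Z, ∀ F : Finset ι, (∀ e ∈ F, κ ∈ W e) →
      (F.card : ℝ) ≤ 165 * M * n ^ 2 * D ^ 2 * q := by
  classical
  set Z' := toMeasurable volume Z with hZ'
  have hZ'0 : volume Z' = 0 := by rw [hZ', measure_toMeasurable, hZ]
  have hsub : Z ⊆ Z' := subset_toMeasurable _ _
  have hvol : ∀ e, volume (W e \ Z') = volume (W e) := fun e => measure_sdiff_null hZ'0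
  have h := measure_walls_enn hn γ α idx s u (fun e => W e \ Z') D hD hu hsγ hsα
    (fun e => (hW e).diff (measurableSet_toMeasurable _ _))
    (fun e => Set.sdiff_subset.trans (hbox e)) (fun e κ hκ => hWs e κ hκ.1) hα
    (fun e e' hne hi κ hκ κ' hκ' => hdisj e e' hne hi κ ⟨hκ.1, fun hz => hκ.2 (hsub hz)⟩ κ'
      ⟨hκ'.1, fun hz => hκ'.2 (hsub hz)⟩) q hq
  simp only [hvol] at h
  set B : ℝ := 165 * M * n ^ 2 * D ^ 2 * q with hB
  have hD0 : (0 : ℝ) < D := by linarith
  have hB0 : 0 ≤ B := by positivity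
  -- the unit cube as a probability space
  set μ : Measure (Fin n → ℝ) := volume.restrict (Set.Icc 0 1) with hμ
  have hcube : volume (Set.Icc (0 : Fin n → ℝ) 1) = 1 := by
    rw [Real.volume_Icc_pi]; simp
  have : IsProbabilityMeasure μ := ⟨by rw [hμ, Measure.restrict_apply_univ, hcube]⟩
  set f : (Fin n → ℝ) → ENNReal := fun κ => ∑ e, (W e).indicator 1 κ with hf
  have hfm : Measurable f := by
    apply Finset.measurable_sum
    intro e _
    exact measurable_one.indicator (hW e)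
  have hint : ∫⁻ κ, f κ ∂μ ≤ ENNReal.ofReal B := by
    rw [hf, lintegral_finsetSum _ (fun e _ => measurable_one.indicator (hW e))]
    refine le_trans (Finset.sum_le_sum fun e _ => ?_) h
    rw [lintegral_indicator_one (hW e)]
    exact Measure.restrict_le_self _
  have hN : μ (Z ∪ (Set.Icc (0 : Fin n → ℝ) 1)ᶜ) = 0 := by
    refine measure_union_null ?_ ?_
    · exact le_antisymm ((Measure.restrict_le_self Z).trans hZ.le) (zero_le)
    · rw [hμ, Measure.restrict_apply measurableSet_Icc.compl]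
      simp
  obtain ⟨κ, hκN, hκ⟩ := exists_notMem_null_le_lintegral hfm.aemeasurable hN
  simp only [Set.mem_union, Set.mem_compl_iff, not_or, not_not] at hκN
  refine ⟨κ, ⟨hκN.2, hκN.1⟩, fun F hF => ?_⟩
  have h1 : (F.card : ENNReal) ≤ f κ := by
    have : (F.card : ENNReal) = ∑ e ∈ F, (W e).indicator 1 κ := by
      rw [Finset.sum_congr rfl (fun e he => Set.indicator_of_mem (hF e he) _)]
      simp
    rw [this]
    exact Finset.sum_le_sum_of_subset (Finset.subset_univ F)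
  have h2 : (F.card : ENNReal) ≤ ENNReal.ofReal B := h1.trans (hκ.trans hint)
  rw [← ENNReal.ofReal_natCast] at h2
  exact (ENNReal.ofReal_le_ofReal_iff hB0).1 h2

end Pool.Agent.Simplex.SD
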