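import Mathlib
import Pool.Agent.Lib.MP_4d246d_lc.SD.Step
import Pool.Agent.Lib.MP_4d246d_lc.SD.Cramer
import Pool.Agent.Lib.MP_4d246d_lc.SD.Meas
import Pool.Agent.Lib.MP_4d246d_lc.SD.Imb

/-! Assembly: shadow paths of a random anchor (algebraic form). -/

namespace Pool.Agent.Simplex.SD

open Matrix MeasureTheory

variable {n M : ℕ}

/-- a shadow path with anchor `X`: strictly improving, consecutive vertices optimal at `s i` -/
structure SPath (a : Fin M → Fin n → ℤ) (b : Fin M → ℝ) (c X : Fin n → ℝ) (k : ℕ)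
    (p : ℕ → Fin n → ℝ) (s : ℕ → ℝ) : Prop where
  vtx : ∀ i ≤ k, Vtx a b (p i)
  up : ∀ i < k, c ⬝ᵥ p i < c ⬝ᵥ p (i + 1)
  nonneg : ∀ i < k, 0 ≤ s i
  opt : ∀ i < k, X + s i • c ∈ NC a b (p i)
  opt' : ∀ i < k, X + s i • c ∈ NC a b (p (i + 1))

/-- unbounded improving edge -/
def Ray (a : Fin M → Fin n → ℤ) (b : Fin M → ℝ) (c v : Fin n → ℝ) : Prop :=
  ∃ z : Fin n → ℝ, 0 < c ⬝ᵥ z ∧ (∀ l, rv (a l) ⬝ᵥ z ≤ 0) ∧
      ∀ q : Fin n → ℝ, (∀ l, rv (a l) ⬝ᵥ v = b l → rv (a l) ⬝ᵥ z = 0 → rv (a l) ⬝ᵥ q = 0) →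
        ∃ t : ℝ, q = t • z

theorem vtx_finite (a : Fin M → Fin n → ℤ) (b : Fin M → ℝ) : {v | Vtx a b v}.Finite := by
  refine Set.Finite.of_finite_image (f := fun v => {l | rv (a l) ⬝ᵥ v = b l}) (Set.toFinite _) ?_
  intro v hv w hw h
  change Vtx a b v at hv
  change Vtx a b w at hw
  have : v - w = 0 := by
    apply hv.2
    intro l hl
    have hl' : rv (a l) ⬝ᵥ w = b l := by
      have : l ∈ {l | rv (a l) ⬝ᵥ v = b l} := hl
      rw [show {l | rv (a l) ⬝ᵥ v = b l} = {l | rv (a l) ⬝ᵥ w = b l} from h] at this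
      exact this
    rw [dotProduct_sub, hl, hl', sub_self]
  exact sub_eq_zero.1 this

theorem row_mem_NC {a : Fin M → Fin n → ℤ} {b : Fin M → ℝ} {v : Fin n → ℝ} {l : Fin M}
    (hl : rv (a l) ⬝ᵥ v = b l) : rv (a l) ∈ NC a b v := by
  intro z hz
  rw [hl]; exact hz l

theorem NC_add {a : Fin M → Fin n → ℤ} {b : Fin M → ℝ} {v x y : Fin n → ℝ}
    (hx : x ∈ NC a b v) (hy : y ∈ NC a b v) : x + y ∈ NC a b v := by
  intro z hz
  rw [add_dotProduct, add_dotProduct]
  exact add_le_add (hx z hz) (hy z hz)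

theorem NC_smul {a : Fin M → Fin n → ℤ} {b : Fin M → ℝ} {v x : Fin n → ℝ} {t : ℝ} (ht : 0 ≤ t)
    (hx : x ∈ NC a b v) : t • x ∈ NC a b v := by
  intro z hz
  rw [smul_dotProduct, smul_dotProduct]
  exact mul_le_mul_of_nonneg_left (hx z hz) ht

theorem NC_closed (a : Fin M → Fin n → ℤ) (b : Fin M → ℝ) (v : Fin n → ℝ) :
    IsClosed (NC a b v) := by
  have : NC a b v = ⋂ z ∈ Pol a b, {y | y ⬝ᵥ z ≤ y ⬝ᵥ v} := by
    ext y; simp [NC]
  rw [this]
  refine isClosed_biInter fun z _ => isClosed_le ?_ ?_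
  · exact Continuous.dotProduct continuous_id continuous_const
  · exact Continuous.dotProduct continuous_id continuous_const

/-- improving edges -/
def Imp (a : Fin M → Fin n → ℤ) (b : Fin M → ℝ) (D : ℤ) (c : Fin n → ℝ) : Type :=
  {e : (Fin n → ℝ) × (Fin n → ℝ) // ∃ (h : Fin n → ℤ) (i : Fin M),
    Edg a b D e.1 e.2 h i ∧ 0 < rv h ⬝ᵥ c}

noncomputable instance (a : Fin M → Fin n → ℤ) (b : Fin M → ℝ) (D : ℤ) (c : Fin n → ℝ) :
    Fintype (Imp a b D c) := by
  apply Set.Finite.fintype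
  refine ((vtx_finite a b).prod (vtx_finite a b)).subset ?_
  rintro ⟨v, w⟩ ⟨h, i, hE, -⟩
  exact ⟨hE.vtx, hE.vtx'⟩

namespace Imp

variable {a : Fin M → Fin n → ℤ} {b : Fin M → ℝ} {D : ℤ} {c : Fin n → ℝ}

noncomputable def h (e : Imp a b D c) : Fin n → ℤ := e.2.choose

noncomputable def i (e : Imp a b D c) : Fin M := e.2.choose_spec.choose

theorem edg (e : Imp a b D c) : Edg a b D e.1.1 e.1.2 e.h e.i := e.2.choose_spec.choose_spec.1

theorem pos (e : Imp a b D c) : 0 < rv e.h ⬝ᵥ c := e.2.choose_spec.choose_spec.2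

theorem exists_min (e : Imp a b D c) : ∃ l, e.h ⬝ᵥ a l ≠ 0 ∧
    ∀ l', e.h ⬝ᵥ a l' ≠ 0 → |e.h ⬝ᵥ a l| ≤ |e.h ⬝ᵥ a l'| := by
  classical
  obtain ⟨l, hl, hmin⟩ := Finset.exists_min_image
    (Finset.univ.filter fun l => e.h ⬝ᵥ a l ≠ 0) (fun l => |e.h ⬝ᵥ a l|)
    ⟨e.i, by simpa using e.edg.neg.ne⟩
  exact ⟨l, by simpa using hl, fun l' hl' => hmin l' (by simpa using hl')⟩

/-- the smallest non-zero change of a constraint -/
noncomputable def mu (e : Imp a b D c) : ℝ := ((|e.h ⬝ᵥ a e.exists_min.choose| : ℤ) : ℝ)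

theorem one_le_mu (e : Imp a b D c) : 1 ≤ e.mu := by
  have := Int.one_le_abs e.exists_min.choose_spec.1
  unfold mu
  exact_mod_cast this

theorem mu_pos (e : Imp a b D c) : 0 < e.mu := lt_of_lt_of_le one_pos e.one_le_mu

theorem mu_le (e : Imp a b D c) : e.mu ≤ D := by
  unfold mu
  exact_mod_cast e.edg.bd _

theorem mu_le_row (e : Imp a b D c) (l : Fin M) (hl : e.h ⬝ᵥ a l ≠ 0) :
    e.mu ≤ |((e.h ⬝ᵥ a l : ℤ) : ℝ)| := by
  unfold mu
  exact_mod_cast e.exists_min.choose_spec.2 l hl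

theorem elem (e : Imp a b D c) : Elem a (rv e.h) := by
  refine ⟨?_, fun q hq => e.edg.one q fun l _ h0 => hq l ?_⟩
  · intro h0
    have := e.pos
    rw [h0, zero_dotProduct] at this
    exact lt_irrefl _ this
  · rw [dotProduct_comm, rv_dot, h0, Int.cast_zero]

theorem row_le {K : ℝ} (hK : Imb a K) (e : Imp a b D c) (l : Fin M) :
    |((e.h ⬝ᵥ a l : ℤ) : ℝ)| ≤ K * e.mu := by
  have h1 := hK (rv e.h) e.elem l e.exists_min.choose (by
    rw [dotProduct_comm, rv_dot]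
    exact_mod_cast e.exists_min.choose_spec.1)
  rw [rv_dot, rv_dot, dotProduct_comm (a l) e.h,
    dotProduct_comm (a e.exists_min.choose) e.h] at h1
  unfold mu
  push_cast
  exact h1

end Imp

/-- the anchor map -/
noncomputable def XL (a : Fin M → Fin n → ℤ) (f : Fin n → Fin M) :
    (Fin n → ℝ) →ₗ[ℝ] (Fin n → ℝ) := Fintype.linearCombination ℝ (fun k => rv (a (f k)))

theorem XL_apply (a : Fin M → Fin n → ℤ) (f : Fin n → Fin M) (κ : Fin n → ℝ) :
    XL a f κ = ∑ k, κ k • rv (a (f k)) := Fintype.linearCombination_apply ..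

theorem dot_XL (a : Fin M → Fin n → ℤ) (f : Fin n → Fin M) (κ h : Fin n → ℝ) :
    h ⬝ᵥ XL a f κ = ∑ k, κ k * (h ⬝ᵥ rv (a (f k))) := by
  rw [XL_apply, dotProduct_sum]
  exact Finset.sum_congr rfl fun k _ => by rw [dotProduct_smul, smul_eq_mul]

theorem XL_surj (a : Fin M → Fin n → ℤ) (f : Fin n → Fin M)
    (hf : (Matrix.of fun i => a (f i)).det ≠ 0) : Function.Surjective (XL a f) := by
  have hdet : IsUnit (Matrix.of fun i => rv (a (f i))).det := by
    have : (Matrix.of fun i => rv (a (f i))).det = (((Matrix.of fun i => a (f i)).det : ℤ) : ℝ) := by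
      rw [Int.cast_det]; rfl
    rw [this]
    exact isUnit_iff_ne_zero.2 (by exact_mod_cast hf)
  have hs := Matrix.vecMul_surjective_iff_isUnit.2 ((Matrix.isUnit_iff_isUnit_det _).2 hdet)
  intro y
  obtain ⟨x, hx⟩ := hs y
  refine ⟨x, ?_⟩
  rw [XL_apply, ← hx]
  ext j
  simp [Matrix.vecMul, dotProduct, Finset.sum_apply, rv]

/-- crossing time -/
noncomputable def sfun (a : Fin M → Fin n → ℤ) (f : Fin n → Fin M) (h : Fin n → ℤ)
    (c : Fin n → ℝ) : (Fin n → ℝ) →ₗ[ℝ] ℝ where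
  toFun κ := -(rv h ⬝ᵥ XL a f κ) / (rv h ⬝ᵥ c)
  map_add' x y := by rw [map_add, dotProduct_add]; ring
  map_smul' t x := by rw [map_smul, dotProduct_smul]; simp only [smul_eq_mul, RingHom.id_apply]; ring

theorem sfun_apply (a : Fin M → Fin n → ℤ) (f : Fin n → Fin M) (h : Fin n → ℤ)
    (c κ : Fin n → ℝ) : sfun a f h c κ = -(rv h ⬝ᵥ XL a f κ) / (rv h ⬝ᵥ c) := rfl

theorem sfun_zero {a : Fin M → Fin n → ℤ} {f : Fin n → Fin M} {h : Fin n → ℤ}
    {c κ : Fin n → ℝ} (hc : 0 < rv h ⬝ᵥ c) : rv h ⬝ᵥ (XL a f κ + sfun a f h c κ • c) = 0 := by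
  rw [dotProduct_add, dotProduct_smul, sfun_apply, smul_eq_mul, div_mul_cancel₀ _ hc.ne']
  ring

/-- the crossing time is determined by the two ends -/
theorem sfun_eq {a : Fin M → Fin n → ℤ} {b : Fin M → ℝ} {D : ℤ} {f : Fin n → Fin M}
    {h : Fin n → ℤ} {i : Fin M} {c κ v v' : Fin n → ℝ} {s : ℝ} (hE : Edg a b D v v' h i)
    (hc : 0 < rv h ⬝ᵥ c) (hp : XL a f κ + s • c ∈ NC a b v) (hp' : XL a f κ + s • c ∈ NC a b v') :
    sfun a f h c κ = s := by
  obtain ⟨t, ht, hv'⟩ := hE.len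
  have h1 := hp v' hE.vtx'.1
  have h2 := hp' v hE.vtx.1
  have h3 : rv h ⬝ᵥ (XL a f κ + s • c) = 0 := by
    have : (XL a f κ + s • c) ⬝ᵥ v' = (XL a f κ + s • c) ⬝ᵥ v := le_antisymm h1 h2
    rw [hv', dotProduct_add, dotProduct_smul, smul_eq_mul] at this
    have h4 : t * ((XL a f κ + s • c) ⬝ᵥ rv h) = 0 := by linarith
    rw [dotProduct_comm]
    exact (mul_eq_zero.1 h4).resolve_left ht.ne'
  rw [dotProduct_add, dotProduct_smul, smul_eq_mul] at h3
  rw [sfun_apply, div_eq_iff hc.ne']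
  linarith

/-- walls -/
def W (a : Fin M → Fin n → ℤ) (b : Fin M → ℝ) (D : ℤ) (c : Fin n → ℝ) (f : Fin n → Fin M)
    (e : Imp a b D c) : Set (Fin n → ℝ) :=
  {κ | κ ∈ Set.Icc 0 1 ∧ 0 ≤ sfun a f e.h c κ ∧
    XL a f κ + sfun a f e.h c κ • c ∈ NC a b e.1.1}

theorem W_closed (a : Fin M → Fin n → ℤ) (b : Fin M → ℝ) (D : ℤ) (c : Fin n → ℝ)
    (f : Fin n → Fin M) (e : Imp a b D c) : IsClosed (W a b D c f e) := by
  have c1 : Continuous (sfun a f e.h c) := LinearMap.continuous_of_finiteDimensional _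
  have c2 : Continuous (XL a f) := LinearMap.continuous_of_finiteDimensional _
  refine isClosed_Icc.inter ((isClosed_le continuous_const c1).inter ?_)
  exact (NC_closed a b e.1.1).preimage (c2.add (c1.smul continuous_const))

/-- bad anchors -/
def Zs (a : Fin M → Fin n → ℤ) (c : Fin n → ℝ) (f : Fin n → Fin M) : Set (Fin n → ℝ) :=
  {κ | ¬ Gen a c (XL a f κ)}

theorem Zs_eq (a : Fin M → Fin n → ℤ) (c : Fin n → ℝ) (f : Fin n → Fin M) :
    Zs a c f = ⋃ S : {S : Finset (Fin M) // Sp a c S ≠ ⊤}, ((Sp a c S.1).comap (XL a f) : Set _) := by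
  ext κ
  simp [Zs, Gen]

theorem Zs_meas (a : Fin M → Fin n → ℤ) (c : Fin n → ℝ) (f : Fin n → Fin M) :
    MeasurableSet (Zs a c f) := by
  rw [Zs_eq]
  exact MeasurableSet.iUnion fun S => (Submodule.closed_of_finiteDimensional _).measurableSet

theorem Zs_null (a : Fin M → Fin n → ℤ) (c : Fin n → ℝ) (f : Fin n → Fin M)
    (hf : (Matrix.of fun i => a (f i)).det ≠ 0) : volume (Zs a c f) = 0 := by
  rw [Zs_eq]
  refine measure_iUnion_null fun S => Measure.addHaar_submodule _ _ ?_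
  intro h
  apply S.2
  rw [eq_top_iff]
  intro y _
  obtain ⟨x, rfl⟩ := XL_surj a f hf y
  have : x ∈ (Sp a c S.1).comap (XL a f) := by rw [h]; trivial
  exact this

theorem seg_tight {a : Fin M → Fin n → ℤ} {b : Fin M → ℝ} {D : ℤ} {v v' x : Fin n → ℝ}
    {h : Fin n → ℤ} {i : Fin M} (hE : Edg a b D v v' h i) (hx : x ∈ segment ℝ v v')
    (ht : rv (a i) ⬝ᵥ x = b i) : x = v := by
  obtain ⟨t, ht0, hv'⟩ := hE.len
  rw [segment_eq_image'] at hx
  obtain ⟨θ, ⟨h0, h1⟩, rfl⟩ := hx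
  have hsub : v' - v = t • rv h := by rw [hv']; abel
  simp only [hsub] at ht ⊢
  rw [dotProduct_add, hE.tight, dotProduct_smul, dotProduct_smul, rv_dot, smul_eq_mul,
    smul_eq_mul] at ht
  have hneg : ((a i ⬝ᵥ h : ℤ) : ℝ) < 0 := by
    have := hE.neg
    rw [dotProduct_comm] at this
    exact_mod_cast this
  have h2 : θ * (t * ((a i ⬝ᵥ h : ℤ) : ℝ)) = 0 := by linarith
  rcases mul_eq_zero.1 h2 with h3 | h3
  · rw [h3]; simp
  · exfalso
    rcases mul_eq_zero.1 h3 with h4 | h4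
    · exact ht0.ne' h4
    · exact hneg.ne h4

theorem mem_NC_end {a : Fin M → Fin n → ℤ} {b : Fin M → ℝ} {D : ℤ} {v v' y : Fin n → ℝ}
    {h : Fin n → ℤ} {i : Fin M} (hE : Edg a b D v v' h i) (hy : y ∈ NC a b v)
    (h0 : rv h ⬝ᵥ y = 0) : y ⬝ᵥ v' = y ⬝ᵥ v ∧ y ∈ NC a b v' := by
  obtain ⟨t, ht0, hv'⟩ := hE.len
  have : y ⬝ᵥ v' = y ⬝ᵥ v := by
    rw [hv', dotProduct_add, dotProduct_smul, dotProduct_comm y (rv h), h0, smul_zero, add_zero]
  refine ⟨this, fun z hz => ?_⟩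
  rw [this]; exact hy z hz

/-- the key disjointness, in objective space -/
theorem disj_core {a : Fin M → Fin n → ℤ} {b : Fin M → ℝ} {D : ℤ} {c X X' v v' w w' : Fin n → ℝ}
    {h h' : Fin n → ℤ} {i : Fin M} {s s' t t' : ℝ} (hE : Edg a b D v v' h i)
    (hE' : Edg a b D w w' h' i) (hX : Gen a c X) (hX' : Gen a c X')
    (hc : 0 < rv h ⬝ᵥ c) (hc' : 0 < rv h' ⬝ᵥ c) (hp : X + s • c ∈ NC a b v)
    (hp' : X' + s' • c ∈ NC a b w) (h0 : rv h ⬝ᵥ (X + s • c) = 0)
    (h0' : rv h' ⬝ᵥ (X' + s' • c) = 0) (htt : t' ≤ t)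
    (heq : X + s • c + t • rv (a i) = X' + s' • c + t' • rv (a i)) : v = w ∧ v' = w' := by
  have hp'eq : X' + s' • c = (X + s • c) + (t - t') • rv (a i) := by
    rw [sub_smul]
    linear_combination (exp := 1) -heq
  have hNv : X' + s' • c ∈ NC a b v := by
    rw [hp'eq]
    exact NC_add hp (NC_smul (by linarith) (row_mem_NC hE.tight))
  have hvw : v = w := by
    have h1 : (X' + s' • c) ⬝ᵥ v = (X' + s' • c) ⬝ᵥ w :=
      le_antisymm (hp' v hE.vtx.1) (hNv w hE'.vtx.1)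
    exact seg_tight hE' (face_eq hE' hX' hc' hp' h0' v hE.vtx.1 h1) hE.tight
  subst hvw
  refine ⟨rfl, ?_⟩
  rcases eq_or_lt_of_le htt with h2 | h2
  · have h3 : X' + s' • c = X + s • c := by rw [hp'eq, h2, sub_self, zero_smul, add_zero]
    have e1 := mem_NC_end hE hp h0
    have e2 := mem_NC_end hE' hp' h0'
    have m1 : w' ∈ segment ℝ v v' := face_eq hE hX hc hp h0 w' hE'.vtx'.1 (by rw [← h3]; exact e2.1)
    have m2 : v' ∈ segment ℝ v w' := face_eq hE' hX' hc' hp' h0' v' hE.vtx'.1 (by rw [h3]; exact e1.1)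
    rw [segment_eq_image'] at m1 m2
    obtain ⟨θ, ⟨hθ0, hθ1⟩, hθ⟩ := m1
    obtain ⟨φ, ⟨hφ0, hφ1⟩, hφ⟩ := m2
    simp only at hθ hφ
    have hw : w' - v = θ • (v' - v) := by rw [← hθ]; abel
    have hv : v' - v = φ • (w' - v) := by rw [← hφ]; abel
    have hne : v' - v ≠ 0 := by
      obtain ⟨r, hr0, hv'⟩ := hE.len
      intro h5
      rw [hv', add_sub_cancel_left] at h5
      have h6 : rv h = 0 := (smul_eq_zero.1 h5).resolve_left hr0.ne'
      rw [h6, zero_dotProduct] at hc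
      exact lt_irrefl _ hc
    have h6 : v' - v = (φ * θ) • (v' - v) := by
      conv_lhs => rw [hv, hw, smul_smul]
    have h7 : (1 - φ * θ) • (v' - v) = 0 := by rw [sub_smul, one_smul, ← h6, sub_self]
    have h8 : φ * θ = 1 := by
      have := (smul_eq_zero.1 h7).resolve_right hne
      linarith
    have h9 : θ = 1 := by nlinarith
    rw [h9, one_smul] at hw
    exact (sub_left_injective hw).symm
  · exfalso
    have h3 : rv h' ⬝ᵥ (X + s • c) ≤ 0 := by
      obtain ⟨t, ht0, hw'⟩ := hE'.len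
      have h4 := hp w' hE'.vtx'.1
      rw [hw', dotProduct_add, dotProduct_smul, smul_eq_mul] at h4
      have h5 : t * ((X + s • c) ⬝ᵥ rv h') ≤ 0 := by linarith
      rw [dotProduct_comm]
      by_contra h6
      push Not at h6
      have := mul_pos ht0 h6
      linarith
    have h4 : rv h' ⬝ᵥ (X' + s' • c) < 0 := by
      rw [hp'eq, dotProduct_add, dotProduct_smul, smul_eq_mul, rv_dot]
      have : ((h' ⬝ᵥ a i : ℤ) : ℝ) < 0 := by exact_mod_cast hE'.neg
      have := mul_neg_of_pos_of_neg (sub_pos.2 h2) this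
      linarith
    rw [h0'] at h4
    exact lt_irrefl _ h4

/-- the pivot bound -/
def bnd (n M D K : ℕ) : ℕ :=
  165 * M * n ^ 2 * K ^ 2 * (n * ((n + 1) * Nat.size ((n + 1) * D) + 1))

theorem sum_W (hn : 0 < n) (a : Fin M → Fin n → ℤ) (b : Fin M → ℝ) (D K : ℕ) (hD : 1 ≤ D)
    (hK : 1 ≤ K) (hI : Imb a K)
    (hs : ∀ h : Fin n → ℤ, (∀ l, |h ⬝ᵥ a l| ≤ D) → ∀ k, |h k| ≤ D)
    (c : Fin n → ℝ) (f : Fin n → Fin M) (hf : (Matrix.of fun i => a (f i)).det ≠ 0) :
    ∑ e, volume (W a b D c f e) ≤ (bnd n M D K : ℕ) := by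
  classical
  obtain ⟨α, hα, hαD⟩ := cramer_imb a K hI f hf
  obtain ⟨γ, hγ⟩ := XL_surj a f hf c
  have hXα : ∀ i, XL a f (α i) = rv (a i) := fun i => by rw [XL_apply, hα]
  have hZ := Zs_null a c f hf
  have hvol : ∀ e, volume (W a b D c f e \ Zs a c f) = volume (W a b D c f e) := fun e =>
    measure_sdiff_null hZ
  have hfin : ∀ e, volume (W a b D c f e) ≠ ⊤ := fun e => by
    refine ne_top_of_le_ne_top ?_ (measure_mono (fun κ hκ => hκ.1 : W a b D c f e ⊆ Set.Icc 0 1))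
    exact isCompact_Icc.measure_ne_top
  have key := measure_walls hn γ α (fun e : Imp a b D c => e.i) (fun e => sfun a f e.h c)
    (fun e => (rv e.h ⬝ᵥ c) / e.mu) (fun e => W a b D c f e \ Zs a c f) K (by exact_mod_cast hK)
    (fun e => div_pos e.pos e.mu_pos) ?_ ?_ ?_ ?_ ?_ ?_ ?_ (n * ((n + 1) * Nat.size ((n + 1) * D) + 1)) ?_
  · simp only [hvol] at key
    rw [← ENNReal.toReal_le_toReal (by simpa using hfin) (by simp),
      ENNReal.toReal_sum fun e _ => hfin e]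
    refine key.trans (le_of_eq ?_)
    simp only [bnd, ENNReal.toReal_natCast]
    push_cast
    ring
  · intro e
    rw [sfun_apply, hγ, neg_div, div_self e.pos.ne']
  · intro e
    rw [sfun_apply, hXα, rv_dot, one_div_div]
    apply div_le_div_of_nonneg_right _ e.pos.le
    have h1 := e.mu_le_row e.i e.edg.neg.ne
    have h2 : ((e.h ⬝ᵥ a e.i : ℤ) : ℝ) < 0 := by exact_mod_cast e.edg.neg
    rw [abs_of_neg h2] at h1
    exact h1
  · intro e
    exact (W_closed a b D c f e).measurableSet.diff (Zs_meas a c f)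
  · intro e κ hκ
    exact hκ.1.1
  · intro e κ hκ
    refine ⟨hκ.1.2.1, ?_⟩
    rw [sfun_apply, div_div_eq_mul_div]
    apply div_le_div_of_nonneg_right _ e.pos.le
    rw [dot_XL, ← Finset.sum_neg_distrib]
    have : ∀ k ∈ Finset.univ, -(κ k * (rv e.h ⬝ᵥ rv (a (f k)))) ≤ (K : ℝ) * e.mu := by
      intro k _
      have h0 := hκ.1.1.1 k
      have h1 := hκ.1.1.2 k
      simp only [Pi.zero_apply, Pi.one_apply] at h0 h1
      rw [rv_dot]
      have h3 := e.row_le hI (f k)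
      have h4 := abs_le.1 h3
      have hD0 : (0 : ℝ) ≤ K * e.mu := mul_nonneg (Nat.cast_nonneg K) e.mu_pos.le
      nlinarith
    calc _ ≤ ∑ _k : Fin n, (K : ℝ) * e.mu := Finset.sum_le_sum this
      _ = n * K * e.mu := by simp; ring
  · intro i k
    exact hαD i k
  · intro e e' hne hii κ hκ κ' hκ' t t' ht ht' heq
    apply hne
    have hX : Gen a c (XL a f κ) := not_not.1 hκ.2
    have hX' : Gen a c (XL a f κ') := not_not.1 hκ'.2
    have heq2 : XL a f κ + sfun a f e.h c κ • c + t • rv (a e.i) =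
        XL a f κ' + sfun a f e'.h c κ' • c + t' • rv (a e.i) := by
      have := congrArg (XL a f) heq
      simpa only [map_add, map_smul, hγ, hXα] using this
    have hE' : Edg a b D e'.1.1 e'.1.2 e'.h e.i := by
      have h1 : e.i = e'.i := hii
      rw [h1]; exact e'.edg
    apply Subtype.ext
    rcases le_total t' t with htt | htt
    · obtain ⟨h1, h2⟩ := disj_core e.edg hE' hX hX' e.pos e'.pos hκ.1.2.2 hκ'.1.2.2
        (sfun_zero e.pos) (sfun_zero e'.pos) htt heq2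
      exact Prod.ext h1 h2
    · obtain ⟨h1, h2⟩ := disj_core hE' e.edg hX' hX e'.pos e.pos hκ'.1.2.2 hκ.1.2.2
        (sfun_zero e'.pos) (sfun_zero e.pos) htt heq2.symm
      exact Prod.ext h1.symm h2.symm
  · refine dyadic_card_mu (fun e : Imp a b D c => e.h) (fun e => e.mu) D hD
      (fun e => e.one_le_mu) (fun e => by exact_mod_cast e.mu_le) (fun e k => ?_) c (fun e => e.pos)
    exact hs e.h e.edg.bd k

/-- number of walls through an anchor -/
noncomputable def cnt (a : Fin M → Fin n → ℤ) (b : Fin M → ℝ) (D : ℤ) (c : Fin n → ℝ)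
    (f : Fin n → Fin M) (κ : Fin n → ℝ) : ℕ := by
  classical
  exact ∑ e : Imp a b D c, if κ ∈ W a b D c f e then 1 else 0

open Classical in
theorem cnt_eq (a : Fin M → Fin n → ℤ) (b : Fin M → ℝ) (D : ℤ) (c : Fin n → ℝ)
    (f : Fin n → Fin M) (κ : Fin n → ℝ) :
    cnt a b D c f κ = (Finset.univ.filter fun e : Imp a b D c => κ ∈ W a b D c f e).card := by
  rw [cnt, Finset.card_filter]

theorem cnt_meas (a : Fin M → Fin n → ℤ) (b : Fin M → ℝ) (D : ℤ) (c : Fin n → ℝ)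
    (f : Fin n → Fin M) : Measurable (cnt a b D c f) := by
  classical
  unfold cnt
  refine Finset.measurable_sum _ fun e _ => ?_
  exact Measurable.ite (W_closed a b D c f e).measurableSet measurable_const measurable_const

theorem cnt_lint (hn : 0 < n) (a : Fin M → Fin n → ℤ) (b : Fin M → ℝ) (D K : ℕ) (hD : 1 ≤ D)
    (hK : 1 ≤ K) (hI : Imb a K) (hs : ∀ h : Fin n → ℤ, (∀ l, |h ⬝ᵥ a l| ≤ D) → ∀ k, |h k| ≤ D)
    (c : Fin n → ℝ) (f : Fin n → Fin M) (hf : (Matrix.of fun i => a (f i)).det ≠ 0) :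
    ∫⁻ κ in Set.Icc (0 : Fin n → ℝ) 1, (cnt a b D c f κ : ENNReal) ≤ (bnd n M D K : ℕ) := by
  classical
  have h1 : ∀ κ, (cnt a b D c f κ : ENNReal) =
      ∑ e : Imp a b D c, (W a b D c f e).indicator (fun _ => (1 : ENNReal)) κ := by
    intro κ
    rw [cnt]
    push_cast
    refine Finset.sum_congr rfl fun e _ => ?_
    by_cases h : κ ∈ W a b D c f e <;> simp [h]
  simp only [h1]
  rw [lintegral_finsetSum _ fun e _ =>
    measurable_const.indicator (W_closed a b D c f e).measurableSet]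
  refine le_trans (Finset.sum_le_sum fun e _ => ?_) (sum_W hn a b D K hD hK hI hs c f hf)
  rw [lintegral_indicator (W_closed a b D c f e).measurableSet]
  simp only [lintegral_const, one_mul, MeasurableSet.univ, Measure.restrict_apply, Set.univ_inter]
  exact Measure.restrict_apply_le _ _

/-- every shadow path is short -/
theorem spath_le {a : Fin M → Fin n → ℤ} {b : Fin M → ℝ} {D : ℤ} (hI : Minors a D)
    {c : Fin n → ℝ} {f : Fin n → Fin M} {κ : Fin n → ℝ} (hκ : κ ∈ Set.Icc 0 1)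
    (hG : Gen a c (XL a f κ)) {k : ℕ} {p : ℕ → Fin n → ℝ} {s : ℕ → ℝ}
    (hp : SPath a b c (XL a f κ) k p s) : k ≤ cnt a b D c f κ := by
  classical
  rw [cnt_eq]
  have hE : ∀ i : Fin k, ∃ (h : Fin n → ℤ) (j : Fin M), Edg a b D (p i) (p (i + 1)) h j ∧
      0 < rv h ⬝ᵥ c := fun i =>
    shadow_edge hI (hp.vtx i i.2.le) (hp.vtx (i + 1) i.2) hG (hp.opt i i.2) (hp.opt' i i.2)
      (hp.up i i.2)
  let g : Fin k → Imp a b D c := fun i => ⟨(p i, p (i + 1)), hE i⟩
  have hmono : ∀ i j : ℕ, i < j → j ≤ k → c ⬝ᵥ p i < c ⬝ᵥ p j := by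
    intro i j hij hj
    induction j with
    | zero => omega
    | succ j ih =>
      rcases Nat.lt_succ_iff_lt_or_eq.1 hij with h | h
      · exact (ih h (by omega)).trans (hp.up j (by omega))
      · rw [h]; exact hp.up j (by omega)
  have hinj : Function.Injective g := by
    intro i j hij
    have h1 : p i = p j := congrArg (fun e : Imp a b D c => e.1.1) hij
    by_contra hne
    have hne' : (i : ℕ) ≠ j := fun h => hne (Fin.ext h)
    rcases lt_or_gt_of_ne hne' with h | h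
    · have := hmono i j h j.2.le
      rw [h1] at this
      exact lt_irrefl _ this
    · have := hmono j i h i.2.le
      rw [h1] at this
      exact lt_irrefl _ this
  have hmem : ∀ i, g i ∈ Finset.univ.filter fun e : Imp a b D c => κ ∈ W a b D c f e := by
    intro i
    rw [Finset.mem_filter]
    have hs : sfun a f (g i).h c κ = s i :=
      sfun_eq (g i).edg (g i).pos (hp.opt i i.2) (hp.opt' i i.2)
    refine ⟨Finset.mem_univ _, hκ, ?_, ?_⟩
    · rw [hs]; exact hp.nonneg i i.2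
    · rw [hs]; exact hp.opt i i.2
  calc k = (Finset.univ.image g).card := by
        rw [Finset.card_image_of_injective _ hinj, Finset.card_univ, Fintype.card_fin]
    _ ≤ _ := Finset.card_le_card (by
        intro e he
        obtain ⟨i, -, rfl⟩ := Finset.mem_image.1 he
        exact hmem i)

/-- shadow paths from the same vertex agree -/
theorem spath_unique {a : Fin M → Fin n → ℤ} {b : Fin M → ℝ} {D : ℤ} (hI : Minors a D)
    {c X : Fin n → ℝ} (hG : Gen a c X) {k k' : ℕ} {p p' : ℕ → Fin n → ℝ} {s s' : ℕ → ℝ}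
    (hp : SPath a b c X k p s) (hp' : SPath a b c X k' p' s') (h0 : p' 0 = p 0) :
    ∀ i, i ≤ k → i ≤ k' → p' i = p i := by
  have key : ∀ {u w v : Fin n → ℝ} {s s' : ℝ}, Vtx a b v → Vtx a b u → Vtx a b w →
      X + s • c ∈ NC a b v → X + s • c ∈ NC a b u → X + s' • c ∈ NC a b v →
      X + s' • c ∈ NC a b w → c ⬝ᵥ v < c ⬝ᵥ u → c ⬝ᵥ v < c ⬝ᵥ w → s' ≤ s := by
    intro u w v s s' hv hu hw h1 h2 h3 h4 h5 h6
    by_contra hlt
    push Not at hlt
    have e1 := h2 v hv.1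
    have e2 := h3 u hu.1
    rw [add_dotProduct, add_dotProduct, smul_dotProduct, smul_dotProduct, smul_eq_mul,
      smul_eq_mul] at e1 e2
    have := mul_pos (sub_pos.2 hlt) (sub_pos.2 h5)
    nlinarith
  intro i
  induction i with
  | zero => intro _ _; exact h0
  | succ i ih =>
    intro hk hk'
    have hi := ih (by omega) (by omega)
    have a1 := hp.opt i hk
    have a2 := hp.opt' i hk
    have a3 := hp'.opt i hk'
    have a4 := hp'.opt' i hk'
    have u1 := hp.up i hk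
    have u2 := hp'.up i hk'
    rw [hi] at a3 u2
    have v0 := hp.vtx i (by omega)
    have v1 := hp.vtx (i + 1) hk
    have v2 := hp'.vtx (i + 1) hk'
    have hs : s i = s' i := le_antisymm (key v0 v2 v1 a3 a4 a1 a2 u2 u1)
      (key v0 v1 v2 a1 a2 a3 a4 u1 u2)
    rw [← hs] at a3 a4
    obtain ⟨h, j, hE, hc⟩ := shadow_edge hI v0 v1 hG a1 a2 u1
    obtain ⟨h', j', hE', hc'⟩ := shadow_edge hI v0 v2 hG a1 a4 u2
    have z : rv h ⬝ᵥ (X + s i • c) = 0 := by
      obtain ⟨t, ht, hv'⟩ := hE.len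
      have e1 := le_antisymm (a1 _ v1.1) (a2 _ v0.1)
      rw [hv', dotProduct_add, dotProduct_smul, smul_eq_mul] at e1
      have h4 : t * ((X + s i • c) ⬝ᵥ rv h) = 0 := by linarith
      rw [dotProduct_comm]
      exact (mul_eq_zero.1 h4).resolve_left ht.ne'
    have z' : rv h' ⬝ᵥ (X + s i • c) = 0 := by
      obtain ⟨t, ht, hv'⟩ := hE'.len
      have e1 := le_antisymm (a1 _ v2.1) (a4 _ v0.1)
      rw [hv', dotProduct_add, dotProduct_smul, smul_eq_mul] at e1
      have h4 : t * ((X + s i • c) ⬝ᵥ rv h') = 0 := by linarith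
      rw [dotProduct_comm]
      exact (mul_eq_zero.1 h4).resolve_left ht.ne'
    have m1 : p' (i + 1) ∈ segment ℝ (p i) (p (i + 1)) :=
      face_eq hE hG hc a1 z _ v2.1 (le_antisymm (a1 _ v2.1) (a4 _ v0.1))
    have m2 : p (i + 1) ∈ segment ℝ (p i) (p' (i + 1)) :=
      face_eq hE' hG hc' a1 z' _ v1.1 (le_antisymm (a1 _ v1.1) (a2 _ v0.1))
    rw [mem_segment_iff_wbtw] at m1 m2
    exact (wbtw_swap_right_iff ℝ (p i)).1 ⟨m1, m2⟩

/-- a maximal shadow path exists -/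
theorem spath_exists {a : Fin M → Fin n → ℤ} {b : Fin M → ℝ} {D : ℤ} (hI : Minors a D)
    {c X v₀ : Fin n → ℝ} (hG : Gen a c X) (hv : Vtx a b v₀) (hX : X ∈ NC a b v₀) (K : ℕ)
    (hK : ∀ k p s, SPath a b c X k p s → k ≤ K) :
    ∃ k p s, SPath a b c X k p s ∧ p 0 = v₀ ∧ (c ∈ NC a b (p k) ∨ Ray a b c (p k)) := by
  by_contra hno
  push Not at hno
  have hstep : ∀ k, ∃ p s, SPath a b c X k p s ∧ p 0 = v₀ ∧ ∃ r : ℝ, 0 ≤ r ∧
      X + r • c ∈ NC a b (p k) := by
    intro k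
    induction k with
    | zero =>
      refine ⟨fun _ => v₀, fun _ => 0, ⟨fun _ _ => hv, ?_, ?_, ?_, ?_⟩, rfl, 0, le_rfl, ?_⟩
      · intro i hi; omega
      · intro i hi; omega
      · intro i hi; omega
      · intro i hi; omega
      · rw [zero_smul, add_zero]; exact hX
    | succ k ih =>
      obtain ⟨p, s, hp, hp0, r, hr, hrc⟩ := ih
      obtain ⟨hn1, hn2⟩ := hno k p s hp hp0
      rcases pstep hI (hp.vtx k le_rfl) hG hrc with h | h | ⟨v', h, i, τ, hE, hc, hsτ, hτ, h0⟩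
      · exact absurd h hn1
      · exact absurd h hn2
      · have hend := mem_NC_end hE hτ h0
        obtain ⟨t, ht, hv'⟩ := hE.len
        have hup : c ⬝ᵥ p k < c ⬝ᵥ v' := by
          rw [hv', dotProduct_add, dotProduct_smul, smul_eq_mul, dotProduct_comm c (rv h)]
          have := mul_pos ht hc
          linarith
        refine ⟨fun j => if j ≤ k then p j else v', fun j => if j < k then s j else τ,
          ⟨?_, ?_, ?_, ?_, ?_⟩, by simp [hp0], τ, hr.trans hsτ, ?_⟩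
        · intro j hj
          by_cases hjk : j ≤ k
          · simp only [hjk, if_true]; exact hp.vtx j hjk
          · simp only [hjk, if_false]; exact hE.vtx'
        · intro j hj
          rcases Nat.lt_succ_iff_lt_or_eq.1 hj with hjk | hjk
          · simp only [hjk.le, Nat.succ_le_of_lt hjk, if_true]
            exact hp.up j hjk
          · subst hjk
            simp only [le_refl, if_true, Nat.not_succ_le_self, if_false]
            exact hup
        · intro j hj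
          by_cases hjk : j < k
          · simp only [hjk, if_true]; exact hp.nonneg j hjk
          · simp only [hjk, if_false]; exact hr.trans hsτ
        · intro j hj
          rcases Nat.lt_succ_iff_lt_or_eq.1 hj with hjk | hjk
          · simp only [hjk, hjk.le, if_true]
            exact hp.opt j hjk
          · subst hjk
            simp only [le_refl, lt_irrefl, if_true, if_false]
            exact hτ
        · intro j hj
          rcases Nat.lt_succ_iff_lt_or_eq.1 hj with hjk | hjk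
          · simp only [hjk, Nat.succ_le_of_lt hjk, if_true]
            exact hp.opt' j hjk
          · subst hjk
            simp only [lt_irrefl, Nat.not_succ_le_self, if_false]
            exact hend.2
        · simp only [Nat.not_succ_le_self, if_false]
          exact hend.2
  obtain ⟨p, s, hp, -⟩ := hstep (K + 1)
  have := hK _ p s hp
  omega

/-- the anchor is in the normal cone of the start vertex -/
theorem XL_mem {a : Fin M → Fin n → ℤ} {b : Fin M → ℝ} {v₀ κ : Fin n → ℝ} {f : Fin n → Fin M}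
    (ht : ∀ k, rv (a (f k)) ⬝ᵥ v₀ = b (f k)) (hκ : κ ∈ Set.Icc 0 1) :
    XL a f κ ∈ NC a b v₀ := by
  rw [XL_apply]
  refine Finset.sum_induction _ (fun y => y ∈ NC a b v₀) (fun _ _ => NC_add) ?_ ?_
  · intro z _; simp
  · intro k _
    exact NC_smul (hκ.1 k) (row_mem_NC (ht k))

/-- main theorem, algebraic form -/
theorem main_alg (hn : 0 < n) (a : Fin M → Fin n → ℤ) (b : Fin M → ℝ) (D K : ℕ) (hD : 1 ≤ D)
    (hK : 1 ≤ K) (hI : Minors a D) (hImb : Imb a K) (hs : ∀ h : Fin n → ℤ, (∀ l, |h ⬝ᵥ a l| ≤ D) → ∀ k, |h k| ≤ D)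
    (c : Fin n → ℝ) (f : Fin n → Fin M) (hf : (Matrix.of fun i => a (f i)).det ≠ 0)
    (v₀ : Fin n → ℝ) (hv : Vtx a b v₀) (ht : ∀ k, rv (a (f k)) ⬝ᵥ v₀ = b (f k)) :
    ∃ N : (Fin n → ℝ) → ℕ, Measurable N ∧
      ∫⁻ κ in Set.Icc (0 : Fin n → ℝ) 1, (N κ : ENNReal) ≤ (bnd n M D K : ℕ) ∧
      ∀ᵐ κ, κ ∈ Set.Icc (0 : Fin n → ℝ) 1 → Gen a c (∑ k, κ k • rv (a (f k))) ∧
        (∀ k p s, SPath a b c (∑ k, κ k • rv (a (f k))) k p s → k ≤ N κ) ∧
        ∃ k p s, SPath a b c (∑ k, κ k • rv (a (f k))) k p s ∧ p 0 = v₀ ∧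
          (c ∈ NC a b (p k) ∨ Ray a b c (p k)) := by
  refine ⟨cnt a b D c f, cnt_meas a b D c f, cnt_lint hn a b D K hD hK hImb hs c f hf, ?_⟩
  have hZ : ∀ᵐ κ, κ ∉ Zs a c f := by
    rw [ae_iff]
    simpa using Zs_null a c f hf
  filter_upwards [hZ] with κ hκZ hκ
  have hG : Gen a c (XL a f κ) := not_not.1 hκZ
  rw [← XL_apply]
  have h1 : ∀ k p s, SPath a b c (XL a f κ) k p s → k ≤ cnt a b D c f κ :=
    fun k p s hp => spath_le hI hκ hG hp
  exact ⟨hG, h1, spath_exists hI hG hv (XL_mem ht hκ) _ h1⟩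

end Pool.Agent.Simplex.SD
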