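import Mathlib
import Pool.Agent.Lib.MP_4d246d_lc.SD.Defs

/-! Adding the rows `-e_j` does not increase the subdeterminants. -/

namespace Pool.Agent.Simplex.SD

open Matrix

/-- rows of `A x ≤ b`, `x ≥ 0` -/
def rowsExt {m n : ℕ} (A : Matrix (Fin m) (Fin n) ℤ) : Fin (m + n) → Fin n → ℤ :=
  Fin.append (fun i => A i) (fun j => -Pi.single j 1)

theorem rowsExt_left {m n : ℕ} (A : Matrix (Fin m) (Fin n) ℤ) (i : Fin m) :
    rowsExt A (Fin.castAdd n i) = A i := by
  simp [rowsExt]

theorem rowsExt_right {m n : ℕ} (A : Matrix (Fin m) (Fin n) ℤ) (j : Fin n) :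
    rowsExt A (Fin.natAdd m j) = -Pi.single j 1 := by
  simp [rowsExt]

theorem minors_all {m n : ℕ} (A : Matrix (Fin m) (Fin n) ℤ) (D : ℤ) (hD : 1 ≤ D)
    (hA : ∀ (k : ℕ) (I : Fin k → Fin m) (J : Fin k → Fin n), |(A.submatrix I J).det| ≤ D) :
    ∀ (k : ℕ) (r : Fin k → Fin (m + n)) (J : Fin k → Fin n),
      |(Matrix.of fun i l => rowsExt A (r i) (J l)).det| ≤ D := by
  intro k
  induction k with
  | zero => intro r J; simpa [Matrix.det_fin_zero] using hD
  | succ k ih =>
    intro r J
    by_cases hJ : Function.Injective J
    · by_cases hr : ∃ i j, r i = Fin.natAdd m j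
      · obtain ⟨i, j, hij⟩ := hr
        have entry : ∀ l, (Matrix.of fun i l => rowsExt A (r i) (J l)) i l =
            if J l = j then -1 else 0 := by
          intro l
          simp only [Matrix.of_apply, hij, rowsExt_right, Pi.neg_apply, Pi.single_apply]
          split_ifs <;> simp
        rw [Matrix.det_succ_row _ i]
        by_cases hl : ∃ l, J l = j
        · obtain ⟨l0, hl0⟩ := hl
          rw [Finset.sum_eq_single l0]
          · rw [entry l0, if_pos hl0, abs_mul, abs_mul, abs_pow]
            simp only [abs_neg, abs_one, one_pow, one_mul]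
            exact ih (fun x => r (i.succAbove x)) (fun x => J (l0.succAbove x))
          · intro l _ hne
            have : J l ≠ j := fun h => hne (hJ (h.trans hl0.symm))
            rw [entry l, if_neg this]
            simp
          · intro h
            exact absurd (Finset.mem_univ _) h
        · push Not at hl
          rw [Finset.sum_eq_zero]
          · simp only [abs_zero]; linarith
          · intro l _
            rw [entry l, if_neg (hl l)]
            simp
      · push Not at hr
        have hI : ∀ i, ∃ i', r i = Fin.castAdd n i' := by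
          intro i
          refine Fin.addCases (motive := fun x => r i = x → ∃ i', r i = Fin.castAdd n i')
            (fun i' h => ⟨i', h⟩) (fun j h => absurd h (hr i j)) (r i) rfl
        choose I hI using hI
        have : (Matrix.of fun i l => rowsExt A (r i) (J l)) = A.submatrix I J := by
          ext i l
          simp [hI, rowsExt_left]
        rw [this]
        exact hA _ I J
    · rw [Function.Injective] at hJ
      push Not at hJ
      obtain ⟨a, b, hab, hne⟩ := hJ
      rw [Matrix.det_zero_of_column_eq hne]
      · simp only [abs_zero]; linarith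
      · intro i
        simp [hab]

theorem minors_ext {m n : ℕ} (A : Matrix (Fin m) (Fin n) ℤ) (D : ℤ) (hD : 1 ≤ D)
    (hA : ∀ (k : ℕ) (I : Fin k → Fin m) (J : Fin k → Fin n), |(A.submatrix I J).det| ≤ D) :
    Minors (rowsExt A) D := by
  intro f
  exact minors_all A D hD hA n f id

end Pool.Agent.Simplex.SD
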