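import Mathlib
import Pool.Agent.Lib.MP_4d246d_lc.SD.LPDefs
import Pool.Agent.Lib.MP_4d246d_lc.SD.Ext
import Pool.Agent.Lib.MP_4d246d_lc.SD.Main
import Pool.Agent.Lib.MP_4d246d_lc.SD.MinorsExt

/-! From polyhedra to linear programs. -/

namespace Pool.Agent.Simplex.Subdet

open Matrix MeasureTheory SD

variable {m n : ℕ} (P : LP m n)

namespace LP

/-- the integer matrix -/
noncomputable def Az : Matrix (Fin m) (Fin n) ℤ := fun i j => ⌊P.A i j⌋

/-- integrality -/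
class IsInt : Prop where
  out : ∀ i j, ∃ z : ℤ, P.A i j = z

theorem Az_eq [h : P.IsInt] (i : Fin m) (j : Fin n) : ((P.Az i j : ℤ) : ℝ) = P.A i j := by
  obtain ⟨z, hz⟩ := h.out i j
  rw [Az, hz, Int.floor_intCast]

/-- rows -/
noncomputable def ar : Fin (m + n) → Fin n → ℤ := rowsExt P.Az

/-- right hand sides -/
noncomputable def br : Fin (m + n) → ℝ := Fin.append P.b (fun _ => 0)

theorem dot_eq (x y : Fin n → ℝ) : x ⬝ᵥ y = ∑ j, x j * y j := rfl

theorem ar_inl [P.IsInt] (i : Fin m) : rv (P.ar (Fin.castAdd n i)) = fun j => P.A i j := by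
  ext j; simp [ar, rowsExt, rv, Az_eq]

theorem ar_inr (k : Fin n) : rv (P.ar (Fin.natAdd m k)) = fun j => if j = k then -1 else 0 := by
  ext j
  by_cases h : j = k
  · subst h; simp [ar, rowsExt, rv]
  · simp [ar, rowsExt, rv, h]

theorem normal_eq [P.IsInt] (l : Fin m ⊕ Fin n) : P.normal l = rv (P.ar (finSumFinEquiv l)) := by
  rcases l with i | k
  · rw [finSumFinEquiv_apply_left, ar_inl]; rfl
  · rw [finSumFinEquiv_apply_right, ar_inr]; rfl

theorem rhs_eq (l : Fin m ⊕ Fin n) : P.rhs l = P.br (finSumFinEquiv l) := by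
  rcases l with i | k
  · rw [finSumFinEquiv_apply_left, br, Fin.append_left]; rfl
  · rw [finSumFinEquiv_apply_right, br, Fin.append_right]; rfl

theorem feasible_eq [P.IsInt] : P.feasible = Pol P.ar P.br := by
  ext x
  constructor
  · rintro ⟨h1, h2⟩ l
    refine Fin.addCases (fun i => ?_) (fun k => ?_) l
    · rw [ar_inl, br, Fin.append_left]; exact h1 i
    · rw [ar_inr, br, Fin.append_right, dot_eq]
      simp [h2 k]
  · intro h
    refine ⟨fun i => ?_, fun k => ?_⟩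
    · have := h (Fin.castAdd n i)
      rw [ar_inl, br, Fin.append_left] at this
      exact this
    · have := h (Fin.natAdd m k)
      rw [ar_inr, br, Fin.append_right, dot_eq] at this
      simpa using this

theorem obj_eq (x : Fin n → ℝ) : P.obj x = P.c ⬝ᵥ x := rfl

theorem vertex_iff [P.IsInt] (x : Fin n → ℝ) : P.Vertex x ↔ Vtx P.ar P.br x := by
  unfold Vertex
  rw [feasible_eq]
  exact ⟨vtx_of_ext, ext_of_vtx⟩

theorem shadow_iff [P.IsInt] (w : Fin n → ℝ) (s : ℝ) (x : Fin n → ℝ) :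
    P.Shadow w s x ↔ x ∈ Pol P.ar P.br ∧ w + s • P.c ∈ NC P.ar P.br x := by
  unfold Shadow NC
  rw [feasible_eq]
  refine and_congr_right fun _ => forall_congr' fun y => imp_congr_right fun _ => ?_
  rw [add_dotProduct, add_dotProduct, smul_dotProduct, smul_dotProduct]
  rfl

/-- the index map of a tight basis -/
def fr (r : Fin n → Fin m ⊕ Fin n) : Fin n → Fin (m + n) := fun k => finSumFinEquiv (r k)

theorem det_ne_iff [P.IsInt] (r : Fin n → Fin m ⊕ Fin n) :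
    LinearIndependent ℝ (fun k => P.normal (r k)) ↔
      (Matrix.of fun i => P.ar (fr r i)).det ≠ 0 := by
  have h1 : (fun k => P.normal (r k)) = fun k => rv (P.ar (fr r k)) := by
    funext k; rw [normal_eq]; rfl
  rw [h1]
  have h2 : LinearIndependent ℝ (fun k => rv (P.ar (fr r k))) ↔
      IsUnit (Matrix.of fun i => rv (P.ar (fr r i))) :=
    Matrix.linearIndependent_rows_iff_isUnit (A := Matrix.of fun i => rv (P.ar (fr r i)))
  rw [h2, Matrix.isUnit_iff_isUnit_det, isUnit_iff_ne_zero, det_cast, Int.cast_ne_zero]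

theorem tight_iff [P.IsInt] (x : Fin n → ℝ) (r : Fin n → Fin m ⊕ Fin n) :
    P.TightBasis x r ↔ (Matrix.of fun i => P.ar (fr r i)).det ≠ 0 ∧
      ∀ k, rv (P.ar (fr r k)) ⬝ᵥ x = P.br (fr r k) := by
  unfold TightBasis
  rw [det_ne_iff]
  refine and_congr_right fun _ => forall_congr' fun k => ?_
  rw [normal_eq, rhs_eq]
  rfl

theorem auxiliary_eq [P.IsInt] (r : Fin n → Fin m ⊕ Fin n) (κ : Fin n → ℝ) :
    P.auxiliary r κ = ∑ k, κ k • rv (P.ar (fr r k)) := by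
  ext j
  rw [Finset.sum_apply]
  refine Finset.sum_congr rfl fun k _ => ?_
  rw [normal_eq]
  rfl

theorem exists_tight [P.IsInt] {x : Fin n → ℝ} (hx : P.Vertex x) : ∃ r, P.TightBasis x r := by
  have hv := (P.vertex_iff x).1 hx
  obtain ⟨f, hf, hdet⟩ := exists_basis P.ar {l | rv (P.ar l) ⬝ᵥ x = P.br l} (fun q hq => hv.2 q hq)
  refine ⟨fun k => finSumFinEquiv.symm (f k), (P.tight_iff _ _).2 ?_⟩
  have : fr (fun k => finSumFinEquiv.symm (f k)) = f := by
    funext k; simp [fr]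
  rw [this]
  exact ⟨hdet, hf⟩

variable {P}

theorem subdet_one {D : ℕ} (hD : SubdetLE P.A D) : 1 ≤ D := by
  have := hD.2 0 (fun i => i.elim0) (fun i => i.elim0)
  simp at this
  exact_mod_cast this

theorem subdet_int [P.IsInt] {D : ℕ} (hD : SubdetLE P.A D) (k : ℕ) (I : Fin k → Fin m)
    (J : Fin k → Fin n) : |(P.Az.submatrix I J).det| ≤ (D : ℤ) := by
  have h1 := hD.2 k I J
  have h2 : P.A.submatrix I J = (P.Az.submatrix I J).map (fun x => (x : ℝ)) := by
    ext i j; simp [Az_eq]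
  rw [h2, ← Int.cast_det] at h1
  exact_mod_cast h1

theorem small [P.IsInt] {D : ℕ} (h : Fin n → ℤ) (hh : ∀ l, |h ⬝ᵥ P.ar l| ≤ (D : ℤ)) (k : Fin n) :
    |h k| ≤ (D : ℤ) := by
  have := hh (Fin.natAdd m k)
  have h2 : h ⬝ᵥ P.ar (Fin.natAdd m k) = - h k := by
    rw [ar, rowsExt, Fin.append_right, dotProduct_neg, dotProduct_single, mul_one]
  rw [h2, abs_neg] at this
  exact this

theorem bnd_eq (m n D K : ℕ) : bnd n (m + n) D K = pivotBound m n D K := by
  unfold bnd pivotBound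
  ring

theorem improving_of_edg [P.IsInt] {D : ℤ} {v v' : Fin n → ℝ} {h : Fin n → ℤ} {i : Fin (m + n)}
    (hE : Edg P.ar P.br D v v' h i) (hc : P.c ⬝ᵥ v < P.c ⬝ᵥ v') : P.Improving v v' := by
  refine ⟨⟨(P.vertex_iff _).2 hE.vtx, (P.vertex_iff _).2 hE.vtx', ?_, ?_⟩, hc⟩
  · rintro rfl; exact lt_irrefl _ hc
  · rw [feasible_eq]; exact hE.extreme

/-- a run of the shadow rule is a shadow path -/
theorem spath_of_run [P.IsInt] {w : Fin n → ℝ} {k : ℕ} {p : ℕ → Fin n → ℝ} (h0 : P.Vertex (p 0))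
    (h : P.ShadowRun w k p) : ∃ s, SPath P.ar P.br P.c w k p s := by
  choose! s hs0 hs1 hs2 using h.shadow
  refine ⟨s, ⟨fun i hi => ?_, fun i hi => (h.pivot i hi).2, hs0, fun i hi =>
    ((P.shadow_iff _ _ _).1 (hs1 i hi)).2, fun i hi => ((P.shadow_iff _ _ _).1 (hs2 i hi)).2⟩⟩
  rw [← vertex_iff]
  rcases Nat.eq_zero_or_pos i with h1 | h1
  · rw [h1]; exact h0
  · have := (h.pivot (i - 1) (by omega)).1.2.1
    rwa [Nat.sub_add_cancel h1] at this

/-- a final shadow path gives a complete run -/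
theorem run_of_spath [P.IsInt] {D : ℤ} (hI : Minors P.ar D) {w : Fin n → ℝ}
    (hG : Gen P.ar P.c w) {k : ℕ} {p : ℕ → Fin n → ℝ} {s : ℕ → ℝ}
    (h : SPath P.ar P.br P.c w k p s)
    (hk : P.c ∈ NC P.ar P.br (p k) ∨ Ray P.ar P.br P.c (p k)) :
    ∃ k, P.ShadowRun w k p ∧ P.Final (p k) ∧ ∃ s, SPath P.ar P.br P.c w k p s := by
  classical
  have hfin : P.Final (p k) := by
    have hv := h.vtx k le_rfl
    refine ⟨(P.vertex_iff _).2 hv, ?_⟩
    rcases hk with hk | ⟨z, hz1, hz2, hz3⟩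
    · left
      refine ⟨by rw [feasible_eq]; exact hv.1, fun y hy => ?_⟩
      rw [feasible_eq] at hy
      exact hk y hy
    · right
      refine ⟨(P.vertex_iff _).2 hv, z, hz1, ?_⟩
      rw [feasible_eq]
      exact ray_extreme hv hz1 hz2 hz3
  have hex : ∃ k, P.Final (p k) := ⟨k, hfin⟩
  have hle : Nat.find hex ≤ k := Nat.find_min' hex hfin
  have hsp : SPath P.ar P.br P.c w (Nat.find hex) p s :=
    ⟨fun i hi => h.vtx i (hi.trans hle), fun i hi => h.up i (lt_of_lt_of_le hi hle),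
      fun i hi => h.nonneg i (lt_of_lt_of_le hi hle), fun i hi => h.opt i (lt_of_lt_of_le hi hle),
      fun i hi => h.opt' i (lt_of_lt_of_le hi hle)⟩
  refine ⟨Nat.find hex, ⟨fun i hi => ?_, fun i hi => ⟨s i, hsp.nonneg i hi, ?_, ?_⟩,
    fun i hi => Nat.find_min hex hi⟩, Nat.find_spec hex, s, hsp⟩
  · obtain ⟨h1, j, hE, hc⟩ := shadow_edge hI (hsp.vtx i hi.le) (hsp.vtx (i + 1) hi) hG
      (hsp.opt i hi) (hsp.opt' i hi) (hsp.up i hi)
    exact improving_of_edg hE (hsp.up i hi)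
  · exact (P.shadow_iff _ _ _).2 ⟨(hsp.vtx i hi.le).1, hsp.opt i hi⟩
  · exact (P.shadow_iff _ _ _).2 ⟨(hsp.vtx (i + 1) hi).1, hsp.opt' i hi⟩

theorem elem_iff [P.IsInt] (z : Fin n → ℝ) : P.Elementary z ↔ Elem P.ar z := by
  have key : ∀ q : Fin n → ℝ,
      (∀ l, ∑ j, P.normal l j * z j = 0 → ∑ j, P.normal l j * q j = 0) ↔
      ∀ l, rv (P.ar l) ⬝ᵥ z = 0 → rv (P.ar l) ⬝ᵥ q = 0 := by
    intro q
    constructor
    · intro h l
      have := h (finSumFinEquiv.symm l)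
      rw [normal_eq, Equiv.apply_symm_apply] at this
      exact this
    · intro h l
      rw [normal_eq]
      exact h _
  unfold Elementary Elem
  simp only [key]

theorem imb_of [P.IsInt] {K : ℕ} (h : P.ImbalanceLE K) : Imb P.ar K := by
  intro z hz l i hi
  have := h z ((elem_iff z).2 hz) (finSumFinEquiv.symm l) (finSumFinEquiv.symm i)
  rw [normal_eq, normal_eq, Equiv.apply_symm_apply, Equiv.apply_symm_apply] at this
  exact this hi

theorem imb_all [P.IsInt] {D K : ℕ} (hD : SubdetLE P.A D) (hK : D ≤ K ∨ P.ImbalanceLE K) :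
    Imb P.ar K := by
  rcases hK with hK | hK
  · have hI : Minors P.ar D := minors_ext P.Az D (by exact_mod_cast subdet_one hD)
      (subdet_int hD)
    have h1 := imb_of_minors P.ar D hI (fun q hq => by
      funext j
      have := hq (Fin.natAdd m j)
      rw [ar_inr, dot_eq] at this
      simpa using this)
    intro z hz l i hi
    have h2 := h1 z hz l i hi
    refine h2.trans (mul_le_mul_of_nonneg_right ?_ (abs_nonneg _))
    exact_mod_cast hK
  · exact imb_of hK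

/-- the random anchor theorem -/
theorem random_main (hn : 0 < n) {D K : ℕ} (hD : SubdetLE P.A D)
    (hK : D ≤ K ∨ P.ImbalanceLE K) {v₀ : Fin n → ℝ}
    (hv : P.Vertex v₀) {r : Fin n → Fin m ⊕ Fin n} (hr : P.TightBasis v₀ r) :
    ∃ N : (Fin n → ℝ) → ℕ, Measurable N ∧
      ∫⁻ κ in Set.Icc (0 : Fin n → ℝ) 1, (N κ : ENNReal) ≤ (pivotBound m n D K : ℕ) ∧
      ∀ᵐ κ, κ ∈ Set.Icc (0 : Fin n → ℝ) 1 → ∃ k p, k ≤ N κ ∧ p 0 = v₀ ∧
        P.ShadowRun (P.auxiliary r κ) k p ∧ P.Final (p k) ∧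
        ∀ k' p', p' 0 = v₀ → P.ShadowRun (P.auxiliary r κ) k' p' →
          k' ≤ k ∧ ∀ i ≤ k', p' i = p i := by
  have : P.IsInt := ⟨hD.1⟩
  obtain ⟨hdet, htight⟩ := (P.tight_iff v₀ r).1 hr
  have hI : Minors P.ar D := minors_ext P.Az D (by exact_mod_cast subdet_one hD)
    (subdet_int hD)
  have hImb : Imb P.ar K := imb_all hD hK
  obtain ⟨N, hN1, hN2, hN3⟩ := main_alg hn P.ar P.br D K (subdet_one hD)
    (one_le_imb hn P.ar K hImb (fr r) hdet) hI hImb small P.c (fr r) hdet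
    v₀ ((P.vertex_iff v₀).1 hv) htight
  rw [bnd_eq] at hN2
  refine ⟨N, hN1, hN2, ?_⟩
  filter_upwards [hN3] with κ hκ hbox
  obtain ⟨hG, hle, k, p, s, hp, hp0, hfin⟩ := hκ hbox
  rw [← auxiliary_eq] at hG hle hp
  obtain ⟨k1, hrun, hF, s1, hs1⟩ := run_of_spath hI hG hp hfin
  refine ⟨k1, p, hle _ _ _ hs1, hp0, hrun, hF, ?_⟩
  intro k' p' hp'0 hrun'
  obtain ⟨s', hs'⟩ := spath_of_run (by rw [hp'0]; exact hv) hrun'
  have huniq := spath_unique hI hG hs1 hs' (by rw [hp0, hp'0])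
  have hk : k' ≤ k1 := by
    by_contra hlt
    push Not at hlt
    have h1 := huniq k1 le_rfl hlt.le
    apply hrun'.go k1 hlt
    rw [h1]
    exact hF
  exact ⟨hk, fun i hi => huniq i (hi.trans hk) hi⟩

theorem final_zero {P : LP m 0} {v₀ : Fin 0 → ℝ} (hv : P.Vertex v₀) : P.Final v₀ :=
  ⟨hv, Or.inl ⟨hv.1, fun y _ => by rw [Subsingleton.elim y v₀]⟩⟩

/-- the random anchor theorem, all dimensions -/
theorem random_all {D K : ℕ} (hD : SubdetLE P.A D)
    (hK : D ≤ K ∨ P.ImbalanceLE K) {v₀ : Fin n → ℝ}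
    (hv : P.Vertex v₀) {r : Fin n → Fin m ⊕ Fin n} (hr : P.TightBasis v₀ r) :
    ∃ N : (Fin n → ℝ) → ℕ, Measurable N ∧
      ∫⁻ κ in Set.Icc (0 : Fin n → ℝ) 1, (N κ : ENNReal) ≤ (pivotBound m n D K : ℕ) ∧
      ∀ᵐ κ, κ ∈ Set.Icc (0 : Fin n → ℝ) 1 → ∃ (k : ℕ) (p : ℕ → Fin n → ℝ), k ≤ N κ ∧ p 0 = v₀ ∧
        P.ShadowRun (P.auxiliary r κ) k p ∧ P.Final (p k) ∧
        ∀ k' p', p' 0 = v₀ → P.ShadowRun (P.auxiliary r κ) k' p' →
          k' ≤ k ∧ ∀ i ≤ k', p' i = p i := by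
  rcases Nat.eq_zero_or_pos n with rfl | hn
  · refine ⟨fun _ => 0, measurable_const, by simp, Filter.Eventually.of_forall fun κ _ => ?_⟩
    refine ⟨0, fun _ => v₀, le_rfl, rfl, ⟨?_, ?_, ?_⟩, final_zero hv, ?_⟩
    · intro i hi; omega
    · intro i hi; omega
    · intro i hi; omega
    · intro k' p' h0 hrun
      have hk : k' = 0 := by
        by_contra hne
        apply hrun.go 0 (by omega)
        rw [h0]
        exact final_zero hv
      subst hk
      refine ⟨le_rfl, fun i hi => ?_⟩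
      rw [Nat.le_zero.1 hi, h0]
  · exact random_main hn hD hK hv hr

instance prob_box : IsProbabilityMeasure
    (volume.restrict (Set.Icc (0 : Fin n → ℝ) 1)) := by
  constructor
  rw [Measure.restrict_apply_univ, Real.volume_Icc_pi]
  simp

/-- short monotone paths -/
theorem short_path {D K : ℕ} (hD : SubdetLE P.A D) (hK : D ≤ K ∨ P.ImbalanceLE K)
    {v₀ : Fin n → ℝ} (hv : P.Vertex v₀) :
    ∃ (k : ℕ) (p : ℕ → Fin n → ℝ), k ≤ pivotBound m n D K ∧ p 0 = v₀ ∧ (∀ i < k, P.Improving (p i) (p (i + 1))) ∧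
      P.Final (p k) := by
  have : P.IsInt := ⟨hD.1⟩
  obtain ⟨r, hr⟩ := P.exists_tight hv
  obtain ⟨N, hN1, hN2, hN3⟩ := random_all hD hK hv hr
  have hbox : ∀ᵐ κ ∂(volume.restrict (Set.Icc (0 : Fin n → ℝ) 1)), ∃ (k : ℕ) (p : ℕ → Fin n → ℝ), k ≤ N κ ∧ p 0 = v₀ ∧
      (∀ i < k, P.Improving (p i) (p (i + 1))) ∧ P.Final (p k) := by
    rw [ae_restrict_iff' measurableSet_Icc]
    filter_upwards [hN3] with κ hκ hb
    obtain ⟨k, p, h1, h2, h3, h4, -⟩ := hκ hb
    exact ⟨k, p, h1, h2, h3.pivot, h4⟩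
  have hmeas : AEMeasurable (fun κ => (N κ : ENNReal))
      (volume.restrict (Set.Icc (0 : Fin n → ℝ) 1)) :=
    (measurable_from_nat.comp hN1).aemeasurable
  obtain ⟨κ, hκ1, hκ2⟩ := exists_notMem_null_le_lintegral hmeas (ae_iff.1 hbox)
  obtain ⟨k, p, h1, h2, h3, h4⟩ := not_not.1 hκ1
  refine ⟨k, p, h1.trans ?_, h2, h3, h4⟩
  have := hκ2.trans hN2
  exact_mod_cast this

end LP

end Pool.Agent.Simplex.Subdet
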