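import Mathlib
import Pool.Agent.Lib.MP_4d246d_lc.SD.LPDefs
import Pool.Agent.Lib.MP_4d246d_lc.Lar.Poly

/-! Short monotone paths for linear programs in the form `A x ≤ b`, `x ≥ 0`. -/

namespace Pool.Agent.Simplex.Subdet

variable {m n : ℕ} {P : LP m n}

/-- all rows -/
noncomputable def LP.ea (P : LP m n) : Fin (m + n) → Fin n → ℝ :=
  Fin.append (fun i j => P.A i j) (fun k j => if j = k then (-1 : ℝ) else 0)

theorem LP.ea_inl (i : Fin m) : P.ea (Fin.castAdd n i) = fun j => P.A i j := by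
  simp [LP.ea]

theorem LP.ea_inr (k : Fin n) : P.ea (Fin.natAdd m k) = fun j => if j = k then (-1 : ℝ) else 0 := by
  simp [LP.ea]

/-- all right hand sides -/
noncomputable def LP.eb (P : LP m n) : Fin (m + n) → ℝ := Fin.append P.b (fun _ => 0)

theorem LP.larman_path {v₀ : Fin n → ℝ} (hv : P.Vertex v₀) :
    ∃ (k : ℕ) (p : ℕ → Fin n → ℝ), k ≤ 4 ^ (min n (m + 1) - 2) * min (m + n) (2 * m + 1) ∧
      k ≤ ∑ j ∈ Finset.range (Nat.size (min (m + n) (2 * m + 1))),
        (2 * (min n (m + 1) - 2) + Nat.size (min (m + n) (2 * m + 1))).choose j ∧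
      p 0 = v₀ ∧ (∀ i < k, P.Improving (p i) (p (i + 1))) ∧ P.Final (p k) := by
  have hP : P.feasible = {x | ∀ i, ∑ j, P.ea i j * x j ≤ P.eb i} := by
    ext x
    constructor
    · rintro ⟨h1, h2⟩ l
      refine Fin.addCases (fun i => ?_) (fun k => ?_) l
      · rw [LP.ea_inl, LP.eb, Fin.append_left]; exact h1 i
      · rw [LP.ea_inr, LP.eb, Fin.append_right]
        simp [h2 k]
    · intro h
      refine ⟨fun i => ?_, fun k => ?_⟩
      · have := h (Fin.castAdd n i)
        rw [LP.ea_inl, LP.eb, Fin.append_left] at this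
        exact this
      · have := h (Fin.natAdd m k)
        rw [LP.ea_inr, LP.eb, Fin.append_right] at this
        simpa using this
  obtain ⟨k, p, h1, h0, h2, h3, h4, h5⟩ :=
    Pool.Agent.Simplex.Lar.real_path _ _ P.c v₀ P.feasible hP hv
  have e1 : m + n - n + 1 = m + 1 := by omega
  have e2 : 2 * (m + n - n) + 1 = 2 * m + 1 := by omega
  rw [e1, e2] at h1
  have hb := Pool.Agent.Simplex.Lar.Fc_bounds (min n (m + 1)) (min (m + n) (2 * m + 1)) (by
    rcases h0 with h0 | h0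
    · exact Or.inl (by rw [h0, Nat.zero_min])
    · exact Or.inr (le_min h0 (by omega)))
  refine ⟨k, p, h1.trans hb.1, h1.trans hb.2, h2, fun i hi => ?_, h4, ?_⟩
  · obtain ⟨a1, a2, a3, a4, a5⟩ := h3 i hi
    exact ⟨⟨a2, a3, a1, a4⟩, a5⟩
  · rcases h5 with h5 | h5
    · exact Or.inl ⟨h4.1, h5⟩
    · exact Or.inr ⟨h4, h5⟩

end Pool.Agent.Simplex.Subdet
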