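import Mathlib
import Pool.Agent.Lib.MP_4d246d_lc.SD.LPDefs

/-! Programs with at most two variables, with coefficients `±1`, in each inequality. -/

namespace Pool.Agent.Simplex.Subdet

open Matrix

variable {m n : ℕ}

/-- entries at most `a` give subdeterminants at most `n! a ^ n` -/
theorem subdet_of_entries {A : Matrix (Fin m) (Fin n) ℝ} {a : ℕ} (ha : 1 ≤ a)
    (h : ∀ i j, ∃ z : ℤ, A i j = z ∧ |z| ≤ a) : SubdetLE A (Nat.factorial n * a ^ n) := by
  refine ⟨fun i j => ?_, fun k I J => ?_⟩
  · obtain ⟨z, hz, -⟩ := h i j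
    exact ⟨z, hz⟩
  · rcases le_or_gt k n with hk | hk
    · have h1 := Matrix.det_le (A := A.submatrix I J) (abv := AbsoluteValue.abs) (x := (a : ℝ))
        (fun i j => by
          simp only [Matrix.submatrix_apply, AbsoluteValue.abs_apply]
          obtain ⟨z, hz, hza⟩ := h (I i) (J j)
          rw [hz]
          exact_mod_cast hza)
      simp only [AbsoluteValue.abs_apply, Fintype.card_fin, nsmul_eq_mul] at h1
      refine h1.trans ?_
      have h2 : Nat.factorial k * a ^ k ≤ Nat.factorial n * a ^ n :=
        Nat.mul_le_mul (Nat.factorial_le hk) (Nat.pow_le_pow_right ha hk)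
      exact_mod_cast h2
    · have hJ : ¬ Function.Injective J := by
        intro hinj
        have := Fintype.card_le_of_injective J hinj
        simp at this
        omega
      simp only [Function.Injective, not_forall] at hJ
      obtain ⟨x, y, hxy, hne⟩ := hJ
      rw [Matrix.det_zero_of_column_eq hne (fun i => by simp [hxy]), abs_zero]
      positivity

/-- a row with at most two entries `±1` -/
theorem TwoUnit.row {A : Matrix (Fin m) (Fin n) ℝ} (h : TwoUnit A) (i : Fin m) :
    (∀ x : Fin n → ℝ, ∑ j, A i j * x j = 0) ∨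
    (∃ (j : Fin n) (s : ℝ), |s| = 1 ∧ ∀ x : Fin n → ℝ, ∑ j, A i j * x j = s * x j) ∨
    ∃ (j₁ j₂ : Fin n) (s₁ s₂ : ℝ), |s₁| = 1 ∧ |s₂| = 1 ∧
      ∀ x : Fin n → ℝ, ∑ j, A i j * x j = s₁ * x j₁ + s₂ * x j₂ := by
  classical
  obtain ⟨h1, h2⟩ := h i
  have habs : ∀ j, A i j ≠ 0 → |A i j| = 1 := by
    intro j hj
    rcases h1 j with h3 | h3 | h3
    · exact absurd h3 hj
    · rw [h3]; simp
    · rw [h3]; simp
  set S := Finset.univ.filter fun j => A i j ≠ 0 with hS
  have hcard : S.card ≤ 2 := by
    have : {j | A i j ≠ 0} = (S : Set (Fin n)) := by ext j; simp [hS]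
    rw [this, Set.ncard_coe_finset] at h2
    exact h2
  have hsum : ∀ x : Fin n → ℝ, ∑ j, A i j * x j = ∑ j ∈ S, A i j * x j := by
    intro x
    rw [hS, Finset.sum_filter]
    refine Finset.sum_congr rfl fun j _ => ?_
    by_cases hj : A i j = 0 <;> simp [hj]
  have hmem : ∀ j ∈ S, A i j ≠ 0 := fun j hj => (Finset.mem_filter.1 hj).2
  interval_cases hc : S.card
  · left
    intro x
    rw [hsum, Finset.card_eq_zero.1 hc, Finset.sum_empty]
  · right; left
    obtain ⟨j, hj⟩ := Finset.card_eq_one.1 hc
    refine ⟨j, A i j, habs j (hmem j (by rw [hj]; simp)), fun x => ?_⟩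
    rw [hsum, hj, Finset.sum_singleton]
  · right; right
    obtain ⟨j₁, j₂, hne, hj⟩ := Finset.card_eq_two.1 hc
    refine ⟨j₁, j₂, A i j₁, A i j₂, habs _ (hmem _ (by rw [hj]; simp)),
      habs _ (hmem _ (by rw [hj]; simp)), fun x => ?_⟩
    rw [hsum, hj, Finset.sum_pair hne]

theorem TwoUnit.imbalance {P : LP m n} (h : TwoUnit P.A) : P.ImbalanceLE 2 := by
  classical
  rintro z ⟨hz0, hz⟩ l i hi
  obtain ⟨j0, hj0⟩ : ∃ j, z j ≠ 0 := Function.ne_iff.1 hz0
  set t : ℝ := |z j0| with ht
  have htpos : 0 < t := abs_pos.2 hj0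
  set q : Fin n → ℝ := fun j => if |z j| = t then z j else 0 with hq
  -- `q` satisfies the same equations
  have hqz : ∃ r : ℝ, q = r • z := by
    apply hz
    rintro (l | k) hl
    · simp only [LP.normal] at hl ⊢
      rcases h.row l with h1 | ⟨j, s, hs, h1⟩ | ⟨j₁, j₂, s₁, s₂, hs₁, hs₂, h1⟩
      · exact h1 q
      · rw [h1] at hl ⊢
        have hs0 : s ≠ 0 := by rintro rfl; simp at hs
        have hzj : z j = 0 := (mul_eq_zero.1 hl).resolve_left hs0
        simp [hq, hzj]
      · rw [h1] at hl ⊢
        have e : |z j₁| = |z j₂| := by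
          have h2 : s₁ * z j₁ = -(s₂ * z j₂) := by linarith
          have h3 : |s₁ * z j₁| = |s₂ * z j₂| := by rw [h2, abs_neg]
          rwa [abs_mul, abs_mul, hs₁, hs₂, one_mul, one_mul] at h3
        by_cases h4 : |z j₁| = t
        · have h5 : |z j₂| = t := by rw [← e]; exact h4
          simp only [hq, h4, h5, if_true]
          exact hl
        · have h5 : ¬ |z j₂| = t := by rw [← e]; exact h4
          simp only [hq, h4, h5, if_false]
          simp
    · simp only [LP.normal, ite_mul, neg_mul, one_mul, zero_mul, Finset.sum_ite_eq',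
        Finset.mem_univ, if_true] at hl ⊢
      have hzk : z k = 0 := by linarith
      simp [hq, hzk]
  obtain ⟨r, hr⟩ := hqz
  have hr1 : r = 1 := by
    have h1 := congrFun hr j0
    simp only [hq, ← ht, if_true, Pi.smul_apply, smul_eq_mul] at h1
    have h2 : (r - 1) * z j0 = 0 := by linarith
    have := (mul_eq_zero.1 h2).resolve_right hj0
    linarith
  have hval : ∀ j, z j = 0 ∨ |z j| = t := by
    intro j
    by_cases h1 : |z j| = t
    · exact Or.inr h1
    · left
      have h2 := congrFun hr j
      simp only [hq, h1, if_false, hr1, one_smul] at h2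
      exact h2.symm
  have hle : ∀ j, |z j| ≤ t := by
    intro j
    rcases hval j with h1 | h1
    · rw [h1, abs_zero]; exact htpos.le
    · exact h1.le
  -- every row changes by `0`, `± t` or `± 2 t`
  have hup : ∀ l, |∑ j, P.normal l j * z j| ≤ 2 * t := by
    rintro (l | k)
    · simp only [LP.normal]
      rcases h.row l with h1 | ⟨j, s, hs, h1⟩ | ⟨j₁, j₂, s₁, s₂, hs₁, hs₂, h1⟩
      · rw [h1, abs_zero]; positivity
      · rw [h1, abs_mul, hs, one_mul]
        have := hle j
        linarith
      · rw [h1]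
        refine (abs_add_le _ _).trans ?_
        rw [abs_mul, abs_mul, hs₁, hs₂, one_mul, one_mul]
        have := hle j₁
        have := hle j₂
        linarith
    · simp only [LP.normal, ite_mul, neg_mul, one_mul, zero_mul, Finset.sum_ite_eq',
        Finset.mem_univ, if_true, abs_neg]
      have := hle k
      linarith
  have hlow : ∀ l, ∑ j, P.normal l j * z j ≠ 0 → t ≤ |∑ j, P.normal l j * z j| := by
    rintro (l | k) hl
    · simp only [LP.normal] at hl ⊢
      rcases h.row l with h1 | ⟨j, s, hs, h1⟩ | ⟨j₁, j₂, s₁, s₂, hs₁, hs₂, h1⟩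
      · exact absurd (h1 z) hl
      · rw [h1] at hl ⊢
        rw [abs_mul, hs, one_mul]
        rcases hval j with h2 | h2
        · rw [h2, mul_zero] at hl; exact absurd rfl hl
        · exact h2.ge
      · rw [h1] at hl ⊢
        rcases hval j₁ with h2 | h2
        · rw [h2, mul_zero, zero_add] at hl ⊢
          rw [abs_mul, hs₂, one_mul]
          rcases hval j₂ with h3 | h3
          · rw [h3, mul_zero] at hl; exact absurd rfl hl
          · exact h3.ge
        · rcases hval j₂ with h3 | h3
          · rw [h3, mul_zero, add_zero, abs_mul, hs₁, one_mul]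
            exact h2.ge
          · have e1 : |s₁ * z j₁| = t := by rw [abs_mul, hs₁, one_mul, h2]
            have e2 : |s₂ * z j₂| = t := by rw [abs_mul, hs₂, one_mul, h3]
            rcases eq_or_eq_neg_of_abs_eq e1 with a1 | a1 <;>
              rcases eq_or_eq_neg_of_abs_eq e2 with a2 | a2
            · rw [a1, a2, abs_of_pos (by linarith)]; linarith
            · exfalso; apply hl; rw [a1, a2]; ring
            · exfalso; apply hl; rw [a1, a2]; ring
            · rw [a1, a2, abs_of_neg (by linarith)]; linarith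
    · simp only [LP.normal, ite_mul, neg_mul, one_mul, zero_mul, Finset.sum_ite_eq',
        Finset.mem_univ, if_true] at hl ⊢
      rw [abs_neg]
      rcases hval k with h2 | h2
      · rw [h2, neg_zero] at hl; exact absurd rfl hl
      · exact h2.ge
  calc |∑ j, P.normal l j * z j| ≤ 2 * t := hup l
    _ ≤ ((2 : ℕ) : ℝ) * |∑ j, P.normal i j * z j| := by
        have := hlow i hi
        push_cast
        linarith

end Pool.Agent.Simplex.Subdet
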